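import Pool.Agent.W_f569db_t2.Defs

set_option autoImplicit false

noncomputable section

namespace T2F

open AlgebraicGeometry CategoryTheory MonoidalCategory
open scoped TensorProduct DirectSum
open Pool.Agent.WeilH_h6 Pool.Agent.WeilH_h6.VarClass Pool.Agent.WeilH_h6.Weil H13F

universe u v w

/-- A square matrix over a field whose rows are linearly independent has a permutation with nonzero
entries. -/
private theorem NegPerm_aux {F : Type*} [Field F] {β : Type*} [Fintype β] [DecidableEq β]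
    (G : Matrix β β F) (hG : ∀ c : β → F, (∀ j, ∑ i, c i * G i j = 0) → c = 0) :
    ∃ ρ : Equiv.Perm β, ∀ i, G (ρ i) i ≠ 0 := by
  have hdet : G.det ≠ 0 := by
    intro h0
    obtain ⟨c, hc, hc2⟩ := Matrix.exists_vecMul_eq_zero_iff.2 h0
    refine hc (hG c fun j => ?_)
    have h1 := congrFun hc2 j
    simpa [Matrix.vecMul, dotProduct] using h1
  rw [Matrix.det_apply] at hdet
  obtain ⟨ρ, -, hρ⟩ := Finset.exists_ne_zero_of_sum_ne_zero hdet
  refine ⟨ρ, fun i h0 => hρ ?_⟩
  have h2 : ∏ i, G (ρ i) i = 0 := Finset.prod_eq_zero (Finset.mem_univ i) h0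
  exact (congrArg (fun z : F => Equiv.Perm.sign ρ • z) h2).trans (smul_zero _)

variable {k : Type u} [Field k] {𝒱 : VarClass k} {K : Type v} [Field K] {W : Weil.{u, v, w} 𝒱 K}

variable [CharZero K] {X : 𝒱.Obj} {hpar : W.par X ∈ W.algHom X X} {n : ℕ} {α : Type} [Fintype α]
  [DecidableEq α] (B : NWB (W := W) (X := X) hpar n α)

/-- the permutation for the dual basis -/
private theorem NegPerm_pos (hn : 2 ≤ n) : ∃ ρ : Equiv.Perm α, ∀ i, 0 ≤ B.ξ (ρ i) + B.ξ i := by
  obtain ⟨ρ, hρ⟩ := NegPerm_aux (Matrix.of fun i j => W.tr X (B.v' i * B.v' j)) (by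
    intro c hc
    have hx : ∑ i, c i • B.v' i = 0 := by
      rw [B.exp (∑ i, c i • B.v' i)]
      refine Finset.sum_eq_zero fun j _ => ?_
      have h1 := hc j
      simp only [Matrix.of_apply] at h1
      rw [Finset.sum_mul, map_sum]
      have h2 : ∑ i, W.tr X (c i • B.v' i * B.v' j) = 0 := by
        rw [← h1]
        refine Finset.sum_congr rfl fun i _ => ?_
        rw [smul_mul_assoc, map_smul, smul_eq_mul]
      rw [h2, zero_smul]
    funext j
    have h3 : W.tr X (B.v j * ∑ i, c i • B.v' i) = c j := by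
      rw [Finset.mul_sum, map_sum, Finset.sum_eq_single j]
      · rw [mul_smul_comm, map_smul, B.one j, smul_eq_mul, mul_one]
      · intro i _ hij
        rw [mul_smul_comm, map_smul, B.dual j i (Ne.symm hij), smul_zero]
      · intro h
        exact absurd (Finset.mem_univ j) h
    rw [← h3, hx, mul_zero, map_zero, Pi.zero_apply])
  exact ⟨ρ, fun i => B.end_pos hn (W.id_mem_algHom X) (hρ i)⟩

/-- the permutation for the basis -/
private theorem NegPerm_neg (hn : 2 ≤ n) : ∃ ρ : Equiv.Perm α, ∀ i, B.ξ (ρ i) + B.ξ i ≤ 0 := by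
  obtain ⟨ρ, hρ⟩ := NegPerm_aux (Matrix.of fun i j => W.tr X (B.v i * B.v j)) (by
    intro c hc
    have h0 : ∀ i, W.tr X ((∑ j, c j • B.v j) * B.v i) = 0 := by
      intro i
      have h1 := hc i
      simp only [Matrix.of_apply] at h1
      rw [Finset.sum_mul, map_sum, ← h1]
      refine Finset.sum_congr rfl fun j _ => ?_
      rw [smul_mul_assoc, map_smul, smul_eq_mul]
    funext j
    have h3 : W.tr X ((∑ i, c i • B.v i) * B.v' j) = c j := by
      rw [Finset.sum_mul, map_sum, Finset.sum_eq_single j]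
      · rw [smul_mul_assoc, map_smul, B.one j, smul_eq_mul, mul_one]
      · intro i _ hij
        rw [smul_mul_assoc, map_smul, B.dual i j hij, smul_zero]
      · intro h
        exact absurd (Finset.mem_univ j) h
    rw [← h3, B.exp (B.v' j), Finset.mul_sum, map_sum, Pi.zero_apply]
    refine Finset.sum_eq_zero fun i _ => ?_
    rw [mul_smul_comm, map_smul, h0 i, smul_zero])
  exact ⟨ρ, fun i => B.end_neg hn (W.id_mem_algHom X) (hρ i)⟩

/-- sum of the weights and the permutation -/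
private theorem NegPerm_both (hn : 2 ≤ n) :
    (∃ ρ : Equiv.Perm α, ∀ i, B.ξ (ρ i) = -B.ξ i) ∧ ∑ i, B.ξ i = 0 := by
  obtain ⟨ρ, hρ⟩ := NegPerm_pos B hn
  obtain ⟨τ, hτ⟩ := NegPerm_neg B hn
  have h1 : ∀ σ : Equiv.Perm α, ∑ i, (B.ξ (σ i) + B.ξ i) = 2 * ∑ i, B.ξ i := by
    intro σ
    rw [Finset.sum_add_distrib, Equiv.sum_comp σ, two_mul]
  have h2 : 0 ≤ ∑ i, (B.ξ (ρ i) + B.ξ i) := Finset.sum_nonneg fun i _ => hρ i
  have h3 : ∑ i, (B.ξ (τ i) + B.ξ i) ≤ 0 := Finset.sum_nonpos fun i _ => hτ i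
  rw [h1] at h2 h3
  have h4 : ∑ i, B.ξ i = 0 := by linarith
  refine ⟨⟨ρ, fun i => ?_⟩, h4⟩
  have h5 : ∑ i, (B.ξ (ρ i) + B.ξ i) = 0 := by rw [h1, h4, mul_zero]
  have h6 := (Finset.sum_eq_zero_iff_of_nonneg fun i _ => hρ i).1 h5 i (Finset.mem_univ i)
  linarith

/-- Symmetry of the weights.

Proof.  The matrix `G i j = tr (B.v' i * B.v' j)` is invertible (Poincaré duality: `B.v'` is a basis; for
example `G` times the matrix `tr (B.v j * par (B.v l))`-type is `1`, or: if `∑ i, c i * G i j = 0` for all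
`j` then `x = ∑ c i • B.v' i` has `tr (x * B.v' j) = 0` for all `j`, so `x = 0` by `B.exp`, so
`c j = tr (B.v j * x) = 0` by `B.one`, `B.dual`).  So its determinant is not `0` and there is a
permutation `ρ` with `G i (ρ i) ≠ 0` for all `i` (`Matrix.det_apply`,
`Finset.exists_ne_zero_of_sum_ne_zero`).  By `B.v'_mem hn`, `G i j ≠ 0` implies `-ξ i ≤ ξ j` hence
`0 ≤ ξ i + ξ (ρ i)` and `0 ≤ 2 ∑ ξ`.  In the same way `tr (B.v i * B.v j) ≠ 0` implies
`ξ i + ξ j ≤ 0` (`B.end_neg hn (W.id_mem_algHom X)`), which gives `2 ∑ ξ ≤ 0`.  So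
`∑ (ξ i + ξ (ρ i)) = 0` with nonnegative terms. -/
theorem exists_neg_perm (hn : 2 ≤ n) : ∃ ρ : Equiv.Perm α, ∀ i, B.ξ (ρ i) = -B.ξ i :=
  (NegPerm_both B hn).1

/-- Proof: reindex by `ρ`. -/
theorem sum_xi (hn : 2 ≤ n) : ∑ i, B.ξ i = 0 := by
  classical
  exact (NegPerm_both B hn).2

end T2F
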