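import Pool.Agent.W_f569db_t2.AltNT
import Pool.Agent.W_f569db_t2.NegPerm

set_option autoImplicit false

noncomputable section

namespace T2F

open AlgebraicGeometry CategoryTheory MonoidalCategory
open scoped TensorProduct DirectSum
open Pool.Agent.WeilH_h6 Pool.Agent.WeilH_h6.VarClass Pool.Agent.WeilH_h6.Weil H13F

universe u v w

variable {k : Type u} [Field k] {𝒱 : VarClass k} {K : Type v} [Field K] {W : Weil.{u, v, w} 𝒱 K}

variable [CharZero K] {X : 𝒱.Obj} {hpar : W.par X ∈ W.algHom X X} {n : ℕ} {α : Type} [Fintype α]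
  [DecidableEq α] {b b' : α → W.H X}

/-- The pairing of the dual bases. -/
theorem AltMain_tr (B : NWB (W := W) (X := X) hpar n α) (i j : α) :
    W.tr X (W.par X (B.v' i) * B.v j) = if j = i then 1 else 0 := by
  rw [W.tr_comm, W.par_par]
  by_cases h : j = i
  · rw [if_pos h, h, B.one]
  · rw [if_neg h, B.dual _ _ h]

/-- Two points of a block with the same index are equal. -/
theorem AltMain_ext {ζ : α → ℤ} {T m : ℕ} (x y : Blk ζ T × Fin m)
    (h : (x.1.1, x.2) = (y.1.1, y.2)) (h' : x.1.2.1 = y.1.2.1) : x = y := by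
  obtain ⟨⟨c, ⟨i, hi⟩⟩, j⟩ := x
  obtain ⟨⟨c', ⟨i', hi'⟩⟩, j'⟩ := y
  simp only [Prod.mk.injEq] at h
  obtain ⟨rfl, rfl⟩ := h
  simp only at h'
  subst h'
  rfl

/-- The pairing of the right hand side with the words. -/
theorem AltMain_rhs (hx : ∀ x, x = ∑ j, W.tr X (x * b' j) • b j)
    (B : NWB (W := W) (X := X) hpar n α) {ζ : α → ℤ} {T m : ℕ} (S : K)
    (q : Blk ζ T × Fin m → α) :
    flatI W b (fun c => S * ∑ σ : Equiv.Perm (Blk ζ T × Fin m),
      if ∀ x, ((σ x).1.1, (σ x).2) = (x.1.1, x.2) then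
        ((Equiv.Perm.sign σ : ℤ) : K) * prA W b' (fun x => W.par X (B.v' (σ x).1.2.1)) c else 0)
      (fun x => B.v (q x)) =
    S * ∑ σ : Equiv.Perm (Blk ζ T × Fin m), if ∀ x, ((σ x).1.1, (σ x).2) = (x.1.1, x.2) then
        ((Equiv.Perm.sign σ : ℤ) : K) * ∏ x, (if q x = (σ x).1.2.1 then (1 : K) else 0) else 0 := by
  have h1 := flatI_alt hx (fun x : Blk ζ T × Fin m => W.par X (B.v' x.1.2.1))
    (fun x => B.v (q x)) (fun x => (x.1.1, x.2))
  simp only [AltMain_tr] at h1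
  rw [← h1]
  unfold flatI
  rw [Finset.mul_sum]
  refine Finset.sum_congr rfl fun c _ => ?_
  rw [mul_assoc]

/-- The case of a word which is a permutation of the blocks. -/
theorem AltMain_one {ζ : α → ℤ} {T m : ℕ} (σ₀ : Equiv.Perm (Blk ζ T × Fin m))
    (h₀ : ∀ x, ((σ₀ x).1.1, (σ₀ x).2) = (x.1.1, x.2)) :
    (∑ σ : Equiv.Perm (Blk ζ T × Fin m), if ∀ x, ((σ x).1.1, (σ x).2) = (x.1.1, x.2) then
        ((Equiv.Perm.sign σ : ℤ) : K) *
          ∏ x, (if (σ₀ x).1.2.1 = (σ x).1.2.1 then (1 : K) else 0) else 0) =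
      ((Equiv.Perm.sign σ₀ : ℤ) : K) := by
  rw [Finset.sum_eq_single σ₀]
  · rw [if_pos h₀]
    simp
  · intro σ _ hσ
    by_cases h : ∀ x, ((σ x).1.1, (σ x).2) = (x.1.1, x.2)
    · rw [if_pos h]
      have h1 : ∃ x, (σ₀ x).1.2.1 ≠ (σ x).1.2.1 := by
        by_contra hc
        push Not at hc
        refine hσ (Equiv.ext fun x => AltMain_ext _ _ ((h x).trans (h₀ x).symm) (hc x).symm)
      obtain ⟨x, hx⟩ := h1
      rw [Finset.prod_eq_zero (Finset.mem_univ x) (if_neg hx), mul_zero]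
    · rw [if_neg h]
  · intro h
    exact absurd (Finset.mem_univ _) h

/-- Numerical triviality of multiples. -/
theorem AltMain_NT {Y : 𝒱.Obj} {S : K} (hS : S ≠ 0) {a : W.H Y} (h : W.NT (S • a)) : W.NT a := by
  refine ⟨?_, fun b hb => ?_⟩
  · have h1 := Submodule.smul_mem (W.algSpan Y) S⁻¹ h.1
    rwa [smul_smul, inv_mul_cancel₀ hS, one_smul] at h1
  · have h1 := h.2 b hb
    rw [smul_mul_assoc, map_smul, smul_eq_mul] at h1
    exact (mul_eq_zero.1 h1).resolve_left hS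

/-- The weight of the words. -/
theorem AltMain_sum {ζ : α → ℤ} {T : ℕ} (hT : ∀ i, |ζ i| ≤ T) {ρ : Equiv.Perm α}
    (hρ : ∀ i, ζ (ρ i) = -ζ i) (N : ℕ) :
    ∑ x : Blk ζ T × Fin (2 * N), ζ x.1.2.1 = -(N * ∑ i, ζ i ^ 2) := by
  rw [Fintype.sum_prod_type]
  simp only [Finset.sum_const, Finset.card_univ, Fintype.card_fin]
  rw [← Finset.smul_sum, nsmul_eq_mul]
  have h1 := sum_blk_self hT hρ
  push_cast
  have h2 : (2 : ℤ) * N * ∑ s : Blk ζ T, ζ s.2.1 = N * (2 * ∑ s : Blk ζ T, ζ s.2.1) := by ring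
  rw [h2, h1]
  ring

/-- The key computation: the antisymmetrisation of `A` is a multiple of the alternating array of the
`par (B.v' i)`.

Proof.  Put `β x = (x.1.1, x.2)` and `S = ∑ p, (∏ j, eps ..) * flatI A (b ∘ p) ≠ 0`, so
`flatI (asym β A) (fun x => B.v x.1.2.1) = S` by `flatI_asym_eps`, `hv`.  By `arr_ext hd` with `v = B.v`
(generating by `B.exp`) it is enough to compare the pairings with the words `q : Blk ζ T × Fin (2N) → α`.
(a) If `q x = (σ x).1.2.1` with `σ` preserving `β`: the left hand side is `sign σ * S`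
(`flatI_asym_perm`), the right hand side is `S * ∑ τ, [..] sign τ * ∏ x, tr (par (B.v' (τ x).1.2.1) *
B.v (σ x).1.2.1)` (`flatI_alt`); here `tr (par (B.v' i) * B.v j) = tr (B.v j * B.v' i)` is `1` if `i = j`
and `0` otherwise (`W.tr_comm`, `W.par_par`, `B.one`, `B.dual`), and a `τ` preserving `β` with
`(τ x).1.2.1 = (σ x).1.2.1` for all `x` is equal to `σ`.
(b) Otherwise the right hand side is `0` (each product has a zero factor), and the left hand side too: if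
it is not `0`, then some `flatI A (B.v ∘ q ∘ σ) ≠ 0` (`flatI_asym`), so
`∑ x, B.ξ (q x) ≤ -(N * r₀)` by `hw` and `B.v_mem`; multiplying by `D`, with `hζ`, `hr` and
`sum_blk_self` (`∑ x : Blk ζ T × Fin (2N), ζ x.1.2.1 = 2 N ∑ s, ζ s.2.1 = -N ∑ ζ ^ 2`,
`D * r₀ = ∑ ζ ^ 2`), this is `∑ x, ζ (q x) ≤ ∑ x, ζ x.1.2.1`; and `q` is injective on the blocks by
`flatI_asym_zero`; by `blk_comb` we are in case (a). -/
theorem asym_eq (hd : ∀ i j, W.tr X (b i * b' j) = if i = j then 1 else 0)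
    (hx : ∀ x, x = ∑ j, W.tr X (x * b' j) • b j) (B : NWB (W := W) (X := X) hpar n α)
    {h : Matrix α α K} (hv : B.v = colB b h)
    {D : ℕ} (hD : 0 < D) {ζ : α → ℤ} (hζ : ∀ i, (ζ i : ℝ) = D * B.ξ i) {r₀ : ℕ}
    (hr : (r₀ : ℝ) = D * ∑ i, B.ξ i ^ 2) {T : ℕ} (hT : ∀ i, |ζ i| ≤ T) {ρ : Equiv.Perm α}
    (hρ : ∀ i, ζ (ρ i) = -ζ i) {N : ℕ} {A : (Blk ζ T × Fin (2 * N) → α) → K}
    (hw : WtA B b A (N * r₀)) :
    asym (fun x : Blk ζ T × Fin (2 * N) => (x.1.1, x.2)) A = fun c =>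
      (∑ p : Blk ζ T × Fin (2 * N) → α, (∏ j, eps h ζ T fun s => p (s, j)) *
        flatI W b A (fun s => b (p s))) *
      ∑ σ : Equiv.Perm (Blk ζ T × Fin (2 * N)), if ∀ x, ((σ x).1.1, (σ x).2) = (x.1.1, x.2) then
        ((Equiv.Perm.sign σ : ℤ) : K) * prA W b' (fun x => W.par X (B.v' (σ x).1.2.1)) c else 0 := by
  obtain ⟨S, hS⟩ : ∃ S, S = ∑ p : Blk ζ T × Fin (2 * N) → α,
      (∏ j, eps h ζ T fun s => p (s, j)) * flatI W b A (fun s => b (p s)) := ⟨_, rfl⟩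
  rw [← hS]
  refine arr_ext hd (v := B.v) ?_ fun q => ?_
  · intro x
    rw [B.exp x]
    exact Submodule.sum_mem _ fun i _ => Submodule.smul_mem _ _
      (Submodule.subset_span ⟨i, rfl⟩)
  · rw [AltMain_rhs hx B S q]
    by_cases hq : ∃ σ : Equiv.Perm (Blk ζ T × Fin (2 * N)),
        (∀ x, ((σ x).1.1, (σ x).2) = (x.1.1, x.2)) ∧ ∀ x, q x = (σ x).1.2.1
    · obtain ⟨σ₀, h₀, h₁⟩ := hq
      obtain rfl : q = fun x => (σ₀ x).1.2.1 := funext h₁
      rw [AltMain_one σ₀ h₀]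
      have h2 := flatI_asym_perm (W := W) (b := b)
        (fun x : Blk ζ T × Fin (2 * N) => (x.1.1, x.2)) A (fun x => B.v x.1.2.1) σ₀ h₀
      have h3 := flatI_asym_eps (W := W) (b := b) h ζ T (2 * N) A
      rw [← hS, ← hv] at h3
      rw [h2, h3, mul_comm]
    · have hr0 : (∑ σ : Equiv.Perm (Blk ζ T × Fin (2 * N)),
          if ∀ x, ((σ x).1.1, (σ x).2) = (x.1.1, x.2) then
            ((Equiv.Perm.sign σ : ℤ) : K) *
              ∏ x, (if q x = (σ x).1.2.1 then (1 : K) else 0) else 0) = 0 := by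
        refine Finset.sum_eq_zero fun σ _ => ?_
        by_cases hσ : ∀ x, ((σ x).1.1, (σ x).2) = (x.1.1, x.2)
        · rw [if_pos hσ]
          have h1 : ∃ x, q x ≠ (σ x).1.2.1 := by
            by_contra hc
            push Not at hc
            exact hq ⟨σ, hσ, hc⟩
          obtain ⟨x, hx1⟩ := h1
          rw [Finset.prod_eq_zero (Finset.mem_univ x) (if_neg hx1), mul_zero]
        · rw [if_neg hσ]
      rw [hr0, mul_zero]
      by_contra hne
      apply hq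
      refine blk_comb q ?_ ?_
      · intro x y h1 h2 h3
        by_contra hxy
        exact hne (flatI_asym_zero _ A _ hxy (Prod.ext h1 h2) (congrArg B.v h3))
      · rw [flatI_asym] at hne
        obtain ⟨σ, -, hσ⟩ := Finset.exists_ne_zero_of_sum_ne_zero hne
        have h4 : flatI W b A (fun x => B.v (q (σ x))) ≠ 0 := by
          intro h5
          apply hσ
          by_cases h6 : ∀ x, ((σ x).1.1, (σ x).2) = (x.1.1, x.2)
          · rw [if_pos h6, h5, mul_zero]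
          · rw [if_neg h6]
        have h5 : ¬ (-((N : ℝ) * r₀) < ∑ x, B.ξ (q (σ x))) := fun h6 =>
          h4 (hw (fun x => B.ξ (q (σ x))) (fun x => B.v (q (σ x))) (fun x => B.v_mem _) h6)
        rw [not_lt, Equiv.sum_comp σ (fun x => B.ξ (q x))] at h5
        have h6 : ((∑ x, ζ (q x) : ℤ) : ℝ) = D * ∑ x, B.ξ (q x) := by
          push_cast
          rw [Finset.mul_sum]
          exact Finset.sum_congr rfl fun x _ => hζ _
        have h7 : ((∑ i, ζ i ^ 2 : ℤ) : ℝ) = D * r₀ := by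
          push_cast
          rw [hr, ← mul_assoc, Finset.mul_sum]
          refine Finset.sum_congr rfl fun i _ => ?_
          rw [hζ]
          ring
        have hD' : (0 : ℝ) ≤ D := Nat.cast_nonneg _
        have h8 : ((∑ x, ζ (q x) : ℤ) : ℝ) ≤
            ((∑ x : Blk ζ T × Fin (2 * N), ζ x.1.2.1 : ℤ) : ℝ) := by
          rw [AltMain_sum hT hρ, h6, Int.cast_neg, Int.cast_mul, h7]
          have h9 := mul_le_mul_of_nonneg_left h5 hD'
          calc (D : ℝ) * ∑ x, B.ξ (q x) ≤ D * -((N : ℝ) * r₀) := h9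
            _ = -(((N : ℤ) : ℝ) * (D * r₀)) := by push_cast; ring
        exact_mod_cast h8

/-- The alternating class is algebraic and numerically trivial.

Proof: `NTA.asym hpar`, `asym_eq`, `altI_eq`, `clsI` is linear, and `S ≠ 0` (`NT` is stable under
multiples: `W.NT (S • a)` implies `W.NT a`). -/
theorem altI_nt (hd : ∀ i j, W.tr X (b i * b' j) = if i = j then 1 else 0)
    (hx : ∀ x, x = ∑ j, W.tr X (x * b' j) • b j) (B : NWB (W := W) (X := X) hpar n α)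
    {h : Matrix α α K} (hv : B.v = colB b h)
    {D : ℕ} (hD : 0 < D) {ζ : α → ℤ} (hζ : ∀ i, (ζ i : ℝ) = D * B.ξ i) {r₀ : ℕ}
    (hr : (r₀ : ℝ) = D * ∑ i, B.ξ i ^ 2) {T : ℕ} (hT : ∀ i, |ζ i| ≤ T) {ρ : Equiv.Perm α}
    (hρ : ∀ i, ζ (ρ i) = -ζ i) {N : ℕ} {A : (Blk ζ T × Fin (2 * N) → α) → K} (hA : NTA W b A)
    (hw : WtA B b A (N * r₀))
    (hne : ∑ p : Blk ζ T × Fin (2 * N) → α, (∏ j, eps h ζ T fun s => p (s, j)) *
      flatI W b A (fun s => b (p s)) ≠ 0) :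
    W.NT (altI W (fun x : Blk ζ T × Fin (2 * N) => W.par X (B.v' x.1.2.1))
      fun x => (x.1.1, x.2)) := by
  have h1 := NTA.asym hpar (fun x : Blk ζ T × Fin (2 * N) => (x.1.1, x.2)) hA
  rw [asym_eq hd hx B hv hD hζ hr hT hρ hw] at h1
  rw [altI_eq hx]
  obtain ⟨S, hS⟩ : ∃ S, S = ∑ p : Blk ζ T × Fin (2 * N) → α,
      (∏ j, eps h ζ T fun s => p (s, j)) * flatI W b A (fun s => b (p s)) := ⟨_, rfl⟩
  rw [← hS] at h1 hne
  obtain ⟨F, hF⟩ : ∃ F : (Blk ζ T × Fin (2 * N) → α) → K, F = fun c =>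
      ∑ σ : Equiv.Perm (Blk ζ T × Fin (2 * N)), if ∀ x, ((σ x).1.1, (σ x).2) = (x.1.1, x.2) then
        ((Equiv.Perm.sign σ : ℤ) : K) * prA W b' (fun x => W.par X (B.v' (σ x).1.2.1)) c else 0 :=
    ⟨_, rfl⟩
  have h2 : clsI W b (fun c => S * F c) = S • clsI W b F := by
    unfold clsI
    rw [Finset.smul_sum]
    refine Finset.sum_congr rfl fun c _ => ?_
    rw [smul_smul]
  rw [hF] at h2
  have h3 : W.NT (S • clsI W b F) := by
    rw [hF, ← h2]
    exact h1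
  rw [hF] at h3
  exact AltMain_NT hne h3

end T2F
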