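import Pool.Agent.W_f569db_t2.Defs

set_option autoImplicit false

noncomputable section

namespace T2F

open AlgebraicGeometry CategoryTheory MonoidalCategory
open scoped TensorProduct DirectSum
open Pool.Agent.WeilH_h6 Pool.Agent.WeilH_h6.VarClass Pool.Agent.WeilH_h6.Weil H13F

universe u v w

variable {k : Type u} [Field k] {𝒱 : VarClass k} {K : Type v} [Field K] {W : Weil.{u, v, w} 𝒱 K}

variable [CharZero K] {X : 𝒱.Obj} {α : Type} [Fintype α] [DecidableEq α] {b b' : α → W.H X}

omit [CharZero K] in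
theorem NeFam_one (m : ℕ) : W.pureT (fun _ : Fin m => (1 : W.H X)) = 1 := by
  induction m with
  | zero => exact W.pureT_zero _
  | succ m ih => rw [pureT_succ, ih, map_one, map_one, mul_one]

theorem NeFam_one_pt (hpar : W.par X ∈ W.algHom X X) {p : W.H X} (hp : W.tr X p = 1) (m : ℕ) :
    fB hpar m (1 : W.H (X.pow m)) (W.pureT fun _ => p) = 1 := by
  rw [← NeFam_one (W := W) (X := X) m, fB_pureT]
  simp [hp]

omit [CharZero K] in
theorem NeFam_flat (hd : ∀ i j, W.tr X (b i * b' j) = if i = j then 1 else 0) {n : ℕ}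
    (y : (Fin n → α) → K) (c : Fin n → α) : flat W b y (fun s => b' (c s)) = y c := by
  unfold flat
  rw [Finset.sum_eq_single c]
  · rw [Finset.prod_eq_one, mul_one]
    intro s _
    rw [hd, if_pos rfl]
  · intro e _ he
    obtain ⟨s, hs⟩ := Function.ne_iff.1 he
    rw [Finset.prod_eq_zero (Finset.mem_univ s), mul_zero]
    rw [hd, if_neg hs]
  · intro h; exact absurd (Finset.mem_univ _) h

omit [CharZero K] [DecidableEq α] in
theorem NeFam_cls_zero {n : ℕ} : cls W b n (0 : (Fin n → α) → K) = 0 := by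
  unfold cls
  simp

/-- If there is a nonzero numerically trivial class on some `X^m`, `m ≤ n`, then some distinguished
member of the family at level `n` is not zero.

Proof.  Let `a` be the class; `a ⊠ 1` on `X^n` (`W.box2 a 1`, `n = m + l`) is numerically trivial (`NT.box2`)
and not zero (its pairing `fB` with `pureT (append u (fun _ => pt))`, `exists_pt`, is
`fB a (pureT u)`; `fB_box2`, `fB_pureT`; and `a ≠ 0` implies `fB a (pureT u) ≠ 0` for some `u`:
`W.ext_tr`, `pure_induction`, `tr_mul_pureT` and `parPr_add`, or `exists_cls` and `flat`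
with the dual basis, see `cls_inj`).  `exists_cls b hb` gives arrays `y` of `a ⊠ 1` and `z` of `1`; the matrix
`famX b n (y, z)` is `y a * flat z (b ∘ a')`, and neither factor is identically zero (`y ≠ 0` as
`cls y ≠ 0`; if all `flat z (b ∘ a')` were `0` then by multilinearity `fB 1 (pureT (fun _ => pt)) = 0`,
but it is `1`). -/
theorem exists_fam_ne (hpar : W.par X ∈ W.algHom X X)
    (hd : ∀ i j, W.tr X (b i * b' j) = if i = j then 1 else 0)
    (hb : ∀ x, x ∈ Submodule.span K (Set.range b)) {n : ℕ}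
    (h : ∃ m ≤ n, ∃ a : W.H (X.pow m), W.NT a ∧ a ≠ 0) :
    ∃ p ∈ famZ (W := W) b n, famX b n p ≠ 0 := by
  obtain ⟨m, hm, a, ha, ha0⟩ := h
  obtain ⟨l, rfl⟩ := Nat.exists_eq_add_of_le hm
  obtain ⟨pt, -, hpt⟩ := exists_pt W X
  have h1 : (1 : W.H (X.pow l)) ∈ W.algSpan (X.pow l) := W.one_mem_algSpan _
  have h1' : (1 : W.H (X.pow (m + l))) ∈ W.algSpan (X.pow (m + l)) := W.one_mem_algSpan _
  have hA : W.NT (W.box2 a (1 : W.H (X.pow l))) := NT.box2 W ha h1
  obtain ⟨y, hy⟩ := exists_cls b hb (W.box2 a (1 : W.H (X.pow l)))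
  obtain ⟨z, hz⟩ := exists_cls b hb (1 : W.H (X.pow (m + l)))
  -- some coordinate of `y` is not zero
  have hy0 : ∃ c, y c ≠ 0 := by
    by_contra hno
    push Not at hno
    have hy1 : y = 0 := funext hno
    have hbox : W.box2 a (1 : W.H (X.pow l)) = 0 := by rw [← hy, hy1, NeFam_cls_zero]
    obtain ⟨x, hx⟩ := exists_cls b hb a
    have hx0 : x = 0 := by
      funext c
      have h2 := fB_box2 hpar a (fun s => b' (c s)) (1 : W.H (X.pow l)) (fun _ => pt)
      rw [NeFam_one_pt hpar hpt, mul_one, hbox, ← hx, fB_cls, NeFam_flat hd] at h2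
      have h3 : fB hpar (m + l) (0 : W.H (X.pow (m + l)))
          (W.pureT (Fin.append (fun s => b' (c s)) fun _ => pt)) = 0 := by
        rw [← fBL_apply, map_zero, LinearMap.zero_apply]
      rw [h3] at h2
      exact h2.symm
    apply ha0
    rw [← hx, hx0, NeFam_cls_zero]
  -- some value of `flat z` is not zero
  have hz0 : ∃ c : Fin (m + l) → α, flat W b z (fun s => b (c s)) ≠ 0 := by
    by_contra hno
    push Not at hno
    obtain ⟨x, hx⟩ := exists_cls b hb (W.pureT fun _ : Fin (m + l) => pt)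
    have h2 := NeFam_one_pt hpar hpt (m + l)
    rw [← hx, ← fBL_apply] at h2
    unfold cls at h2
    rw [map_sum] at h2
    rw [Finset.sum_eq_zero] at h2
    · exact zero_ne_one h2
    · intro c _
      rw [map_smul, fBL_apply, ← hz, fB_cls, hno c, smul_zero]
  obtain ⟨c, hc⟩ := hy0
  obtain ⟨e, he⟩ := hz0
  have hya : cls W b (m + l) y ∈ W.algSpan (X.pow (m + l)) := by
    rw [hy]
    exact W.box2_mem ha.1 h1
  have hza : cls W b (m + l) z ∈ W.algSpan (X.pow (m + l)) := by
    rw [hz]
    exact h1'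
  refine ⟨(⟨y, hya⟩, ⟨z, hza⟩), Or.inl ?_, ?_⟩
  · change W.NT (cls W b (m + l) y)
    rw [hy]
    exact hA
  · intro h0
    have h2 := congrFun (congrFun h0 c) e
    change y c * flat W b z (fun s => b (e s)) = 0 at h2
    exact mul_ne_zero hc he h2

end T2F
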