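import Pool.Agent.W_f569db_t2.Defs
import Pool.Agent.W_f569db_h13.Opt

set_option autoImplicit false

noncomputable section

namespace T2F

open AlgebraicGeometry CategoryTheory MonoidalCategory
open scoped TensorProduct DirectSum
open Pool.Agent.WeilH_h6 Pool.Agent.WeilH_h6.VarClass Pool.Agent.WeilH_h6.Weil H13F

universe u v w

variable {k : Type u} [Field k] {𝒱 : VarClass k} {K : Type v} [Field K] {W : Weil.{u, v, w} 𝒱 K}

variable {α : Type} [Fintype α] [DecidableEq α] {ι : Type} [Fintype ι] [DecidableEq ι]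

theorem Active_cj_ne {x : Matrix (ι → α) (ι → α) K} (g : (Matrix α α K)ˣ) (hx : x ≠ 0) :
    ∃ a b, H69.cj g⁻¹ x a b ≠ 0 := by
  by_contra hno
  push Not at hno
  have h0 : H69.cj g⁻¹ x = 0 := by
    ext a b
    exact hno a b
  rw [H69.kempfA_cj_inv] at h0
  apply hx
  have h1 : H69.ten ι (g : Matrix α α K) * H69.ten ι ((g⁻¹ : (Matrix α α K)ˣ) : Matrix α α K) = 1 :=
    H69.ten_mul_inv g
  calc x = (H69.ten ι (g : Matrix α α K) * H69.ten ι ((g⁻¹ : (Matrix α α K)ˣ) : Matrix α α K)) * x *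
        (H69.ten ι (g : Matrix α α K) * H69.ten ι ((g⁻¹ : (Matrix α α K)ˣ) : Matrix α α K)) := by
        rw [h1, one_mul, mul_one]
    _ = H69.ten ι (g : Matrix α α K) *
        (H69.ten ι ((g⁻¹ : (Matrix α α K)ˣ) : Matrix α α K) * x * H69.ten ι (g : Matrix α α K)) *
        H69.ten ι ((g⁻¹ : (Matrix α α K)ˣ) : Matrix α α K) := by simp only [mul_assoc]
    _ = 0 := by rw [h0, mul_zero, zero_mul]

omit [Fintype α] [DecidableEq α] [DecidableEq ι] in
theorem Active_wt (η' η : α → ℝ) (s : ℝ) (a b : ι → α) :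
    wt (fun r => η' r + (-s) * η r) a b = wt η' a b - s * wt η a b := by
  unfold wt
  simp only [Finset.sum_add_distrib, ← Finset.mul_sum]
  ring

/-- First order condition against a second weight.

Proof.  Let `η'` be the second weight, and let `s` be the minimum of `wt η' a b` over the pairs `(a, b)` such
that `cj g⁻¹ x a b ≠ 0` for some `x ∈ N` (a finite set, nonempty because `cj g⁻¹ x ≠ 0` for `x ≠ 0`:
`x = cj g (cj g⁻¹ x)`-type identity, `H69.kempfA_cj_inv`, `H69.ten_mul_inv`).  `first_order` with the direction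
`η' - s η`: if `wt η a b = 0` then `wt (η' - s η) a b = wt η' a b ≥ 0` by `h1`; if `wt η a b = 1` it is
`wt η' a b - s ≥ 0`.  So `0 ≤ ∑ η i * (η' i - s * η i)`. -/
theorem exists_active {A N : Set (Matrix (ι → α) (ι → α) K)} {g : (Matrix α α K)ˣ} {η : α → ℝ}
    (h : PosS A N g η) (hm : ∀ ξ' : α → ℝ, PosS A N g ξ' → ∑ r, η r ^ 2 ≤ ∑ r, ξ' r ^ 2)
    (η' : α → ℝ) (h1 : ∀ x ∈ A, ∀ a b, H69.cj g⁻¹ x a b ≠ 0 → 0 ≤ wt η' a b)
    (hne : ∃ x ∈ N, x ≠ 0) :
    ∃ x ∈ N, ∃ a b, H69.cj g⁻¹ x a b ≠ 0 ∧ wt η' a b * ∑ r, η r ^ 2 ≤ ∑ r, η r * η' r := by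
  classical
  obtain ⟨x₀, hx₀, hx₀'⟩ := hne
  obtain ⟨a₀, b₀, h₀⟩ := Active_cj_ne g hx₀'
  let S : Finset ((ι → α) × (ι → α)) :=
    Finset.univ.filter fun p => ∃ x ∈ N, H69.cj g⁻¹ x p.1 p.2 ≠ 0
  have hS : S.Nonempty := ⟨(a₀, b₀), Finset.mem_filter.2 ⟨Finset.mem_univ _, x₀, hx₀, h₀⟩⟩
  obtain ⟨p, hp, hmin⟩ := Finset.exists_min_image S (fun p => wt η' p.1 p.2) hS
  obtain ⟨-, x, hx, hxp⟩ := Finset.mem_filter.1 hp
  refine ⟨x, hx, p.1, p.2, hxp, ?_⟩
  have hfo := first_order h hm (fun r => η' r + (-wt η' p.1 p.2) * η r) ?_ ?_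
  · have h2 : ∑ r, η r * (η' r + (-wt η' p.1 p.2) * η r) =
        ∑ r, η r * η' r - wt η' p.1 p.2 * ∑ r, η r ^ 2 := by
      rw [Finset.mul_sum, ← Finset.sum_sub_distrib]
      refine Finset.sum_congr rfl fun r _ => ?_
      ring
    rw [h2] at hfo
    linarith
  · intro y hy a b hab hw
    rw [Active_wt, hw, mul_zero, sub_zero]
    exact h1 y hy a b hab
  · intro y hy a b hab hw
    rw [Active_wt, hw, mul_one, sub_nonneg]
    exact hmin (a, b) (Finset.mem_filter.2 ⟨Finset.mem_univ _, y, hy, hab⟩)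

end T2F
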