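import Pool.Agent.W_f569db_t2.Defs

set_option autoImplicit false
set_option linter.unusedSectionVars false

/-!
# Linear algebra and combinatorics of the slots `Blk ζ T`
-/

noncomputable section

namespace T2F

open Matrix

variable {α : Type} [Fintype α] [DecidableEq α] {K : Type*} [Field K]

/-- If `M` is invertible and respects the weights, then the block diagonal matrix of the blocks
`{ζ i ≤ -(c+1)}` of `M`, `c < T`, is invertible.

Proof.  Let `N` be the matrix `if s.1 = s'.1 then M s.2.1 s'.2.1 else 0`.  If `N.mulVec x = 0` then for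
each `c` the vector `x_c = x ⟨c, ·⟩` on `I_c = {i // ζ i ≤ -(c+1)}` is killed by the block
`M.toSquareBlockProp (· ∈ I_c)`; this block is invertible, since
`M.det = (block of I_c).det * (block of the complement).det` by `Matrix.twoBlockTriangular_det`
(`M i' i = 0` for `i' ∈ I_c`, `i ∉ I_c`, in the appropriate order) and `M.det ≠ 0`.
(`Matrix.exists_mulVec_eq_zero_iff`, or use `Matrix.BlockTriangular.det` for `N` and
`b s = s.1`.) -/
theorem det_blk_ne_zero {M : Matrix α α K} (hM : M.det ≠ 0) {ζ : α → ℤ} (T : ℕ)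
    (h : ∀ i' i, M i' i ≠ 0 → ζ i ≤ ζ i') :
    (Matrix.of fun s s' : Blk ζ T => if s.1 = s'.1 then M s.2.1 s'.2.1 else 0).det ≠ 0 := by
  intro h0
  obtain ⟨x, hx, hxN⟩ := Matrix.exists_vecMul_eq_zero_iff.mpr h0
  apply hx
  funext s
  obtain ⟨c, i⟩ := s
  set v : α → K := fun a => if ha : ζ a ≤ -(((c : ℕ) : ℤ) + 1) then x ⟨c, ⟨a, ha⟩⟩ else 0 with hv
  have hsum : ∀ j : α, ∑ a, v a * M a j =
      ∑ a : {i : α // ζ i ≤ -(((c : ℕ) : ℤ) + 1)}, x ⟨c, a⟩ * M a.1 j := by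
    intro j
    have h1 : ∑ a, v a * M a j = ∑ a ∈ Finset.univ.filter
        (fun a => ζ a ≤ -(((c : ℕ) : ℤ) + 1)), v a * M a j := by
      rw [Finset.sum_filter]
      refine Finset.sum_congr rfl fun a _ => ?_
      by_cases ha : ζ a ≤ -(((c : ℕ) : ℤ) + 1)
      · rw [if_pos ha]
      · rw [if_neg ha, hv]
        simp only [dif_neg ha, zero_mul]
    rw [h1, Finset.sum_subtype (p := fun a => ζ a ≤ -(((c : ℕ) : ℤ) + 1)) _ (by simp)]
    refine Finset.sum_congr rfl fun a _ => ?_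
    rw [hv]
    simp only [dif_pos a.2]
  have hvM : v ᵥ* M = 0 := by
    funext j
    show ∑ a, v a * M a j = 0
    rw [hsum]
    by_cases hj : ζ j ≤ -(((c : ℕ) : ℤ) + 1)
    · have h2 := congrFun hxN ⟨c, ⟨j, hj⟩⟩
      simp only [Matrix.vecMul, dotProduct, Matrix.of_apply, Pi.zero_apply, Fintype.sum_sigma] at h2
      rw [Finset.sum_eq_single c] at h2
      · rw [← h2]
        refine Finset.sum_congr rfl fun a _ => ?_
        rw [if_pos rfl]
      · intro b _ hb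
        refine Finset.sum_eq_zero fun a _ => ?_
        rw [if_neg hb, mul_zero]
      · intro hc
        exact absurd (Finset.mem_univ c) hc
    · refine Finset.sum_eq_zero fun a _ => ?_
      by_cases hMa : M a.1 j = 0
      · rw [hMa, mul_zero]
      · exact absurd ((h a.1 j hMa).trans a.2) hj
  have hv0 : v = 0 := Matrix.eq_zero_of_vecMul_eq_zero hM hvM
  have h3 := congrFun hv0 i.1
  rw [hv] at h3
  simp only [dif_pos i.2] at h3
  exact h3

omit [DecidableEq α] in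
private theorem DetBlk_sum {ζ : α → ℤ} {T : ℕ} (hT : ∀ i, |ζ i| ≤ T) (g : α → ℝ) :
    ∑ s : Blk ζ T, g s.2.1 = ∑ i, g i * ((max (-ζ i) 0 : ℤ) : ℝ) := by
  classical
  rw [Fintype.sum_sigma]
  have h1 : ∀ c : Fin T, ∑ i : {i : α // ζ i ≤ -(((c : ℕ) : ℤ) + 1)}, g i.1 =
      ∑ i, if ζ i ≤ -(((c : ℕ) : ℤ) + 1) then g i else 0 := by
    intro c
    rw [← Finset.sum_filter, Finset.sum_subtype (p := fun a => ζ a ≤ -(((c : ℕ) : ℤ) + 1)) _
      (by simp)]
  have h1' : ∑ x : Fin T, ∑ y : {i : α // ζ i ≤ -(((x : ℕ) : ℤ) + 1)}, g y.1 =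
      ∑ x : Fin T, ∑ i, if ζ i ≤ -(((x : ℕ) : ℤ) + 1) then g i else 0 :=
    Finset.sum_congr rfl fun c _ => h1 c
  rw [h1', Finset.sum_comm]
  refine Finset.sum_congr rfl fun i _ => ?_
  rw [← Finset.sum_filter, Finset.sum_const, nsmul_eq_mul, mul_comm]
  congr 1
  have h2 : (Finset.univ.filter fun c : Fin T => ζ i ≤ -(((c : ℕ) : ℤ) + 1)).card =
      (-ζ i).toNat := by
    have h3 : (Finset.univ.filter fun c : Fin T => ζ i ≤ -(((c : ℕ) : ℤ) + 1)).card =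
        ((Finset.range T).filter fun c : ℕ => ζ i ≤ -((c : ℤ) + 1)).card := by
      rw [Finset.card_filter, Finset.card_filter]
      exact Fin.sum_univ_eq_sum_range (fun c : ℕ => if ζ i ≤ -((c : ℤ) + 1) then 1 else 0) T
    rw [h3]
    have h4 : ((Finset.range T).filter fun c : ℕ => ζ i ≤ -((c : ℤ) + 1)) =
        Finset.range (-ζ i).toNat := by
      ext c
      have hTi := hT i
      have h5 := neg_abs_le (ζ i)
      simp only [Finset.mem_filter, Finset.mem_range]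
      omega
    rw [h4, Finset.card_range]
  rw [h2]
  have h6 : ((-ζ i).toNat : ℤ) = max (-ζ i) 0 := Int.toNat_eq_max _
  rw [← h6]
  exact (Int.cast_natCast _).symm

omit [DecidableEq α] in
private theorem DetBlk_max (x : ℤ) : max (-x) 0 - max x 0 = -x := by
  omega

/-- Proof: `∑ s : Blk ζ T, f s.2.1 = ∑ i, f i * max (-ζ i) 0` (`Fintype.sum_sigma`,
`Finset.sum_comm`, the number of `c < T` with `ζ i ≤ -(c+1)` is `max (-ζ i) 0` as `|ζ i| ≤ T`), and
`∑ s, f (ρ s.2.1) = ∑ i, f (ρ i) * max (-ζ i) 0 = ∑ j, f j * max (ζ j) 0` (reindex by `ρ`,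
`ζ (ρ i) = -ζ i`); `max (-x) 0 - max x 0 = -x`. -/
theorem sum_blk {ζ : α → ℤ} {T : ℕ} (hT : ∀ i, |ζ i| ≤ T) {ρ : Equiv.Perm α}
    (hρ : ∀ i, ζ (ρ i) = -ζ i) (f : α → ℝ) :
    ∑ s : Blk ζ T, f s.2.1 - ∑ s : Blk ζ T, f (ρ s.2.1) = -∑ i, (ζ i : ℝ) * f i := by
  rw [DetBlk_sum hT f, DetBlk_sum hT fun i => f (ρ i)]
  have h1 : ∑ i, f (ρ i) * ((max (-ζ i) 0 : ℤ) : ℝ) = ∑ i, f i * ((max (ζ i) 0 : ℤ) : ℝ) := by
    rw [← Equiv.sum_comp ρ fun i => f i * ((max (ζ i) 0 : ℤ) : ℝ)]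
    refine Finset.sum_congr rfl fun i _ => ?_
    rw [hρ]
  rw [h1, ← Finset.sum_sub_distrib, ← Finset.sum_neg_distrib]
  refine Finset.sum_congr rfl fun i _ => ?_
  have h2 : ((max (-ζ i) 0 : ℤ) : ℝ) - ((max (ζ i) 0 : ℤ) : ℝ) = -(ζ i : ℝ) := by
    have := DetBlk_max (ζ i)
    exact_mod_cast this
  rw [← mul_sub, h2]
  ring

/-- Proof: `sum_blk` for `f = ζ`: `∑ s, ζ (ρ s.2.1) = -∑ s, ζ s.2.1`. -/
theorem sum_blk_self {ζ : α → ℤ} {T : ℕ} (hT : ∀ i, |ζ i| ≤ T) {ρ : Equiv.Perm α}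
    (hρ : ∀ i, ζ (ρ i) = -ζ i) : 2 * ∑ s : Blk ζ T, ζ s.2.1 = -∑ i, ζ i ^ 2 := by
  have h := sum_blk hT hρ fun i => (ζ i : ℝ)
  have h1 : ∑ s : Blk ζ T, (ζ (ρ s.2.1) : ℝ) = -∑ s : Blk ζ T, (ζ s.2.1 : ℝ) := by
    rw [← Finset.sum_neg_distrib]
    refine Finset.sum_congr rfl fun s _ => ?_
    rw [hρ]
    push_cast
    ring
  rw [h1] at h
  have h2 : (2 : ℝ) * ∑ s : Blk ζ T, (ζ s.2.1 : ℝ) = -∑ i, (ζ i : ℝ) ^ 2 := by
    have h3 : ∑ i, (ζ i : ℝ) * (ζ i : ℝ) = ∑ i, (ζ i : ℝ) ^ 2 :=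
      Finset.sum_congr rfl fun i _ => by ring
    rw [h3] at h
    linarith
  exact_mod_cast h2

omit [DecidableEq α] in
/-- An injective map `f` from `I = {ζ ≤ -c}` (`c` an integer) to `α` has `∑ ζ (f i) ≥ ∑ ζ i`, with
equality only if `f` maps `I` to itself.

Proof.  Let `L` be the image of `I` (a finset).  `∑_L ζ - ∑_I ζ = ∑_{L \ I} ζ - ∑_{I \ L} ζ`; on `L \ I`
we have `ζ ≥ -c + 1`, on `I \ L` we have `ζ ≤ -c`, and both sets have the same number `x` of elements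
(`Finset.card_sdiff_comm`-type lemma); so the difference is at least `x ≥ 0`, and if it is `≤ 0` then
`x = 0`, `L ⊆ I`. -/
theorem inj_sum_le {ζ : α → ℤ} (c : ℤ) (f : {i : α // ζ i ≤ -c} → α) (hf : Function.Injective f) :
    ∑ i : {i : α // ζ i ≤ -c}, ζ i.1 ≤ ∑ i, ζ (f i) ∧
      (∑ i, ζ (f i) ≤ ∑ i : {i : α // ζ i ≤ -c}, ζ i.1 → ∀ i, ζ (f i) ≤ -c) := by
  classical
  have h1 : ∑ i : {i : α // ζ i ≤ -c}, (ζ i.1 + c) = ∑ a, min (ζ a + c) 0 := by
    have h1a : ∑ a, min (ζ a + c) 0 = ∑ a, if ζ a ≤ -c then ζ a + c else 0 := by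
      refine Finset.sum_congr rfl fun a _ => ?_
      split_ifs with ha <;> omega
    rw [h1a, ← Finset.sum_filter, Finset.sum_subtype (p := fun a => ζ a ≤ -c) _ (by simp)]
  have h2 : ∑ a, min (ζ a + c) 0 ≤ ∑ i, min (ζ (f i) + c) 0 := by
    have h2a : ∑ i, min (ζ (f i) + c) 0 = ∑ a ∈ Finset.univ.image f, min (ζ a + c) 0 :=
      (Finset.sum_image (f := fun a => min (ζ a + c) 0) (g := f) (s := Finset.univ)
        (fun x _ y _ hxy => hf hxy)).symm
    rw [h2a, ← Finset.sum_add_sum_compl (Finset.univ.image f)]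
    have h2b : ∑ a ∈ (Finset.univ.image f)ᶜ, min (ζ a + c) 0 ≤ 0 :=
      Finset.sum_nonpos fun a _ => min_le_right _ _
    linarith
  have h3 : ∑ i, min (ζ (f i) + c) 0 ≤ ∑ i, (ζ (f i) + c) :=
    Finset.sum_le_sum fun i _ => min_le_left _ _
  have h4 : ∑ i : {i : α // ζ i ≤ -c}, (ζ i.1 + c) =
      ∑ i : {i : α // ζ i ≤ -c}, ζ i.1 + ∑ i : {i : α // ζ i ≤ -c}, c := Finset.sum_add_distrib
  have h5 : ∑ i, (ζ (f i) + c) =
      ∑ i, ζ (f i) + ∑ i : {i : α // ζ i ≤ -c}, c := Finset.sum_add_distrib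
  refine ⟨by linarith, fun hle i => ?_⟩
  have h6 : ∑ i, (ζ (f i) + c - min (ζ (f i) + c) 0) = 0 := by
    rw [Finset.sum_sub_distrib]
    linarith
  have h7 := (Finset.sum_eq_zero_iff_of_nonneg (fun i _ => sub_nonneg.mpr (min_le_left _ _))).mp h6 i
    (Finset.mem_univ i)
  omega

/-- Words of smallest weight which are injective on the blocks.

Proof.  `∑ x, ζ (q x) = ∑ (c, j), ∑ i, ζ (q (⟨c, i⟩, j))` (`Fintype.sum_prod_type`, `Fintype.sum_sigma`).
By `inj_sum_le` (first part) each of the terms is at least `∑ i, ζ i`; by `hle` all are equal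
(`Finset.sum_le_sum` and `Finset.sum_eq_sum_iff_of_le`), so by the second part
`ζ (q x) ≤ -(x.1.1 + 1)` for all `x`.  Put `σ x = (⟨x.1.1, ⟨q x, _⟩⟩, x.2)`; this map is injective by
`hinj`, hence a permutation (`Finite.injective_iff_bijective`, `Equiv.ofBijective`). -/
theorem blk_comb {ζ : α → ℤ} {T m : ℕ} (q : Blk ζ T × Fin m → α)
    (hinj : ∀ x y, x.1.1 = y.1.1 → x.2 = y.2 → q x = q y → x = y)
    (hle : ∑ x, ζ (q x) ≤ ∑ x : Blk ζ T × Fin m, ζ x.1.2.1) :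
    ∃ σ : Equiv.Perm (Blk ζ T × Fin m), (∀ x, ((σ x).1.1, (σ x).2) = (x.1.1, x.2)) ∧
      ∀ x, q x = (σ x).1.2.1 := by
  have hi : ∀ (j : Fin m) (c : Fin T), Function.Injective
      (fun i : {i : α // ζ i ≤ -(((c : ℕ) : ℤ) + 1)} => q (⟨c, i⟩, j)) := by
    intro j c a b hab
    have h1 := hinj (⟨c, a⟩, j) (⟨c, b⟩, j) rfl rfl hab
    have h2 := congrArg Prod.fst h1
    simpa using h2
  have hA := fun (j : Fin m) (c : Fin T) => inj_sum_le (((c : ℕ) : ℤ) + 1)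
    (fun i : {i : α // ζ i ≤ -(((c : ℕ) : ℤ) + 1)} => q (⟨c, i⟩, j)) (hi j c)
  have hsum : ∀ F : Blk ζ T × Fin m → ℤ, ∑ x, F x = ∑ j : Fin m, ∑ c : Fin T,
      ∑ i : {i : α // ζ i ≤ -(((c : ℕ) : ℤ) + 1)}, F (⟨c, i⟩, j) := by
    intro F
    rw [Fintype.sum_prod_type_right]
    refine Finset.sum_congr rfl fun j _ => ?_
    rw [Fintype.sum_sigma]
  rw [hsum, hsum] at hle
  have hz : ∑ j : Fin m, ∑ c : Fin T,
      (∑ i : {i : α // ζ i ≤ -(((c : ℕ) : ℤ) + 1)}, ζ (q (⟨c, i⟩, j)) -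
        ∑ i : {i : α // ζ i ≤ -(((c : ℕ) : ℤ) + 1)}, ζ i.1) ≤ 0 := by
    simp only [Finset.sum_sub_distrib]
    linarith
  have hnn : ∀ (j : Fin m) (c : Fin T), 0 ≤
      (∑ i : {i : α // ζ i ≤ -(((c : ℕ) : ℤ) + 1)}, ζ (q (⟨c, i⟩, j)) -
        ∑ i : {i : α // ζ i ≤ -(((c : ℕ) : ℤ) + 1)}, ζ i.1) := fun j c =>
    sub_nonneg.mpr (hA j c).1
  have hz2 := le_antisymm hz (Finset.sum_nonneg fun j _ => Finset.sum_nonneg fun c _ => hnn j c)
  have hq : ∀ x : Blk ζ T × Fin m, ζ (q x) ≤ -(((x.1.1 : ℕ) : ℤ) + 1) := by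
    rintro ⟨⟨c, i⟩, j⟩
    have h1 := (Finset.sum_eq_zero_iff_of_nonneg
      (fun j _ => Finset.sum_nonneg fun c _ => hnn j c)).mp hz2 j (Finset.mem_univ j)
    have h2 := (Finset.sum_eq_zero_iff_of_nonneg (fun c _ => hnn j c)).mp h1 c (Finset.mem_univ c)
    exact (hA j c).2 (by linarith) i
  have hσ : Function.Injective (fun x : Blk ζ T × Fin m =>
      ((⟨x.1.1, ⟨q x, hq x⟩⟩, x.2) : Blk ζ T × Fin m)) := by
    intro x y hxy
    have h2 := congrArg Prod.snd hxy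
    have h3 := congrArg (fun s : Blk ζ T × Fin m => s.1.1) hxy
    have h4 := congrArg (fun s : Blk ζ T × Fin m => s.1.2.1) hxy
    exact hinj x y h3 h2 h4
  refine ⟨Equiv.ofBijective _ (Finite.injective_iff_bijective.mp hσ), fun x => ?_, fun x => ?_⟩
  · rfl
  · rfl

/-- The product of the determinants of `m` copies.

Proof: `Matrix.det_blockDiagonal` for the matrices
`M j = Matrix.of fun s s' => if s.1 = s'.1 then h (p (s, j)) s'.2.1 else 0`; the entries of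
`Matrix.blockDiagonal M` are those of the matrix on the right hand side. -/
theorem prod_eps (h : Matrix α α K) (ζ : α → ℤ) (T m : ℕ) (p : Blk ζ T × Fin m → α) :
    ∏ j, eps h ζ T (fun s => p (s, j)) = (Matrix.of fun x x' : Blk ζ T × Fin m =>
      if (x.1.1, x.2) = (x'.1.1, x'.2) then h (p x) x'.1.2.1 else 0).det := by
  have h1 := Matrix.det_blockDiagonal (fun j : Fin m => Matrix.of fun s s' : Blk ζ T =>
    if s.1 = s'.1 then h (p (s, j)) s'.2.1 else 0)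
  have h2 : (Matrix.of fun x x' : Blk ζ T × Fin m =>
      if (x.1.1, x.2) = (x'.1.1, x'.2) then h (p x) x'.1.2.1 else 0) =
      Matrix.blockDiagonal (fun j : Fin m => Matrix.of fun s s' : Blk ζ T =>
        if s.1 = s'.1 then h (p (s, j)) s'.2.1 else 0) := by
    ext x x'
    rw [Matrix.blockDiagonal_apply]
    simp only [Matrix.of_apply, Prod.mk.injEq]
    by_cases hc : x.1.1 = x'.1.1 <;> by_cases hj : x.2 = x'.2
    · rw [if_pos ⟨hc, hj⟩, if_pos hj, if_pos hc]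
    · rw [if_neg (fun hh => hj hh.2), if_neg hj]
    · rw [if_neg (fun hh => hc hh.1), if_pos hj, if_neg hc]
    · rw [if_neg (fun hh => hc hh.1), if_neg hj]
  rw [h2, h1]
  rfl

end T2F
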