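import Pool.Agent.W_f569db_t2.FlatI
import Pool.Agent.W_f569db_t2.DetBlk
import Pool.Agent.W_f569db_h13.Canon

set_option autoImplicit false

noncomputable section

namespace T2F

open AlgebraicGeometry CategoryTheory MonoidalCategory
open scoped TensorProduct DirectSum
open Pool.Agent.WeilH_h6 Pool.Agent.WeilH_h6.VarClass Pool.Agent.WeilH_h6.Weil H13F

universe u v w

variable {k : Type u} [Field k] {𝒱 : VarClass k} {K : Type v} [Field K] {W : Weil.{u, v, w} 𝒱 K}

variable {X : 𝒱.Obj} {α : Type} [Fintype α] [DecidableEq α] {b b' : α → W.H X}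

/-- The pairing of `eps` with a family of elements of `H(X)`.

Proof.  Expand both determinants by `Matrix.det_apply'`; `∑ c, (∑ σ, sign σ * ∏ x, (if (σ x).1 = x.1 then
h (c (σ x)) x.2.1 else 0)) * ∏ x, tr (b (c x) * v x)`: exchange the sums, reindex the second product by `σ`,
and use `Finset.prod_univ_sum` (`Fintype.piFinset_univ`) to see that the sum over `c` is
`∏ x, ∑ q, (if (σ x).1 = x.1 then h q x.2.1 else 0) * tr (b q * v (σ x))`
(after the reindexing `c ↦ c ∘ σ`), and `∑ q, h q i * tr (b q * u) = tr (colB b h i * u)`. -/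
theorem flatI_eps (h : Matrix α α K) (ζ : α → ℤ) (T : ℕ) (v : Blk ζ T → W.H X) :
    flatI W b (eps h ζ T) v = (Matrix.of fun s s' : Blk ζ T =>
      if s.1 = s'.1 then W.tr X (colB b h s'.2.1 * v s) else 0).det := by
  unfold flatI eps
  have h1 : (Matrix.of fun s s' : Blk ζ T =>
      if s.1 = s'.1 then W.tr X (colB b h s'.2.1 * v s) else 0) =
      (fun s => ∑ q : α, W.tr X (b q * v s) •
        (fun s' : Blk ζ T => if s.1 = s'.1 then h q s'.2.1 else 0)) := by
    funext s s'
    rw [Finset.sum_apply]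
    simp only [Pi.smul_apply, smul_eq_mul, Matrix.of_apply]
    by_cases hs : s.1 = s'.1
    · simp only [if_pos hs]
      unfold colB
      rw [Finset.sum_mul, map_sum]
      refine Finset.sum_congr rfl fun i _ => ?_
      rw [smul_mul_assoc, map_smul, smul_eq_mul, mul_comm]
    · simp only [if_neg hs, mul_zero, Finset.sum_const_zero]
  have h2 : ∀ N : Matrix (Blk ζ T) (Blk ζ T) K, N.det =
      (Matrix.detRowAlternating (n := Blk ζ T) (R := K)).toMultilinearMap N := fun N => rfl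
  rw [h1, h2, MultilinearMap.map_sum]
  refine Finset.sum_congr rfl fun c _ => ?_
  rw [MultilinearMap.map_smul_univ, smul_eq_mul, mul_comm]
  rfl

omit [Fintype α] [DecidableEq α] in
private theorem EpsFlat_le {ξ : α → ℝ} {D : ℕ} {ζ : α → ℤ}
    (hζ : ∀ i, (ζ i : ℝ) = D * ξ i) {i j : α} (h : ξ i ≤ ξ j) : ζ i ≤ ζ j := by
  have h1 : (ζ i : ℝ) ≤ ζ j := by
    rw [hζ, hζ]
    exact mul_le_mul_of_nonneg_left h (Nat.cast_nonneg _)
  exact_mod_cast h1

private theorem EpsFlat_unit_det (u : (Matrix α α K)ˣ) : (u : Matrix α α K).det ≠ 0 := by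
  have h1 : (u : Matrix α α K).det * ((u⁻¹ : (Matrix α α K)ˣ) : Matrix α α K).det = 1 := by
    rw [← Matrix.det_mul, Units.mul_inv, Matrix.det_one]
  exact left_ne_zero_of_mul (h1 ▸ one_ne_zero)

private theorem EpsFlat_det_perm {N : Matrix α α K} (σ : Equiv.Perm α) (hN : N.det ≠ 0) :
    (Matrix.of fun i' i => N (σ i') i).det ≠ 0 := by
  have h1 : (Matrix.of fun i' i => N (σ i') i).det = ((Equiv.Perm.sign σ : ℤ) : K) * N.det :=
    Matrix.det_permute σ N
  rw [h1]
  refine mul_ne_zero ?_ hN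
  rcases Int.units_eq_one_or (Equiv.Perm.sign σ) with h | h <;> simp [h]

private theorem EpsFlat_gram (hd : ∀ i j, W.tr X (b i * b' j) = if i = j then 1 else 0)
    (hb : ∀ x, x ∈ Submodule.span K (Set.range b)) (h g : (Matrix α α K)ˣ) :
    (Matrix.of fun j i => W.tr X (colB b (h : Matrix α α K) i *
      colB b (g : Matrix α α K) j)).det ≠ 0 := by
  intro h0
  obtain ⟨x, hx, hx0⟩ := Matrix.exists_mulVec_eq_zero_iff.2 h0
  apply hx
  have h1 : ∀ j, W.tr X ((∑ i, x i • colB b (h : Matrix α α K) i) *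
      colB b (g : Matrix α α K) j) = 0 := by
    intro j
    have h2 := congrFun hx0 j
    rw [Matrix.mulVec, dotProduct] at h2
    rw [Finset.sum_mul, map_sum]
    refine Eq.trans (Finset.sum_congr rfl fun i _ => ?_) h2
    rw [smul_mul_assoc, map_smul, smul_eq_mul, mul_comm]
    rfl
  have h3 : (∑ i, x i • colB b (h : Matrix α α K) i) = 0 := by
    apply (W.pd X).injective
    rw [map_zero]
    refine LinearMap.ext fun z => ?_
    rw [W.pd_apply, LinearMap.zero_apply, exp_col hd hb g z, Finset.mul_sum, map_sum]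
    refine Finset.sum_eq_zero fun j _ => ?_
    rw [mul_smul_comm, map_smul, h1, smul_zero]
  funext j
  have h4 : W.tr X ((∑ i, x i • colB b (h : Matrix α α K) i) *
      rowB b' ((h⁻¹ : (Matrix α α K)ˣ) : Matrix α α K) j) = x j := by
    rw [Finset.sum_mul, map_sum, Finset.sum_eq_single j]
    · rw [smul_mul_assoc, map_smul, tr_col_row hd, Units.inv_mul, Matrix.one_apply_eq, smul_eq_mul,
        mul_one]
    · intro i _ hi
      rw [smul_mul_assoc, map_smul, tr_col_row hd, Units.inv_mul, Matrix.one_apply_ne (Ne.symm hi),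
        smul_zero]
    · intro h; exact absurd (Finset.mem_univ _) h
  rw [← h4, h3, zero_mul, map_zero]
  rfl

/-- The row part.  Here `g` is an adapted basis with weights `η`, `η j = ξ (τ j)`.

Proof.  By `flatI_eps` and `tr_col_row hd` this is the determinant of `det_blk_ne_zero` for the matrix
`M i' i = (g⁻¹ * h) (τ.symm i') i`: it is invertible (a row permutation of the invertible matrix
`g⁻¹ * h`; `Matrix.det_permute` or `Matrix.det_submatrix_...`), and `M i' i ≠ 0` implies
`ξ i ≤ η (τ.symm i') = ξ i'` (this is `Same g η h ξ`, first half), i.e. `ζ i ≤ ζ i'`. -/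
theorem eps_row_ne {h g : (Matrix α α K)ˣ} {ξ η : α → ℝ}
    (hd : ∀ i j, W.tr X (b i * b' j) = if i = j then 1 else 0) (hs : H69.Same g η h ξ)
    {D : ℕ} (hD : 0 < D) {ζ : α → ℤ} (hζ : ∀ i, (ζ i : ℝ) = D * ξ i) (T : ℕ) {τ : Equiv.Perm α}
    (hτ : ∀ j, η j = ξ (τ j)) :
    flatI W b (eps (h : Matrix α α K) ζ T) (fun s =>
      rowB b' ((g⁻¹ : (Matrix α α K)ˣ) : Matrix α α K) (τ.symm s.2.1)) ≠ 0 := by
  rw [flatI_eps]
  simp only [tr_col_row hd]
  refine det_blk_ne_zero (M := Matrix.of fun i' i =>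
    (((g⁻¹ : (Matrix α α K)ˣ) : Matrix α α K) * (h : Matrix α α K)) (τ.symm i') i) ?_ T ?_
  · exact EpsFlat_det_perm τ.symm (EpsFlat_unit_det (g⁻¹ * h))
  · intro i' i hi
    have h1 : ξ i ≤ η (τ.symm i') := by
      refine hs.1 (τ.symm i') i ?_
      rw [Units.val_mul]
      exact hi
    rw [hτ, Equiv.apply_symm_apply] at h1
    exact EpsFlat_le hζ h1

/-- The column part.

Proof.  By `flatI_eps` this is the determinant of `det_blk_ne_zero` for
`M i' i = tr (colB b h i * colB b g (τ.symm (ρ i')))`.  `M.det ≠ 0`: up to a permutation of the rows `M` is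
the Gram matrix of the two bases `colB b h`, `colB b g`: if `∑ i, M i' i * x i = 0` for all `i'` then
`y = ∑ x i • colB b h i` is orthogonal to all `colB b g j`, so `y = 0` (they generate, `hb`;
nondegeneracy), so `x = 0` (`tr_col_row`).  If `M i' i ≠ 0`, put `j = τ.symm (ρ i')`; then
`η j = ξ (ρ i') = -ξ i'`, and `colB b g j ∈ B.Fil (η j)` since
`tr (colB b g j * B.v' i) = (h⁻¹ * g) i j ≠ 0` implies `η j ≤ ξ i` (second half of `Same`), so by
`B.tr_end_eq_zero hn (W.id_mem_algHom X)` and `B.v_mem`: `ξ i + η j ≤ 0`, i.e. `ξ i ≤ ξ i'`. -/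
theorem eps_col_ne [CharZero K] {hpar : W.par X ∈ W.algHom X X} {n : ℕ} (hn : 2 ≤ n)
    (B : NWB (W := W) (X := X) hpar n α) {h g : (Matrix α α K)ˣ} {η : α → ℝ}
    (hd : ∀ i j, W.tr X (b i * b' j) = if i = j then 1 else 0)
    (hb : ∀ x, x ∈ Submodule.span K (Set.range b))
    (hv : B.v = colB b (h : Matrix α α K))
    (hv' : B.v' = rowB b' ((h⁻¹ : (Matrix α α K)ˣ) : Matrix α α K)) (hs : H69.Same g η h B.ξ)
    {D : ℕ} (hD : 0 < D) {ζ : α → ℤ} (hζ : ∀ i, (ζ i : ℝ) = D * B.ξ i) (T : ℕ) {τ ρ : Equiv.Perm α}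
    (hτ : ∀ j, η j = B.ξ (τ j)) (hρ : ∀ i, ζ (ρ i) = -ζ i) :
    flatI W b (eps (h : Matrix α α K) ζ T) (fun s =>
      colB b (g : Matrix α α K) (τ.symm (ρ s.2.1))) ≠ 0 := by
  rw [flatI_eps]
  refine det_blk_ne_zero (M := Matrix.of fun i' i =>
    (Matrix.of fun j i => W.tr X (colB b (h : Matrix α α K) i * colB b (g : Matrix α α K) j))
      (τ.symm (ρ i')) i) ?_ T ?_
  · exact EpsFlat_det_perm (ρ.trans τ.symm) (EpsFlat_gram hd hb h g)
  · intro i' i hi
    have h0 : W.tr X (colB b (h : Matrix α α K) i *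
        colB b (g : Matrix α α K) (τ.symm (ρ i'))) ≠ 0 := hi
    have h1 : colB b (g : Matrix α α K) (τ.symm (ρ i')) ∈ B.Fil (η (τ.symm (ρ i'))) := by
      intro q hq
      rw [hv', tr_col_row hd]
      by_contra h2
      have h3 : η (τ.symm (ρ i')) ≤ B.ξ q := by
        refine hs.2 q _ ?_
        rw [Units.val_mul]
        exact h2
      exact absurd hq (not_lt.2 h3)
    have h2 : colB b (h : Matrix α α K) i ∈ B.Fil (B.ξ i) := by
      rw [← hv]
      exact B.v_mem i
    have h3 : B.ξ i + η (τ.symm (ρ i')) ≤ 0 := by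
      by_contra h4
      exact h0 (B.tr_end_eq_zero hn (W.id_mem_algHom X) h2 h1 (not_le.1 h4))
    rw [hτ, Equiv.apply_symm_apply] at h3
    refine EpsFlat_le hζ ?_
    have h4 : (D : ℝ) * B.ξ (ρ i') = -((D : ℝ) * B.ξ i') := by
      rw [← hζ, ← hζ, hρ]
      push_cast
      ring
    have hD' : (0 : ℝ) < D := by exact_mod_cast hD
    have h5 : B.ξ (ρ i') = -B.ξ i' := by
      have h6 : (D : ℝ) * (B.ξ (ρ i') + B.ξ i') = 0 := by
        rw [mul_add, h4]; ring
      rcases mul_eq_zero.1 h6 with h7 | h7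
      · exact absurd h7 hD'.ne'
      · linarith
    linarith

end T2F
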