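import Pool.Agent.W_f569db_t2.Coef
import Pool.Agent.W_f569db_t2.EpsFlat
import Pool.Agent.W_f569db_t2.Active
import Pool.Agent.W_f569db_t2.NegPerm

set_option autoImplicit false

noncomputable section

namespace T2F

open AlgebraicGeometry CategoryTheory MonoidalCategory
open scoped TensorProduct DirectSum
open Pool.Agent.WeilH_h6 Pool.Agent.WeilH_h6.VarClass Pool.Agent.WeilH_h6.Weil H13F

universe u v w

variable {k : Type u} [Field k] {𝒱 : VarClass k} {K : Type v} [Field K] {W : Weil.{u, v, w} 𝒱 K}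

variable [CharZero K] {X : 𝒱.Obj} {hpar : W.par X ∈ W.algHom X X} {n r₀ : ℕ} {α : Type} [Fintype α]
  [DecidableEq α] {b b' : α → W.H X}

/-- The family built from the minimal weighted basis `(h, ξ)` is not destabilised by any weighted
basis.

Proof.  Let `(h', ξ')` be a weighted basis with `PosS` for `famT`.  By `H69.common_basis (H69.c0 α)
(H69.mem_BG_c0 h) (H69.mem_BG_c0 h') ξ ξ'` there are `g`, `η`, `η'` with `Same g η h ξ`, `Same g η' h' ξ'`;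
by `PosS.of_same` the pair `(g, η)` has `PosS` for `famX`, `famZ` and `(g, η')` has `PosS` for `famT`.
`η j = ξ (τ j)` for a permutation `τ` (`H69.Same.exists_perm`), so `∑ η ^ 2 = ∑ ξ ^ 2` is minimal
(`hmin`).  `exists_active` with `pos_level` gives a distinguished member `p` and words `a`, `a'` with a nonzero
coefficient and `s * ∑ ξ ^ 2 ≤ ∑ η * η'`, `s = wt η' a a'`.  Let `ρ` be the permutation of
`exists_neg_perm` (`ζ (ρ i) = -ζ i`).  `pos_dist` with `c s = τ.symm s.2.1`, `c' s = τ.symm (ρ s.2.1)`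
(`eps_row_ne`, `eps_col_ne`) and `sum_blk` for `f i = η' (τ.symm i)` give
`1 ≤ r₀ * s - ∑ i, ζ i * η' (τ.symm i) = r₀ * s - D * ∑ j, η j * η' j ≤ r₀ * s - D * s * ∑ ξ ^ 2 = 0`,
a contradiction. -/
theorem not_pos (hn : 2 ≤ n) (hd : ∀ i j, W.tr X (b i * b' j) = if i = j then 1 else 0)
    (hb : ∀ x, x ∈ Submodule.span K (Set.range b)) (B : NWB (W := W) (X := X) hpar n α)
    {h : (Matrix α α K)ˣ} (hv : B.v = colB b (h : Matrix α α K))
    (hv' : B.v' = rowB b' ((h⁻¹ : (Matrix α α K)ˣ) : Matrix α α K))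
    (hP : PosS (Set.range (famX (W := W) b n)) (famX b n '' famZ b n) h B.ξ)
    (hmin : ∀ (g' : (Matrix α α K)ˣ) (ξ' : α → ℝ),
      PosS (Set.range (famX (W := W) b n)) (famX b n '' famZ b n) g' ξ' →
        ∑ r, B.ξ r ^ 2 ≤ ∑ r, ξ' r ^ 2)
    (hne : ∃ p ∈ famZ (W := W) b n, famX b n p ≠ 0)
    {D : ℕ} (hD : 0 < D) {ζ : α → ℤ} (hζ : ∀ i, (ζ i : ℝ) = D * B.ξ i) (hr₀ : 0 < r₀)
    (hr : (r₀ : ℝ) = D * ∑ i, B.ξ i ^ 2) {T : ℕ} (hT : ∀ i, |ζ i| ≤ T) {pt : W.H X}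
    (hpt : pt ∈ W.algSpan X) (hpt1 : W.tr X pt = 1) :
    ¬ ∃ (h' : (Matrix α α K)ˣ) (ξ' : α → ℝ), PosS
      (Set.range (famT (W := W) (b := b) (n := n) (r₀ := r₀) (prA W b' fun _ => 1)
        (prA W b' fun _ => pt) (eps (h : Matrix α α K) ζ T)))
      (famT (W := W) (b := b) (n := n) (r₀ := r₀) (prA W b' fun _ => 1) (prA W b' fun _ => pt)
        (eps (h : Matrix α α K) ζ T) '' Set.range Sum.inr) h' ξ' := by
  rintro ⟨h', ξ', hP'⟩
  obtain ⟨g, -, η, η', s1, s2⟩ := H69.common_basis (c0 α) (mem_BG_c0 h) (mem_BG_c0 h') B.ξ ξ'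
  have p1 := hP.of_same s1.symm
  have p2 := hP'.of_same s2.symm
  obtain ⟨τ, hτ⟩ := s1.symm.exists_perm
  have hsum : ∑ r, η r ^ 2 = ∑ r, B.ξ r ^ 2 := by
    simp only [hτ]
    exact Equiv.sum_comp τ (fun r => B.ξ r ^ 2)
  obtain ⟨q, hq, hq0⟩ := hne
  obtain ⟨x, hx, a, a', hxa, hle⟩ := exists_active p1
    (fun ξ'' h'' => by rw [hsum]; exact hmin g ξ'' h'') η'
    (by
      rintro x ⟨p, rfl⟩ a a' haa
      exact pos_level hpar hd hb hpt hpt1 hr₀ p2 p a a' haa)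
    ⟨famX b n q, Set.mem_image_of_mem _ hq, hq0⟩
  obtain ⟨p, hp, rfl⟩ := hx
  obtain ⟨ρ, hρ'⟩ := exists_neg_perm B hn
  have hρ : ∀ i, ζ (ρ i) = -ζ i := by
    intro i
    have h1 : ((ζ (ρ i) : ℤ) : ℝ) = ((-ζ i : ℤ) : ℝ) := by
      rw [hζ, hρ', Int.cast_neg, hζ, mul_neg]
    exact_mod_cast h1
  have h1 := pos_dist hd p2 ⟨p, hp⟩ a a' hxa (fun s : Blk ζ T => τ.symm s.2.1)
    (fun s : Blk ζ T => τ.symm (ρ s.2.1)) (eps_row_ne hd s1 hD hζ T hτ)
    (eps_col_ne hn B hd hb hv hv' s1 hD hζ T hτ hρ)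
  have h2 := sum_blk hT hρ (fun i => η' (τ.symm i))
  have h3 : ∑ i, (ζ i : ℝ) * η' (τ.symm i) = D * ∑ j, η j * η' j := by
    rw [← Equiv.sum_comp τ, Finset.mul_sum]
    refine Finset.sum_congr rfl fun j _ => ?_
    rw [Equiv.symm_apply_apply, hζ, ← hτ, mul_assoc]
  rw [h2, h3] at h1
  have hDr : (0 : ℝ) < D := by exact_mod_cast hD
  have h4 := mul_le_mul_of_nonneg_left hle hDr.le
  rw [hsum] at h4
  rw [hr] at h1
  linarith [h1, h4, (by ring : (D : ℝ) * (wt η' a a' * ∑ r, B.ξ r ^ 2) =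
    D * (∑ r, B.ξ r ^ 2) * wt η' a a')]

end T2F
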