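import Pool.Agent.W_f569db_t2.FlatI

set_option autoImplicit false

noncomputable section

namespace T2F

open AlgebraicGeometry CategoryTheory MonoidalCategory
open scoped TensorProduct DirectSum
open Pool.Agent.WeilH_h6 Pool.Agent.WeilH_h6.VarClass Pool.Agent.WeilH_h6.Weil H13F

universe u v w

variable {k : Type u} [Field k] {𝒱 : VarClass k} {K : Type v} [Field K] {W : Weil.{u, v, w} 𝒱 K}

variable [CharZero K] {X : 𝒱.Obj} {hpar : W.par X ∈ W.algHom X X} {n : ℕ} {α : Type} [Fintype α]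
  (B : NWB (W := W) (X := X) hpar n α) {b b' : α → W.H X}

/-- Proof: `flatI_prA`; if `0 < ∑ t` then `0 < t i` for some `i`; `x i ∈ B.Fil 0` by `B.alg_mem` and
`B.tr_end_eq_zero hn (W.id_mem_algHom X)`, so this factor is zero. -/
theorem WtA.prA (hn : 2 ≤ n) (hx : ∀ x, x = ∑ j, W.tr X (x * b' j) • b j) {ι : Type} [Fintype ι]
    [DecidableEq ι] {x : ι → W.H X} (h : ∀ i, x i ∈ W.algSpan X) : WtA B b (prA W b' x) 0 := by
  intro t u hu ht
  rw [neg_zero] at ht
  rw [flatI_prA hx x u]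
  obtain ⟨i, hi, hti⟩ : ∃ i ∈ (Finset.univ : Finset ι), 0 < t i := by
    by_contra hcon
    push Not at hcon
    exact absurd ht (not_lt.2 (Finset.sum_nonpos hcon))
  refine Finset.prod_eq_zero hi ?_
  have h1 := B.tr_end_eq_zero hn (W.id_mem_algHom X) (B.alg_mem (by omega) (h i)) (hu i)
    (by linarith)
  rwa [LinearMap.id_apply] at h1

end T2F
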