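import Pool.Agent.W_f569db_t2.ExA
import Pool.Agent.W_f569db_t2.NotPos
import Pool.Agent.W_f569db_t2.AltMain
import Pool.Agent.W_f569db_t2.NeFam
import Pool.Agent.W_f569db_t2.WtPrA

set_option autoImplicit false

noncomputable section

namespace T2F

open AlgebraicGeometry CategoryTheory MonoidalCategory
open scoped TensorProduct DirectSum
open Pool.Agent.WeilH_h6 Pool.Agent.WeilH_h6.VarClass Pool.Agent.WeilH_h6.Weil H13F

universe u v w

variable {k : Type u} [Field k] {𝒱 : VarClass k} {K : Type v} [Field K] {W : Weil.{u, v, w} 𝒱 K}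

variable [CharZero K] {X : 𝒱.Obj} {hpar : W.par X ∈ W.algHom X X} {n : ℕ} {α : Type} [Fintype α]
  [DecidableEq α] {b b' : α → W.H X}

omit [CharZero K] in
theorem DetMain_exp (hd : ∀ i j, W.tr X (b i * b' j) = if i = j then 1 else 0)
    (hb : ∀ x, x ∈ Submodule.span K (Set.range b)) (x : W.H X) :
    x = ∑ j, W.tr X (x * b' j) • b j := by
  obtain ⟨c, hc⟩ := (Submodule.mem_span_range_iff_exists_fun K).mp (hb x)
  have h1 : ∀ j, W.tr X (x * b' j) = c j := by
    intro j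
    rw [← hc, Finset.sum_mul, map_sum, Finset.sum_eq_single j]
    · rw [smul_mul_assoc, map_smul, hd, if_pos rfl, smul_eq_mul, mul_one]
    · intro i _ hij
      rw [smul_mul_assoc, map_smul, hd, if_neg hij, smul_zero]
    · intro h
      exact absurd (Finset.mem_univ _) h
  conv_lhs => rw [← hc]
  exact Finset.sum_congr rfl fun j _ => by rw [h1 j]

omit [CharZero K] in
theorem DetMain_cj_ne {ι : Type} [Fintype ι] [DecidableEq ι] (h : (Matrix α α K)ˣ)
    {x : Matrix (ι → α) (ι → α) K} (hx : x ≠ 0) : H69.cj h⁻¹ x ≠ 0 := by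
  intro h0
  apply hx
  rw [H69.kempfA_cj_inv] at h0
  have h1 := H69.ten_mul_inv (ι := ι) h
  calc x = (H69.ten ι (h : Matrix α α K) * H69.ten ι ((h⁻¹ : (Matrix α α K)ˣ) : Matrix α α K)) * x *
        (H69.ten ι (h : Matrix α α K) * H69.ten ι ((h⁻¹ : (Matrix α α K)ˣ) : Matrix α α K)) := by
        rw [h1, one_mul, mul_one]
    _ = H69.ten ι (h : Matrix α α K) *
        (H69.ten ι ((h⁻¹ : (Matrix α α K)ˣ) : Matrix α α K) * x * H69.ten ι (h : Matrix α α K)) *
        H69.ten ι ((h⁻¹ : (Matrix α α K)ˣ) : Matrix α α K) := by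
        simp only [mul_assoc]
    _ = 0 := by rw [h0, mul_zero, zero_mul]

/-- The determinant class of the canonical filtration is algebraic and numerically trivial.

Proof.  `exists_pt W X` gives `pt`.  `0 < r₀`: otherwise `B.ξ = 0` (`hr`, `0 < D`) and `hP.2` gives
`1 ≤ wt 0 = 0` for a nonzero coefficient of a distinguished member (`exists_fam_ne`;
`H69.cj h⁻¹ x ≠ 0` for `x ≠ 0`).  `exists_neg_perm B hn` gives `ρ`, with `ζ (ρ i) = -ζ i`.
`not_pos` and `exists_A` (with `P = Blk ζ T`, `o = prA W b' (fun _ => 1)`, `o' = prA W b' (fun _ => pt)`,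
`e = eps h ζ T`; `AlgA.prA`, `WtA.prA`, `hx` from `exp_col hd hb 1` or `hb`) give `A`, and
`altI_nt` the result, with `m = 2 * N`. -/
theorem det_main (hn : 2 ≤ n) (hd : ∀ i j, W.tr X (b i * b' j) = if i = j then 1 else 0)
    (hb : ∀ x, x ∈ Submodule.span K (Set.range b)) (B : NWB (W := W) (X := X) hpar n α)
    {h : (Matrix α α K)ˣ} (hv : B.v = colB b (h : Matrix α α K))
    (hv' : B.v' = rowB b' ((h⁻¹ : (Matrix α α K)ˣ) : Matrix α α K))
    (hP : PosS (Set.range (famX (W := W) b n)) (famX b n '' famZ b n) h B.ξ)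
    (hmin : ∀ (g' : (Matrix α α K)ˣ) (ξ' : α → ℝ),
      PosS (Set.range (famX (W := W) b n)) (famX b n '' famZ b n) g' ξ' →
        ∑ r, B.ξ r ^ 2 ≤ ∑ r, ξ' r ^ 2)
    (hne : ∃ m ≤ n, ∃ a : W.H (X.pow m), W.NT a ∧ a ≠ 0)
    {D : ℕ} (hD : 0 < D) {ζ : α → ℤ} (hζ : ∀ i, (ζ i : ℝ) = D * B.ξ i) {r₀ : ℕ}
    (hr : (r₀ : ℝ) = D * ∑ i, B.ξ i ^ 2) {T : ℕ} (hT : ∀ i, |ζ i| ≤ T) :
    ∃ m : ℕ, 0 < m ∧ W.NT (altI W (fun x : Blk ζ T × Fin m => W.par X (B.v' x.1.2.1))
      fun x => (x.1.1, x.2)) := by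
  obtain ⟨pt, hpt, hpt1⟩ := exists_pt W X
  have hfam := exists_fam_ne hpar hd hb hne
  have hr₀ : 0 < r₀ := by
    rcases Nat.eq_zero_or_pos r₀ with h0 | h0
    · exfalso
      rw [h0] at hr
      have hD' : (0 : ℝ) < D := by exact_mod_cast hD
      have hsum : ∑ i, B.ξ i ^ 2 = 0 := by
        have h1 : (D : ℝ) * ∑ i, B.ξ i ^ 2 = 0 := by
          rw [← hr]; simp
        rcases mul_eq_zero.mp h1 with h2 | h2
        · exact absurd h2 hD'.ne'
        · exact h2
      have hξ : ∀ i, B.ξ i = 0 := by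
        intro i
        have h1 := (Finset.sum_eq_zero_iff_of_nonneg (fun i _ => sq_nonneg (B.ξ i))).mp hsum i
          (Finset.mem_univ i)
        exact pow_eq_zero_iff (two_ne_zero) |>.mp h1
      obtain ⟨p, hp, hp0⟩ := hfam
      have hcj := DetMain_cj_ne h hp0
      obtain ⟨a, a', haa⟩ : ∃ a a', H69.cj h⁻¹ (famX b n p) a a' ≠ 0 := by
        by_contra hcon
        push Not at hcon
        exact hcj (Matrix.ext hcon)
      have h1 := hP.2 _ ⟨p, hp, rfl⟩ a a' haa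
      unfold wt at h1
      simp only [hξ, Finset.sum_const_zero, sub_zero] at h1
      linarith
    · exact h0
  obtain ⟨ρ, hρ'⟩ := exists_neg_perm B hn
  have hρ : ∀ i, ζ (ρ i) = -ζ i := by
    intro i
    have h1 : ((ζ (ρ i) : ℤ) : ℝ) = ((-ζ i : ℤ) : ℝ) := by
      push_cast
      rw [hζ, hζ, hρ' i]
      ring
    exact_mod_cast h1
  have hx : ∀ x, x = ∑ j, W.tr X (x * b' j) • b j := DetMain_exp hd hb
  have hnp := not_pos hn hd hb B hv hv' hP hmin hfam hD hζ hr₀ hr hT hpt hpt1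
  obtain ⟨N, hN, A, hA, hw, hneA⟩ := exists_A B hn hb
    (AlgA.prA hx fun _ : Blk ζ T => W.one_mem_algSpan X) (AlgA.prA hx fun _ : Blk ζ T => hpt)
    (WtA.prA B hn hx fun _ : Blk ζ T => W.one_mem_algSpan X)
    (WtA.prA B hn hx fun _ : Blk ζ T => hpt) hr₀ hnp
  exact ⟨2 * N, by omega, altI_nt hd hx B hv hD hζ hr hT hρ hA hw hneA⟩

end T2F
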