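import Pool.Agent.W_f569db_t2.NtFB

set_option autoImplicit false

noncomputable section

namespace T2F

open AlgebraicGeometry CategoryTheory MonoidalCategory
open scoped TensorProduct DirectSum
open Pool.Agent.WeilH_h6 Pool.Agent.WeilH_h6.VarClass Pool.Agent.WeilH_h6.Weil H13F

universe u v w

variable {k : Type u} [Field k] {𝒱 : VarClass k} {K : Type v} [Field K] {W : Weil.{u, v, w} 𝒱 K}

variable [CharZero K] {X : 𝒱.Obj}

private theorem ContrCls_box2_add_left {m m' : ℕ} (a a' : W.H (X.pow m)) (b : W.H (X.pow m')) :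
    W.box2 (a + a') b = W.box2 a b + W.box2 a' b := by
  unfold box2; rw [map_add, add_mul]

private theorem ContrCls_box2_add_right {m m' : ℕ} (a : W.H (X.pow m)) (b b' : W.H (X.pow m')) :
    W.box2 a (b + b') = W.box2 a b + W.box2 a b' := by
  unfold box2; rw [map_add, mul_add]

private theorem ContrCls_box2_smul_left {m m' : ℕ} (c : K) (a : W.H (X.pow m))
    (b : W.H (X.pow m')) : W.box2 (c • a) b = c • W.box2 a b := by
  unfold box2; rw [map_smul, smul_mul_assoc]

private theorem ContrCls_box2_smul_right {m m' : ℕ} (c : K) (a : W.H (X.pow m))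
    (b : W.H (X.pow m')) : W.box2 a (c • b) = c • W.box2 a b := by
  unfold box2; rw [map_smul, mul_smul_comm]

/-- The projectors on `X^(m+M)`.  Proof: on pure tensors (`pure_induction₂`): `box2_pureT`,
`powMap_pureT`, and `Fin.append` of the images. -/
theorem powPr_box2 {m M : ℕ} (π : Fin m → Fin 2) (ρ : Fin M → Fin 2) (a : W.H (X.pow m))
    (c : W.H (X.pow M)) :
    W.powMap (m + M) (fun s => parPr W X (Fin.append π ρ s)) (W.box2 a c) =
      W.box2 (W.powMap m (fun s => parPr W X (π s)) a) (W.powMap M (fun s => parPr W X (ρ s)) c) := by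
  refine pure_induction₂ (W := W) (X := X) (P := fun a c =>
    W.powMap (m + M) (fun s => parPr W X (Fin.append π ρ s)) (W.box2 a c) =
      W.box2 (W.powMap m (fun s => parPr W X (π s)) a) (W.powMap M (fun s => parPr W X (ρ s)) c))
    ?_ ?_ ?_ ?_ ?_ a c
  · intro a a' c h h'
    rw [ContrCls_box2_add_left, map_add, map_add, ContrCls_box2_add_left, h, h']
  · intro a c c' h h'
    rw [ContrCls_box2_add_right, map_add, map_add, ContrCls_box2_add_right, h, h']
  · intro r a c h
    rw [ContrCls_box2_smul_left, map_smul, map_smul, ContrCls_box2_smul_left, h]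
  · intro r a c h
    rw [ContrCls_box2_smul_right, map_smul, map_smul, ContrCls_box2_smul_right, h]
  · intro u v
    rw [box2_pureT, powMap_pureT, powMap_pureT, powMap_pureT, box2_pureT]
    congr 1
    funext s
    refine Fin.addCases (fun i => ?_) (fun i => ?_) s
    · rw [Fin.append_left, Fin.append_left, Fin.append_left]
    · rw [Fin.append_right, Fin.append_right, Fin.append_right]

/-- Partial contraction: for algebraic classes `Θ` on `X^(m+M)` and `C` on `X^m` there is an algebraic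
class `A` on `X^M` which represents `E ↦ ⟨Θ, C ⊠ E⟩` for the unsigned form.

Proof.  Write `P_π` for `W.powMap m (fun s => parPr W X (π s))` and similarly `P_ρ` on `X^M`, and
`ε_π` for the constants of `tr_mul_powPr`.  By `sum_powPr` and `powPr_box2` (the sum over `Fin (m+M) → Fin 2`
is the sum over pairs `(π, ρ)`, `Fin.appendEquiv`)
`⟨Θ, C ⊠ E⟩ = ∑_{π, ρ} ⟨Θ, P_π C ⊠ P_ρ E⟩ = ∑ ε_{(π,ρ)}⁻¹ tr (Θ * pull (P_π C) * pull (P_ρ E))`.
By `W.push_algSpan` for the projection `Obj.sel X (Fin.natAdd m)` and the algebraic class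
`Θ * pull (P_π C)` (`powMap_mem_algHom`, `parPr_mem`, `algHom_apply_mem`, `mul_mem_algSpan`) this is
`∑ ε_{(π,ρ)}⁻¹ tr (A_π * P_ρ E) = ∑ ε_{(π,ρ)}⁻¹ ε_ρ ⟨A_π, P_ρ E⟩ = ⟨∑ ε_{(π,ρ)}⁻¹ ε_ρ P_ρ A_π, E⟩`
by `fB_powPr`.  So `A = ∑ ε_{(π,ρ)}⁻¹ ε_ρ P_ρ A_π`.  If `C` is numerically trivial, then
`⟨A, E⟩ = ⟨Θ, C ⊠ E⟩ = 0` for all algebraic `E` (`fB_nt_right`, `NT.box2`), so `A` is numerically
trivial by `nt_of_fB`. -/
theorem exists_contr_cls (hpar : W.par X ∈ W.algHom X X) {m M : ℕ} {Θ : W.H (X.pow (m + M))}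
    (hΘ : Θ ∈ W.algSpan _) {C : W.H (X.pow m)} (hC : C ∈ W.algSpan _) :
    ∃ A ∈ W.algSpan (X.pow M), (W.NT C → W.NT A) ∧
      ∀ E, fB hpar M A E = fB hpar (m + M) Θ (W.box2 C E) := by
  choose ε hε0 hε using fun τ : Fin (m + M) → Fin 2 => tr_mul_powPr (W := W) hpar τ
  choose δ hδ0 hδ using fun ρ : Fin M → Fin 2 => tr_mul_powPr (W := W) hpar ρ
  have hPC : ∀ π : Fin m → Fin 2, W.powMap m (fun s => parPr W X (π s)) C ∈ W.algSpan (X.pow m) :=
    fun π => W.algHom_apply_mem (W.powMap_mem_algHom fun s => parPr_mem W hpar (π s)) hC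
  choose A hA hA' using fun π : Fin m → Fin 2 =>
    W.push_algSpan (Obj.sel X (Fin.natAdd m) : X.pow (m + M) ⟶ X.pow M)
      (W.mul_mem_algSpan hΘ (W.pull_mem_algSpan (Obj.sel X (Fin.castAdd M)) (hPC π)))
  have hmain : ∀ E : W.H (X.pow M), fB hpar (m + M) Θ (W.box2 C E) =
      ∑ p : (Fin m → Fin 2) × (Fin M → Fin 2), ((ε (Fin.append p.1 p.2))⁻¹ * δ p.2) *
        fB hpar M (W.powMap M (fun s => parPr W X (p.2 s)) (A p.1)) E := by
    intro E
    have h1 : W.box2 C E = ∑ p : (Fin m → Fin 2) × (Fin M → Fin 2),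
        W.powMap (m + M) (fun s => parPr W X (Fin.append p.1 p.2 s)) (W.box2 C E) := by
      conv_lhs => rw [← sum_powPr (W := W) (W.box2 C E)]
      exact ((Fin.appendEquiv m M).sum_comp
        (fun τ : Fin (m + M) → Fin 2 => W.powMap (m + M) (fun s => parPr W X (τ s))
          (W.box2 C E))).symm
    rw [← fBL_apply, h1, map_sum]
    refine Finset.sum_congr rfl fun p _ => ?_
    rw [fBL_apply]
    have h2 := hε (Fin.append p.1 p.2) Θ (W.box2 C E)
    have h3 : fB hpar (m + M) Θ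
        (W.powMap (m + M) (fun s => parPr W X (Fin.append p.1 p.2 s)) (W.box2 C E)) =
        (ε (Fin.append p.1 p.2))⁻¹ * W.tr (X.pow (m + M))
          (Θ * W.powMap (m + M) (fun s => parPr W X (Fin.append p.1 p.2 s)) (W.box2 C E)) := by
      rw [h2, ← mul_assoc, inv_mul_cancel₀ (hε0 _), one_mul]
    rw [h3, powPr_box2]
    have h4 := hA' p.1 (W.powMap M (fun s => parPr W X (p.2 s)) E)
    have h5 := hδ p.2 (A p.1) E
    rw [fB_powPr hpar, mul_assoc, ← h5, h4]
    unfold box2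
    rw [mul_assoc]
  refine ⟨∑ p : (Fin m → Fin 2) × (Fin M → Fin 2), ((ε (Fin.append p.1 p.2))⁻¹ * δ p.2) •
      W.powMap M (fun s => parPr W X (p.2 s)) (A p.1), ?_, ?_, ?_⟩
  · exact Submodule.sum_mem _ fun p _ => Submodule.smul_mem _ _
      (W.algHom_apply_mem (W.powMap_mem_algHom fun s => parPr_mem W hpar (p.2 s)) (hA p.1))
  · intro hNT
    refine nt_of_fB hpar (Submodule.sum_mem _ fun p _ => Submodule.smul_mem _ _
      (W.algHom_apply_mem (W.powMap_mem_algHom fun s => parPr_mem W hpar (p.2 s)) (hA p.1))) ?_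
    intro b hb
    have h1 := fB_nt_right hpar hΘ (NT.box2 W hNT hb)
    rw [hmain] at h1
    rw [← fBL_apply, map_sum, LinearMap.sum_apply]
    rw [← h1]
    refine Finset.sum_congr rfl fun p _ => ?_
    rw [map_smul, LinearMap.smul_apply, fBL_apply, smul_eq_mul]
  · intro E
    rw [hmain, ← fBL_apply, map_sum, LinearMap.sum_apply]
    refine Finset.sum_congr rfl fun p _ => ?_
    rw [map_smul, LinearMap.smul_apply, fBL_apply, smul_eq_mul]

end T2F
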