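import Pool.Agent.W_f569db_t2.Defs

set_option autoImplicit false

noncomputable section

namespace T2F

open AlgebraicGeometry CategoryTheory MonoidalCategory
open scoped TensorProduct DirectSum
open Pool.Agent.WeilH_h6 Pool.Agent.WeilH_h6.VarClass Pool.Agent.WeilH_h6.Weil H13F

universe u v w

variable {k : Type u} [Field k] {𝒱 : VarClass k} {K : Type v} [Field K] {W : Weil.{u, v, w} 𝒱 K}

variable {X : 𝒱.Obj} {α : Type} [Fintype α] {b : α → W.H X}

/-- Proof: linearity of `fB` (`fBL`), `fB_pureT`, and `Fintype.prod_equiv (Fintype.equivFin ι)`;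
compare `fB_cls`. -/
theorem fB_clsI [CharZero K] (hpar : W.par X ∈ W.algHom X X) {ι : Type} [Fintype ι] [DecidableEq ι]
    (y : (ι → α) → K) (v : ι → W.H X) :
    fB hpar (Fintype.card ι) (clsI W b y) (pureI W v) = flatI W b y v := by
  rw [← fBL_apply]
  unfold clsI flatI
  rw [map_sum, LinearMap.sum_apply]
  refine Finset.sum_congr rfl fun c _ => ?_
  rw [map_smul, LinearMap.smul_apply, fBL_apply]
  unfold pureI
  rw [fB_pureT, smul_eq_mul]
  congr 1
  exact (Fintype.equivFin ι).symm.prod_comp (fun i => W.tr X (b (c i) * v i))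

/-- `flatI` is multilinear.  Proof: `Finset.mul_sum`, `map_sum`, `Finset.prod_univ_sum`,
`Fintype.piFinset_univ`, `Finset.sum_comm`, `Finset.prod_mul_distrib` (compare the proof of `cj_rk`). -/
theorem flatI_sum {β : Type} [Fintype β] {ι : Type} [Fintype ι] [DecidableEq ι] (y : (ι → α) → K)
    (m : ι → β → K) (u : β → W.H X) :
    flatI W b y (fun i => ∑ j, m i j • u j) =
      ∑ q : ι → β, (∏ i, m i (q i)) * flatI W b y fun i => u (q i) := by
  unfold flatI
  have h3 : ∀ c : ι → α, ∏ i, W.tr X (b (c i) * ∑ j, m i j • u j) =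
      ∑ q : ι → β, (∏ i, m i (q i)) * ∏ i, W.tr X (b (c i) * u (q i)) := by
    intro c
    have h4 := Finset.prod_univ_sum (fun _ : ι => (Finset.univ : Finset β))
      (fun i j => m i j * W.tr X (b (c i) * u j))
    simp only [Fintype.piFinset_univ] at h4
    simp only [← Finset.prod_mul_distrib]
    rw [← h4]
    refine Finset.prod_congr rfl fun i _ => ?_
    rw [Finset.mul_sum, map_sum]
    refine Finset.sum_congr rfl fun j _ => ?_
    rw [mul_smul_comm, map_smul, smul_eq_mul]
  simp only [h3]
  simp only [Finset.mul_sum]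
  rw [Finset.sum_comm]
  refine Finset.sum_congr rfl fun q _ => Finset.sum_congr rfl fun c _ => ?_
  ring

/-- Proof: `Fintype.prod_sumType`, `(Equiv.sumArrowEquivProdArrow ι κ α).sum_comp` (or `Fintype.sum_equiv`),
`Fintype.sum_prod_type`, `Finset.sum_mul_sum`. -/
theorem flatI_box {ι κ : Type} [Fintype ι] [DecidableEq ι] [Fintype κ] [DecidableEq κ]
    (y : (ι → α) → K) (z : (κ → α) → K) (v : ι ⊕ κ → W.H X) :
    flatI W b (fun c : ι ⊕ κ → α => (y fun i => c (Sum.inl i)) * z fun i => c (Sum.inr i)) v =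
      (flatI W b y fun i => v (Sum.inl i)) * flatI W b z fun i => v (Sum.inr i) := by
  unfold flatI
  have h1 : (∑ c : ι ⊕ κ → α, ((y fun i => c (Sum.inl i)) * z fun i => c (Sum.inr i)) *
      ∏ i, W.tr X (b (c i) * v i)) = ∑ p : (ι → α) × (κ → α),
        (y p.1 * ∏ i, W.tr X (b (p.1 i) * v (Sum.inl i))) *
          (z p.2 * ∏ i, W.tr X (b (p.2 i) * v (Sum.inr i))) := by
    refine Fintype.sum_equiv (Equiv.sumArrowEquivProdArrow ι κ α) _ _ fun c => ?_
    rw [Fintype.prod_sum_type]
    have e1 : (Equiv.sumArrowEquivProdArrow ι κ α c).1 = fun i => c (Sum.inl i) := rfl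
    have e2 : (Equiv.sumArrowEquivProdArrow ι κ α c).2 = fun i => c (Sum.inr i) := rfl
    rw [e1, e2]
    ring
  rw [h1, Fintype.sum_prod_type, Finset.sum_mul_sum]

/-- Proof: `Fintype.prod_prod_type`, `(Equiv.curry κ ι α).sum_comp`, `Finset.prod_univ_sum`,
`Fintype.piFinset_univ`, `Finset.prod_mul_distrib`. -/
theorem flatI_prod {ι κ : Type} [Fintype ι] [DecidableEq ι] [Fintype κ] [DecidableEq κ]
    (y : κ → (ι → α) → K) (v : κ × ι → W.H X) :
    flatI W b (fun c : κ × ι → α => ∏ j, y j fun i => c (j, i)) v =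
      ∏ j, flatI W b (y j) fun i => v (j, i) := by
  unfold flatI
  have h4 := Finset.prod_univ_sum (fun _ : κ => (Finset.univ : Finset (ι → α)))
    (fun j c => y j c * ∏ i, W.tr X (b (c i) * v (j, i)))
  simp only [Fintype.piFinset_univ] at h4
  rw [h4]
  refine Fintype.sum_equiv (Equiv.curry κ ι α) _ _ fun c => ?_
  rw [Finset.prod_mul_distrib, Fintype.prod_prod_type]
  rfl

/-- Proof: reindex the sum by `Equiv.arrowCongr e (Equiv.refl α)` and the product by `e`. -/
theorem flatI_reindex {ι κ : Type} [Fintype ι] [DecidableEq ι] [Fintype κ] [DecidableEq κ]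
    (e : ι ≃ κ) (y : (ι → α) → K) (v : κ → W.H X) :
    flatI W b (fun c : κ → α => y fun i => c (e i)) v = flatI W b y fun i => v (e i) := by
  unfold flatI
  refine Fintype.sum_equiv (Equiv.arrowCongr e.symm (Equiv.refl α)) _ _ fun c => ?_
  have e1 : (Equiv.arrowCongr e.symm (Equiv.refl α)) c = fun i => c (e i) := rfl
  rw [e1]
  congr 1
  exact (e.prod_comp (fun k => W.tr X (b (c k) * v k))).symm

/-- Proof: only the term `a = c` of the sum is not zero. -/
theorem flatI_dual [DecidableEq α] {b' : α → W.H X}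
    (hd : ∀ i j, W.tr X (b i * b' j) = if i = j then 1 else 0) {ι : Type} [Fintype ι] [DecidableEq ι]
    (y : (ι → α) → K) (c : ι → α) : flatI W b y (fun i => b' (c i)) = y c := by
  unfold flatI
  rw [Finset.sum_eq_single c]
  · simp only [hd, if_true, Finset.prod_const_one, mul_one]
  · intro a _ ha
    obtain ⟨i, hi⟩ := Function.ne_iff.1 ha
    have h1 : ∏ i, W.tr X (b (a i) * b' (c i)) = 0 :=
      Finset.prod_eq_zero (Finset.mem_univ i) (by rw [hd, if_neg hi])
    rw [h1, mul_zero]
  · intro h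
    exact absurd (Finset.mem_univ _) h

/-- An array is determined by its pairings with the words in a generating family.
Proof: `flatI_sum` shows that `flatI y u = flatI z u` for all `u : ι → W.H X` (each `u i` is a linear
combination of the `v j`, `Submodule.mem_span_range_iff_exists_fun`); apply `flatI_dual`. -/
theorem arr_ext [DecidableEq α] {b' : α → W.H X}
    (hd : ∀ i j, W.tr X (b i * b' j) = if i = j then 1 else 0) {β : Type} [Fintype β] {v : β → W.H X}
    (hv : ∀ x, x ∈ Submodule.span K (Set.range v)) {ι : Type} [Fintype ι] [DecidableEq ι]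
    {y z : (ι → α) → K}
    (h : ∀ q : ι → β, (flatI W b y fun i => v (q i)) = flatI W b z fun i => v (q i)) : y = z := by
  funext c
  have h1 : ∀ i, ∃ m : β → K, ∑ j, m j • v j = b' (c i) := fun i =>
    (Submodule.mem_span_range_iff_exists_fun K).1 (hv _)
  choose m hm using h1
  have h2 : (fun i => b' (c i)) = fun i => ∑ j, m i j • v j := by
    funext i
    rw [hm]
  rw [← flatI_dual hd y c, ← flatI_dual hd z c, h2, flatI_sum, flatI_sum]
  refine Finset.sum_congr rfl fun q _ => ?_
  rw [h q]

/-- Proof: `b' `-coordinates: `x = ∑ j, tr (x * b' j) • b j` (`exp_col` with `h = 1`, or directly from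
the hypothesis `hx`), so `tr (x * u) = ∑ j, tr (x * b' j) * tr (b j * u)`; `Finset.prod_univ_sum`. -/
theorem flatI_prA {b' : α → W.H X} (hx : ∀ x, x = ∑ j, W.tr X (x * b' j) • b j) {ι : Type}
    [Fintype ι] [DecidableEq ι] (x u : ι → W.H X) :
    flatI W b (prA W b' x) u = ∏ i, W.tr X (x i * u i) := by
  unfold flatI prA
  have h1 : ∀ i, W.tr X (x i * u i) =
      ∑ j, W.tr X (x i * b' j) * W.tr X (b j * u i) := by
    intro i
    conv_lhs => rw [hx (x i)]
    rw [Finset.sum_mul, map_sum]
    refine Finset.sum_congr rfl fun j _ => ?_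
    rw [smul_mul_assoc, map_smul, smul_eq_mul]
  have h4 := Finset.prod_univ_sum (fun _ : ι => (Finset.univ : Finset α))
    (fun i j => W.tr X (x i * b' j) * W.tr X (b j * u i))
  simp only [Fintype.piFinset_univ] at h4
  simp only [h1]
  rw [h4]
  refine Finset.sum_congr rfl fun c _ => ?_
  rw [Finset.prod_mul_distrib]

/-- Proof: `MultilinearMap.map_sum` for `pureM` (`pureM_apply`), `MultilinearMap.map_smul_univ`; the
product over `Fin (card ι)` is reindexed by `Fintype.equivFin ι`. -/
theorem clsI_prA {b' : α → W.H X} (hx : ∀ x, x = ∑ j, W.tr X (x * b' j) • b j) {ι : Type}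
    [Fintype ι] [DecidableEq ι] (x : ι → W.H X) : clsI W b (prA W b' x) = pureI W x := by
  have h1 : (fun s => x ((Fintype.equivFin ι).symm s)) =
      fun s => ∑ j, W.tr X (x ((Fintype.equivFin ι).symm s) * b' j) • b j := by
    funext s
    exact hx _
  have h2 : pureI W x = ∑ a : Fin (Fintype.card ι) → α,
      (∏ s, W.tr X (x ((Fintype.equivFin ι).symm s) * b' (a s))) •
        W.pureT fun s => b (a s) := by
    unfold pureI
    conv_lhs => rw [h1, ← pureM_apply, MultilinearMap.map_sum]
    refine Finset.sum_congr rfl fun a _ => ?_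
    rw [MultilinearMap.map_smul_univ, pureM_apply]
  rw [h2]
  unfold clsI prA pureI
  refine Fintype.sum_equiv (Equiv.arrowCongr (Fintype.equivFin ι) (Equiv.refl α)) _ _ fun c => ?_
  have e1 : (Equiv.arrowCongr (Fintype.equivFin ι) (Equiv.refl α)) c =
      fun s => c ((Fintype.equivFin ι).symm s) := rfl
  rw [e1]
  congr 1
  exact ((Fintype.equivFin ι).symm.prod_comp (fun i => W.tr X (x i * b' (c i)))).symm

end T2F
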