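import Pool.Agent.W_f569db_t2.ArrCls
import Pool.Agent.W_f569db_t2.FlatI

set_option autoImplicit false

noncomputable section

namespace T2F

open AlgebraicGeometry CategoryTheory MonoidalCategory
open scoped TensorProduct DirectSum
open Pool.Agent.WeilH_h6 Pool.Agent.WeilH_h6.VarClass Pool.Agent.WeilH_h6.Weil H13F

universe u v w

variable {k : Type u} [Field k] {𝒱 : VarClass k} {K : Type v} [Field K] {W : Weil.{u, v, w} 𝒱 K}

variable [CharZero K] {X : 𝒱.Obj} {α : Type} [Fintype α] {b : α → W.H X}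

/-- the numbering of `ι ⊕ κ` -/
def BoxA_e (ι κ : Type) [Fintype ι] [Fintype κ] :
    Fin (Fintype.card ι + Fintype.card κ) ≃ ι ⊕ κ :=
  finSumFinEquiv.symm.trans (Equiv.sumCongr (Fintype.equivFin ι).symm (Fintype.equivFin κ).symm)

theorem BoxA_e_symm_inl (ι κ : Type) [Fintype ι] [Fintype κ] (s : Fin (Fintype.card ι)) :
    (BoxA_e ι κ).symm (Sum.inl ((Fintype.equivFin ι).symm s)) = Fin.castAdd _ s := by
  simp [BoxA_e]

theorem BoxA_e_symm_inr (ι κ : Type) [Fintype ι] [Fintype κ] (s : Fin (Fintype.card κ)) :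
    (BoxA_e ι κ).symm (Sum.inr ((Fintype.equivFin κ).symm s)) = Fin.natAdd _ s := by
  simp [BoxA_e]

omit [CharZero K] in
/-- the class of a product of arrays -/
theorem BoxA_cls {ι κ : Type} [Fintype ι] [DecidableEq ι] [Fintype κ]
    [DecidableEq κ] (y : (ι → α) → K) (z : (κ → α) → K) :
    cls W b (Fintype.card ι + Fintype.card κ) (fun c =>
      (y fun i => c ((BoxA_e ι κ).symm (Sum.inl i))) *
        z fun i => c ((BoxA_e ι κ).symm (Sum.inr i))) =
      W.box2 (clsI W b y) (clsI W b z) := by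
  unfold clsI cls pureI
  rw [box2_sum W y z (fun c s => b (c ((Fintype.equivFin ι).symm s)))
    (fun c s => b (c ((Fintype.equivFin κ).symm s)))]
  rw [← Fintype.sum_prod_type' (f := fun (c : ι → α) (c' : κ → α) => (y c * z c') •
    W.pureT (Fin.append (fun s => b (c ((Fintype.equivFin ι).symm s)))
      (fun s => b (c' ((Fintype.equivFin κ).symm s)))))]
  refine Fintype.sum_equiv ((Equiv.arrowCongr (BoxA_e ι κ) (Equiv.refl α)).trans
    (Equiv.sumArrowEquivProdArrow ι κ α)) _ _ fun c => ?_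
  have e1 : ((Equiv.arrowCongr (BoxA_e ι κ) (Equiv.refl α)).trans
      (Equiv.sumArrowEquivProdArrow ι κ α)) c = (fun i => c ((BoxA_e ι κ).symm (Sum.inl i)),
        fun i => c ((BoxA_e ι κ).symm (Sum.inr i))) := rfl
  rw [e1]
  congr 2
  funext s
  refine Fin.addCases (fun i => ?_) (fun i => ?_) s
  · rw [Fin.append_left]
    change b (c _) = b (c ((BoxA_e ι κ).symm (Sum.inl ((Fintype.equivFin ι).symm i))))
    rw [BoxA_e_symm_inl]
  · rw [Fin.append_right]
    change b (c _) = b (c ((BoxA_e ι κ).symm (Sum.inr ((Fintype.equivFin κ).symm i))))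
    rw [BoxA_e_symm_inr]

/-- Proof: by `algA_iff` with `e : Fin (card ι + card κ) ≃ ι ⊕ κ` (`finSumFinEquiv.symm` and the
`equivFin`); the class is `W.box2 (clsI W b y) (clsI W b z)` by `box2_sum`; `W.box2_mem`. -/
theorem AlgA.box (hpar : W.par X ∈ W.algHom X X) {ι κ : Type} [Fintype ι] [DecidableEq ι] [Fintype κ]
    [DecidableEq κ] {y : (ι → α) → K} {z : (κ → α) → K} (hy : AlgA W b y) (hz : AlgA W b z) :
    AlgA W b fun c : ι ⊕ κ → α => (y fun i => c (Sum.inl i)) * z fun i => c (Sum.inr i) := by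
  rw [algA_iff hpar (BoxA_e ι κ)]
  have h1 := BoxA_cls (W := W) (b := b) y z
  rw [h1]
  exact W.box2_mem hy hz

/-- Proof: the same with `NT.box2`. -/
theorem NTA.box_left (hpar : W.par X ∈ W.algHom X X) {ι κ : Type} [Fintype ι] [DecidableEq ι]
    [Fintype κ] [DecidableEq κ] {y : (ι → α) → K} {z : (κ → α) → K} (hy : NTA W b y)
    (hz : AlgA W b z) :
    NTA W b fun c : ι ⊕ κ → α => (y fun i => c (Sum.inl i)) * z fun i => c (Sum.inr i) := by
  rw [ntA_iff hpar (BoxA_e ι κ)]
  have h1 := BoxA_cls (W := W) (b := b) y z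
  rw [h1]
  exact NT.box2 W hy hz

/-- Proof: from `NTA.box_left` by `NTA.reindex` with `Equiv.sumComm` and `mul_comm`. -/
theorem NTA.box_right (hpar : W.par X ∈ W.algHom X X) {ι κ : Type} [Fintype ι] [DecidableEq ι]
    [Fintype κ] [DecidableEq κ] {y : (ι → α) → K} {z : (κ → α) → K} (hy : AlgA W b y)
    (hz : NTA W b z) :
    NTA W b fun c : ι ⊕ κ → α => (y fun i => c (Sum.inl i)) * z fun i => c (Sum.inr i) := by
  have h1 := (NTA.box_left hpar hz hy).reindex hpar (Equiv.sumComm κ ι)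
  have h2 : (fun c : ι ⊕ κ → α => (y fun i => c (Sum.inl i)) * z fun i => c (Sum.inr i)) =
      fun c : ι ⊕ κ → α => (z fun i => c ((Equiv.sumComm κ ι) (Sum.inl i))) *
        y fun i => c ((Equiv.sumComm κ ι) (Sum.inr i)) := by
    funext c
    exact mul_comm _ _
  rw [h2]
  exact h1

/-- Proof: the class is `1` on `X^0` (`pureT_zero` up to `Fintype.card ι = 0`; use `algA_iff` with
`e : Fin 0 ≃ ι`). -/
theorem AlgA.empty (hpar : W.par X ∈ W.algHom X X) {ι : Type} [Fintype ι] [DecidableEq ι]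
    [IsEmpty ι] : AlgA W b fun _ : ι → α => 1 := by
  rw [algA_iff hpar (Equiv.equivOfIsEmpty (Fin 0) ι)]
  unfold cls
  rw [Fintype.sum_unique, one_smul, pureT_zero]
  exact W.one_mem_algSpan _

/-- Proof: `clsI_prA` and `pureT_alg`. -/
theorem AlgA.prA {b' : α → W.H X} (hx : ∀ x, x = ∑ j, W.tr X (x * b' j) • b j) {ι : Type}
    [Fintype ι] [DecidableEq ι] {x : ι → W.H X} (h : ∀ i, x i ∈ W.algSpan X) :
    AlgA W b (prA W b' x) := by
  unfold AlgA
  rw [clsI_prA hx]
  exact pureT_alg fun s => h _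

end T2F
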