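import Pool.Agent.W_f569db_t2.Defs

set_option autoImplicit false

noncomputable section

namespace T2F

open AlgebraicGeometry CategoryTheory MonoidalCategory
open scoped TensorProduct DirectSum
open Pool.Agent.WeilH_h6 Pool.Agent.WeilH_h6.VarClass Pool.Agent.WeilH_h6.Weil H13F

universe u v w

variable {k : Type u} [Field k] {𝒱 : VarClass k} {K : Type v} [Field K] {W : Weil.{u, v, w} 𝒱 K}

variable [CharZero K] {X : 𝒱.Obj} {α : Type} [Fintype α] {b : α → W.H X}

/-- A class on `X^ι` in the standard numbering. -/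
theorem ArrCls_clsI_eq {ι : Type} [Fintype ι] [DecidableEq ι] (y : (ι → α) → K) :
    clsI W b y = cls W b (Fintype.card ι) fun d => y fun i => d (Fintype.equivFin ι i) := by
  unfold clsI cls pureI
  refine Fintype.sum_equiv (Equiv.arrowCongr (Fintype.equivFin ι) (Equiv.refl α)) _ _ fun c => ?_
  simp [Equiv.arrowCongr]

/-- The effect of a permutation of the slots on a class. -/
theorem ArrCls_map_cls {m M : ℕ} (e : Fin m ≃ Fin M) (U : W.H (X.pow m) →ₗ[K] W.H (X.pow M))
    (hU : ∀ v, U (W.pureT v) = W.pureT fun t => v (e.symm t)) (f : (Fin m → α) → K) :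
    U (cls W b m f) = cls W b M fun c => f fun s => c (e s) := by
  unfold cls
  rw [map_sum]
  refine Fintype.sum_equiv (Equiv.arrowCongr e (Equiv.refl α)) _ _ fun c => ?_
  rw [map_smul, hU]
  simp [Equiv.arrowCongr]

/-- Algebraicity of an array does not depend on the numbering of the slots.

Proof.  `exists_uperm W hpar (e.trans (Fintype.equivFin ι))` gives a linear map `U` with
`U (pureT v) = pureT (v ∘ (e.trans (equivFin ι)).symm)` which preserves `algSpan`; it maps
`cls W b m (fun c => y (c ∘ e.symm))` to `clsI W b y` (sum over `c`, reindexed by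
`Equiv.arrowCongr`).  The same for the inverse. -/
theorem algA_iff (hpar : W.par X ∈ W.algHom X X) {ι : Type} [Fintype ι] [DecidableEq ι] {m : ℕ}
    (e : Fin m ≃ ι) (y : (ι → α) → K) :
    AlgA W b y ↔ cls W b m (fun c => y fun i => c (e.symm i)) ∈ W.algSpan (X.pow m) := by
  unfold AlgA
  rw [ArrCls_clsI_eq]
  constructor
  · intro h
    obtain ⟨U, hU1, hU2, -⟩ := exists_uperm W hpar (e.trans (Fintype.equivFin ι)).symm
    have h1 := hU2 _ h
    rw [ArrCls_map_cls _ U hU1] at h1
    simpa using h1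
  · intro h
    obtain ⟨U, hU1, hU2, -⟩ := exists_uperm W hpar (e.trans (Fintype.equivFin ι))
    have h1 := hU2 _ h
    rw [ArrCls_map_cls _ U hU1] at h1
    simpa using h1

/-- The same for numerical triviality (the last property of `exists_uperm`). -/
theorem ntA_iff (hpar : W.par X ∈ W.algHom X X) {ι : Type} [Fintype ι] [DecidableEq ι] {m : ℕ}
    (e : Fin m ≃ ι) (y : (ι → α) → K) :
    NTA W b y ↔ W.NT (cls W b m (fun c => y fun i => c (e.symm i))) := by
  unfold NTA
  rw [ArrCls_clsI_eq]
  constructor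
  · intro h
    obtain ⟨U, hU1, -, hU2⟩ := exists_uperm W hpar (e.trans (Fintype.equivFin ι)).symm
    have h1 := hU2 _ h
    rw [ArrCls_map_cls _ U hU1] at h1
    simpa using h1
  · intro h
    obtain ⟨U, hU1, -, hU2⟩ := exists_uperm W hpar (e.trans (Fintype.equivFin ι))
    have h1 := hU2 _ h
    rw [ArrCls_map_cls _ U hU1] at h1
    simpa using h1

/-- Proof: apply `algA_iff` twice, with `equivFin ι` and `(equivFin ι).symm.trans e`. -/
theorem AlgA.reindex (hpar : W.par X ∈ W.algHom X X) {ι κ : Type} [Fintype ι] [DecidableEq ι]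
    [Fintype κ] [DecidableEq κ] (e : ι ≃ κ) {y : (ι → α) → K} (h : AlgA W b y) :
    AlgA W b fun c : κ → α => y fun i => c (e i) := by
  rw [algA_iff hpar (Fintype.equivFin κ).symm]
  exact (algA_iff hpar ((Fintype.equivFin κ).symm.trans e.symm) y).1 h

/-- Proof: apply `ntA_iff` twice. -/
theorem NTA.reindex (hpar : W.par X ∈ W.algHom X X) {ι κ : Type} [Fintype ι] [DecidableEq ι]
    [Fintype κ] [DecidableEq κ] (e : ι ≃ κ) {y : (ι → α) → K} (h : NTA W b y) :
    NTA W b fun c : κ → α => y fun i => c (e i) := by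
  rw [ntA_iff hpar (Fintype.equivFin κ).symm]
  exact (ntA_iff hpar ((Fintype.equivFin κ).symm.trans e.symm) y).1 h

/-- The class of an antisymmetrised array. -/
theorem ArrCls_clsI_asym {P κ : Type} [Fintype P] [DecidableEq P] [DecidableEq κ] (β : P → κ)
    (y : (P → α) → K) :
    clsI W b (asym β y) = ∑ σ : Equiv.Perm P, if ∀ x, β (σ x) = β x then
      ((Equiv.Perm.sign σ : ℤ) : K) • clsI W b (fun c : P → α => y fun x => c (σ x)) else 0 := by
  unfold clsI T2F.asym
  simp only [Finset.sum_smul]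
  rw [Finset.sum_comm]
  refine Finset.sum_congr rfl fun σ _ => ?_
  split_ifs with h1
  · rw [Finset.smul_sum]
    exact Finset.sum_congr rfl fun c _ => by rw [mul_smul]
  · simp

theorem ArrCls_nt_zero {Y : 𝒱.Obj} : W.NT (0 : W.H Y) :=
  ⟨Submodule.zero_mem _, fun c _ => by rw [zero_mul, map_zero]⟩

theorem ArrCls_nt_smul {Y : 𝒱.Obj} {a : W.H Y} (h : W.NT a) (r : K) : W.NT (r • a) :=
  ⟨Submodule.smul_mem _ _ h.1, fun c hc => by rw [smul_mul_assoc, map_smul, h.2 c hc, smul_zero]⟩

theorem ArrCls_nt_sum {Y : 𝒱.Obj} {ι : Type} (s : Finset ι) (f : ι → W.H Y)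
    (h : ∀ i ∈ s, W.NT (f i)) : W.NT (∑ i ∈ s, f i) := by
  refine ⟨Submodule.sum_mem _ fun i hi => (h i hi).1, fun c hc => ?_⟩
  rw [Finset.sum_mul, map_sum]
  exact Finset.sum_eq_zero fun i hi => (h i hi).2 c hc

/-- Proof: `clsI` is linear in the array, `AlgA.reindex` for each permutation. -/
theorem AlgA.asym (hpar : W.par X ∈ W.algHom X X) {P κ : Type} [Fintype P] [DecidableEq P]
    [DecidableEq κ] (β : P → κ) {y : (P → α) → K} (h : AlgA W b y) : AlgA W b (asym β y) := by
  unfold AlgA
  rw [ArrCls_clsI_asym]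
  refine Submodule.sum_mem _ fun σ _ => ?_
  split_ifs
  · exact Submodule.smul_mem _ _ (h.reindex hpar σ)
  · exact Submodule.zero_mem _

/-- Proof: `clsI` is linear in the array, `NTA.reindex` for each permutation; `NT` is stable under
sums and multiples. -/
theorem NTA.asym (hpar : W.par X ∈ W.algHom X X) {P κ : Type} [Fintype P] [DecidableEq P]
    [DecidableEq κ] (β : P → κ) {y : (P → α) → K} (h : NTA W b y) : NTA W b (asym β y) := by
  unfold NTA
  rw [ArrCls_clsI_asym]
  refine ArrCls_nt_sum _ _ fun σ _ => ?_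
  split_ifs
  · exact ArrCls_nt_smul (h.reindex hpar σ) _
  · exact ArrCls_nt_zero

end T2F
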