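import Pool.Agent.W_f569db_t2.Defs

set_option autoImplicit false

noncomputable section

namespace T2F

open AlgebraicGeometry CategoryTheory MonoidalCategory
open scoped TensorProduct DirectSum
open Pool.Agent.WeilH_h6 Pool.Agent.WeilH_h6.VarClass Pool.Agent.WeilH_h6.Weil H13F

universe u v w

variable {k : Type u} [Field k] {𝒱 : VarClass k} {K : Type v} [Field K] {W : Weil.{u, v, w} 𝒱 K}

variable [CharZero K] {X : 𝒱.Obj}

/-- The unsigned form and the unsigned permutations.

Proof: for `a = pureT u` both sides are `∏ s, tr (u s * w (e s))` (`fB_pureT`, `Equiv.prod_comp`);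
`pure_induction` in `a`. -/
theorem exists_uperm_fB (hpar : W.par X ∈ W.algHom X X) {m M : ℕ} (e : Fin m ≃ Fin M) :
    ∃ U : W.H (X.pow m) →ₗ[K] W.H (X.pow M), (∀ v, U (W.pureT v) = W.pureT fun t => v (e.symm t)) ∧
      (∀ a ∈ W.algSpan (X.pow m), U a ∈ W.algSpan (X.pow M)) ∧ (∀ a, W.NT a → W.NT (U a)) ∧
      ∀ a w, fB hpar M (U a) (W.pureT w) = fB hpar m a (W.pureT fun s => w (e s)) := by
  obtain ⟨U, hU1, hU2, hU3⟩ := exists_uperm W hpar e
  refine ⟨U, hU1, hU2, hU3, fun a w => ?_⟩
  refine W.pure_induction (P := fun a => fB hpar M (U a) (W.pureT w) =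
    fB hpar m a (W.pureT fun s => w (e s))) ?_ ?_ ?_ a
  · intro a b ha hb
    rw [map_add, fB_add_left, ha, hb, fB_add_left]
  · intro c a ha
    rw [map_smul, fB_smul_left, ha, fB_smul_left]
  · intro v
    rw [hU1, fB_pureT, fB_pureT, ← Equiv.prod_comp e]
    refine Finset.prod_congr rfl fun s _ => ?_
    rw [Equiv.symm_apply_apply]

/-- The form on external powers.  Proof: `a` is a linear combination of pure tensors; if all `a k` are
pure tensors use `box_pureT`, `fB_pureT` and `Fintype.prod_prod_type`; multilinearity in
`a : Fin N → _` by `boxM` (for instance write `a k` as an element of the span of the pure tensors and use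
`MultilinearMap.ext`-type arguments, or prove the statement by induction on the set of indices `k` for
which `a k` is pure). -/
theorem fB_box (hpar : W.par X ∈ W.algHom X X) {N m : ℕ} (a : Fin N → W.H (X.pow m))
    (u : Fin N → Fin m → W.H X) :
    fB hpar (N * m) (W.box a)
        (W.pureT fun j => u (finProdFinEquiv.symm j).1 (finProdFinEquiv.symm j).2) =
      ∏ k, fB hpar m (a k) (W.pureT (u k)) := by
  classical
  have key : ∀ s : Finset (Fin N), ∀ Z : Fin N → W.H (X.pow m),
      (∀ k, k ∉ s → ∃ v, Z k = W.pureT v) →
        fB hpar (N * m) (W.boxM X N m Z)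
          (W.pureT fun j => u (finProdFinEquiv.symm j).1 (finProdFinEquiv.symm j).2) =
          ∏ k, fB hpar m (Z k) (W.pureT (u k)) := by
    intro s
    induction s using Finset.induction_on with
    | empty =>
      intro Z hZ
      choose v hv using fun k => hZ k (Finset.notMem_empty k)
      have hZv : Z = fun k => W.pureT (v k) := funext hv
      rw [boxM_apply, hZv, box_pureT, fB_pureT,
        Equiv.prod_comp finProdFinEquiv.symm fun p : Fin N × Fin m => W.tr X (v p.1 p.2 * u p.1 p.2),
        Fintype.prod_prod_type]
      exact Finset.prod_congr rfl fun k _ => (fB_pureT hpar (v k) (u k)).symm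
    | insert i s hi ih =>
      intro Z hZ
      have hprod : ∀ a : W.H (X.pow m),
          ∏ k, fB hpar m (Function.update Z i a k) (W.pureT (u k)) =
            fB hpar m a (W.pureT (u i)) *
              ∏ k ∈ Finset.univ.erase i, fB hpar m (Z k) (W.pureT (u k)) := by
        intro a
        rw [← Finset.mul_prod_erase Finset.univ _ (Finset.mem_univ i), Function.update_self]
        congr 1
        refine Finset.prod_congr rfl fun k hk => ?_
        rw [Function.update_of_ne (Finset.ne_of_mem_erase hk)]
      have h1 : ∀ a : W.H (X.pow m), fB hpar (N * m) (W.boxM X N m (Function.update Z i a))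
          (W.pureT fun j => u (finProdFinEquiv.symm j).1 (finProdFinEquiv.symm j).2) =
          ∏ k, fB hpar m (Function.update Z i a k) (W.pureT (u k)) := by
        intro a
        refine W.pure_induction (P := fun a => fB hpar (N * m) (W.boxM X N m (Function.update Z i a))
          (W.pureT fun j => u (finProdFinEquiv.symm j).1 (finProdFinEquiv.symm j).2) =
          ∏ k, fB hpar m (Function.update Z i a k) (W.pureT (u k))) ?_ ?_ ?_ a
        · intro x y hx hy
          rw [MultilinearMap.map_update_add, fB_add_left, hx, hy, hprod, hprod, hprod, fB_add_left,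
            add_mul]
        · intro c x hx
          rw [MultilinearMap.map_update_smul, fB_smul_left, hx, hprod, hprod, fB_smul_left, mul_assoc]
        · intro v
          refine ih _ fun k hk => ?_
          by_cases hki : k = i
          · subst hki
            exact ⟨v, Function.update_self _ _ _⟩
          · rw [Function.update_of_ne hki]
            exact hZ k fun h => (Finset.mem_insert.1 h).elim hki hk
      have := h1 (Z i)
      rwa [Function.update_eq_self] at this
  have h2 := key Finset.univ a fun k hk => absurd (Finset.mem_univ k) hk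
  rwa [boxM_apply] at h2

/-- The class of the product of the diagonals.

Proof.  `fB_end` with `T = LinearMap.id` (`W.id_mem_algHom X`) gives an algebraic class `Y` on `X^2` with
`⟨Y, v ⊗ w⟩ = tr (v * w)`.  With `R = card S` take `U (W.box fun _ : Fin R => Y)`, where `U` is given by
`exists_uperm_fB` for `e' : Fin (R * 2) ≃ Fin N`, the inverse of
`e.trans ((sum of two copies of equivFin S).trans ((sumTwo R).trans finProdFinEquiv))`; use `fB_box`
(`u j = ![w _, w _]`) and `Equiv.prod_comp`. -/
theorem exists_theta (hpar : W.par X ∈ W.algHom X X) {N : ℕ} {S : Type} [Fintype S] (e : Fin N ≃ S ⊕ S) :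
    ∃ Θ ∈ W.algSpan (X.pow N), ∀ w : Fin N → W.H X, fB hpar N Θ (W.pureT w) =
      ∏ t : S, W.tr X (w (e.symm (Sum.inl t)) * w (e.symm (Sum.inr t))) := by
  classical
  obtain ⟨Y, hY, hY2⟩ := fB_end hpar (W.id_mem_algHom X)
  let f : S ≃ Fin (Fintype.card S) := Fintype.equivFin S
  let e' : Fin (Fintype.card S * 2) ≃ Fin N :=
    finProdFinEquiv.symm.trans ((sumTwo (Fintype.card S)).symm.trans
      ((Equiv.sumCongr f f).symm.trans e.symm))
  obtain ⟨U, -, hU2, -, hU4⟩ := exists_uperm_fB hpar e'
  refine ⟨U (W.box fun _ : Fin (Fintype.card S) => Y), hU2 _ (W.box_mem fun _ => hY), fun w => ?_⟩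
  rw [hU4]
  have h1 : (W.pureT fun s => w (e' s)) = W.pureT fun j =>
      (fun (k : Fin (Fintype.card S)) (i : Fin 2) => w (e' (finProdFinEquiv (k, i))))
        (finProdFinEquiv.symm j).1 (finProdFinEquiv.symm j).2 := by
    congr 1
    funext j
    simp only [Prod.mk.eta, Equiv.apply_symm_apply]
  have h3 := fB_box hpar (fun _ : Fin (Fintype.card S) => Y)
    (fun (k : Fin (Fintype.card S)) (i : Fin 2) => w (e' (finProdFinEquiv (k, i))))
  rw [h1]
  refine h3.trans ?_
  rw [← Equiv.prod_comp f]
  refine Finset.prod_congr rfl fun t _ => ?_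
  have e0 : e' (finProdFinEquiv (f t, 0)) = e.symm (Sum.inl t) := by
    simp [e', sumTwo]
  have e1 : e' (finProdFinEquiv (f t, 1)) = e.symm (Sum.inr t) := by
    simp [e', sumTwo]
  have h2 : (fun i : Fin 2 => w (e' (finProdFinEquiv (f t, i)))) =
      ![w (e.symm (Sum.inl t)), w (e.symm (Sum.inr t))] := by
    funext i
    fin_cases i
    · exact congrArg w e0
    · exact congrArg w e1
  rw [h2, hY2]
  rfl

end T2F
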