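import Pool.Agent.W_f569db_t2.ContrCls
import Pool.Agent.W_f569db_t2.Theta
import Pool.Agent.W_f569db_t2.ArrCls
import Pool.Agent.W_f569db_t2.FlatI

set_option autoImplicit false

noncomputable section

namespace T2F

open AlgebraicGeometry CategoryTheory MonoidalCategory
open scoped TensorProduct DirectSum
open Pool.Agent.WeilH_h6 Pool.Agent.WeilH_h6.VarClass Pool.Agent.WeilH_h6.Weil H13F

universe u v w

variable {k : Type u} [Field k] {𝒱 : VarClass k} {K : Type v} [Field K] {W : Weil.{u, v, w} 𝒱 K}

variable [CharZero K] {X : 𝒱.Obj} {α : Type} [Fintype α] {b : α → W.H X}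

/-- Contraction of an algebraic array on `Q` along the matching `e`: the remaining slots are `P`.

Proof.  Let `e' : Fin (card Q + card P) ≃ S ⊕ S` be `finSumFinEquiv.symm`, the `equivFin` and `e`, and `Θ`
the class of `exists_theta`.  `exists_contr_cls` for `Θ` and `clsI W b C` gives an algebraic class on
`X^(card P)`; by `exists_cls b hb` it is `cls W b (card P) y'`, and we take
`A c = y' (fun s => c ((equivFin P).symm s))`.  Then `flatI W b A v = fB (cls y') (pureI v) =
fB Θ (box2 (clsI W b C) (pureI v))`, and `clsI W b C = ∑ q, C q • pureI (b ∘ q)`: linearity,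
`box2_pureT`, and the formula for `Θ`; `Fin.append` becomes `Sum.elim` under `e'`. -/
theorem exists_contr (hpar : W.par X ∈ W.algHom X X) (hb : ∀ x, x ∈ Submodule.span K (Set.range b))
    {Q P S : Type} [Fintype Q] [DecidableEq Q] [Fintype P] [DecidableEq P] [Fintype S]
    (e : Q ⊕ P ≃ S ⊕ S) {C : (Q → α) → K} (hC : AlgA W b C) :
    ∃ A : (P → α) → K, AlgA W b A ∧ (NTA W b C → NTA W b A) ∧ ∀ v : P → W.H X,
      flatI W b A v = ∑ q : Q → α, C q * ∏ t : S,
        W.tr X (Sum.elim (fun i => b (q i)) v (e.symm (Sum.inl t)) *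
          Sum.elim (fun i => b (q i)) v (e.symm (Sum.inr t))) := by
  classical
  let fQ := Fintype.equivFin Q
  let fP := Fintype.equivFin P
  let e' : Fin (Fintype.card Q + Fintype.card P) ≃ S ⊕ S :=
    finSumFinEquiv.symm.trans ((Equiv.sumCongr fQ.symm fP.symm).trans e)
  obtain ⟨Θ, hΘ, hΘw⟩ := exists_theta hpar e'
  obtain ⟨A0, hA0, hnt, hrep⟩ := exists_contr_cls hpar (m := Fintype.card Q) (M := Fintype.card P) hΘ
    (C := clsI W b C) hC
  obtain ⟨y', hy'⟩ := exists_cls b hb A0
  have hcls : clsI W b (fun c : P → α => y' fun s => c (fP.symm s)) = A0 := by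
    rw [← hy']
    unfold clsI cls
    exact Fintype.sum_equiv (Equiv.arrowCongr fP (Equiv.refl α)) _ _ fun c => rfl
  refine ⟨fun c => y' fun s => c (fP.symm s), ?_, ?_, ?_⟩
  · unfold AlgA
    rw [hcls]
    exact hA0
  · intro h
    unfold NTA
    rw [hcls]
    exact hnt h
  · intro v
    rw [← fB_clsI hpar, hcls, hrep]
    have h1 : W.box2 (clsI W b C) (pureI W v) = ∑ q : Q → α, C q •
        W.pureT (Fin.append (fun s => b (q (fQ.symm s))) (fun s => v (fP.symm s))) := by
      unfold clsI
      have h2 : W.box2 (∑ q : Q → α, C q • pureI W fun i => b (q i)) (pureI W v) =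
          ∑ q : Q → α, C q • W.box2 (pureI W fun i => b (q i)) (pureI W v) := by
        unfold box2
        rw [map_sum, Finset.sum_mul]
        refine Finset.sum_congr rfl fun q _ => ?_
        rw [map_smul, smul_mul_assoc]
      rw [h2]
      refine Finset.sum_congr rfl fun q _ => ?_
      unfold pureI
      rw [box2_pureT]
    rw [h1, ← fBL_apply, map_sum]
    refine Finset.sum_congr rfl fun q _ => ?_
    rw [map_smul, fBL_apply, hΘw, smul_eq_mul]
    congr 1
    have h3 : ∀ x : S ⊕ S, Fin.append (fun s => b (q (fQ.symm s))) (fun s => v (fP.symm s))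
        (e'.symm x) = Sum.elim (fun i => b (q i)) v (e.symm x) := by
      intro x
      have h4 : e'.symm x = finSumFinEquiv (Sum.map fQ fP (e.symm x)) := rfl
      rw [h4]
      rcases e.symm x with i | i
      · rw [Sum.map_inl, finSumFinEquiv_apply_left, Fin.append_left, Sum.elim_inl,
          Equiv.symm_apply_apply]
      · rw [Sum.map_inr, finSumFinEquiv_apply_right, Fin.append_right, Sum.elim_inr,
          Equiv.symm_apply_apply]
    refine Finset.prod_congr rfl fun t _ => ?_
    rw [h3, h3]

end T2F
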