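import Pool.Agent.W_f569db_t2.DetMain
import Pool.Agent.W_f569db_h13.Canon2

set_option autoImplicit false

/-!
# The canonical weighted basis with integral weights, with the determinant class
-/

noncomputable section

namespace T2F

open AlgebraicGeometry CategoryTheory MonoidalCategory
open scoped TensorProduct DirectSum
open Pool.Agent.WeilH_h6 Pool.Agent.WeilH_h6.VarClass Pool.Agent.WeilH_h6.Weil H13F

universe u v w

variable {k : Type u} [Field k] {𝒱 : VarClass k} {K : Type v} [Field K] {W : Weil.{u, v, w} 𝒱 K}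

/-- The canonical weighted basis with integral weights, with the determinant class. -/
theorem exists_canonical3 [CharZero K] {X : 𝒱.Obj} (hpar : W.par X ∈ W.algHom X X) {n : ℕ}
    (hn : 2 ≤ n) (hne : ∃ m ≤ n, ∃ a : W.H (X.pow m), W.NT a ∧ a ≠ 0) :
    ∃ (r : ℕ) (B : NWB (W := W) (X := X) hpar n (Fin r)) (ζ : Fin r → ℤ), (∀ i, B.ξ i = ζ i) ∧
      (∀ S : SymG W X, (∀ b, S.G n b ∈ W.algSpan (X.pow n) ↔ b ∈ W.algSpan (X.pow n)) →
        ∀ t, ∀ x ∈ B.Fil t, S.g x ∈ B.Fil t) ∧
      (∀ φ : W.Hom X X, Fixes W X n φ → ∀ δ : Matrix (Fin r) (Fin r) K,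
        (∀ j, φ (B.v j) = ∑ i, δ i j • B.v i) → ∀ T : ℕ, (∀ r, -(T : ℤ) ≤ ζ r ∧ ζ r ≤ T) →
          ∃ N : ℕ, 0 < N ∧
            (∏ t ∈ Finset.Ioc (-(T : ℤ)) T, (δ.toSquareBlockProp fun r => t ≤ ζ r).det) ^ N = 1) ∧
      ∀ T : ℕ, (∀ i, |ζ i| ≤ T) → ∃ m : ℕ, 0 < m ∧
        W.NT (altI W (fun x : Blk ζ T × Fin m => W.par X (B.v' x.1.2.1)) fun x => (x.1.1, x.2)) := by
  classical
  let b := Module.finBasis K (W.H X)
  choose b' hb' using fun j => exists_dual X (b.coord j)
  have hd : ∀ i j, W.tr X (b i * b' j) = if i = j then 1 else 0 := by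
    intro i j
    rw [hb', b.coord_apply, b.repr_self, Finsupp.single_apply]
  have hspan : ∀ x, x ∈ Submodule.span K (Set.range b) := by
    intro x
    rw [b.span_eq]
    exact Submodule.mem_top
  obtain ⟨h, ξ, hP, hmin⟩ := exists_minimal2 _ _ (exists_posS hpar b n)
  have hG := (posS_iff hpar hspan hd n h ξ).1 hP
  obtain ⟨i₀, hp⟩ := exists_normal' hpar (by omega : 1 ≤ n) (exp_col hd hspan h) hG
  -- the normalising constant vanishes
  have hdual : ∀ i j, i ≠ j → W.tr X (colB b (h : Matrix _ _ K) i *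
      rowB b' ((h⁻¹ : (Matrix _ _ K)ˣ) : Matrix _ _ K) j) = 0 := fun i j hij => by
    rw [tr_col_row hd, Units.inv_mul, Matrix.one_apply_ne (Ne.symm hij)]
  have hone : ∀ i, W.tr X (colB b (h : Matrix _ _ K) i *
      rowB b' ((h⁻¹ : (Matrix _ _ K)ˣ) : Matrix _ _ K) i) = 1 := fun i => by
    rw [tr_col_row hd, Units.inv_mul, Matrix.one_apply_eq]
  let B₀ : NWB (W := W) (X := X) hpar n (Fin (Module.finrank K (W.H X))) :=
    { v := colB b (h : Matrix _ _ K)
      v' := rowB b' ((h⁻¹ : (Matrix _ _ K)ˣ) : Matrix _ _ K)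
      ξ := fun i => ξ i - ξ i₀
      dual := hdual
      one := hone
      exp := exp_col hd hspan h
      neg := fun m hm Y hY a h0 => (hp m hm Y hY a).1 h0
      pos := fun m hm Y hY a h0 => ((hp m hm Y hY a).2 h0).1 }
  have hs1 : ∑ i, (ξ i - ξ i₀) = 0 := sum_xi B₀ hn
  have hs2 : ∑ i, ξ i = 0 := by
    have h1 := first_order_eq hP (fun ξ' h' => hmin h ξ' h') (fun _ => 1)
      (fun x _ a b _ _ => by unfold wt; simp) (fun x _ a b _ _ => by unfold wt; simp)
    simpa using h1
  have hi₀ : ξ i₀ = 0 := by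
    rw [Finset.sum_sub_distrib, hs2, Finset.sum_const, Finset.card_univ, Fintype.card_fin,
      nsmul_eq_mul, zero_sub, neg_eq_zero] at hs1
    rcases mul_eq_zero.1 hs1 with h1 | h1
    · exact absurd (Nat.cast_eq_zero.1 h1) (by
        have := i₀.2
        omega)
    · exact h1
  let B₁ : NWB (W := W) (X := X) hpar n (Fin (Module.finrank K (W.H X))) :=
    { v := colB b (h : Matrix _ _ K)
      v' := rowB b' ((h⁻¹ : (Matrix _ _ K)ˣ) : Matrix _ _ K)
      ξ := ξ
      dual := hdual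
      one := hone
      exp := exp_col hd hspan h
      neg := fun m hm Y hY a h0 => by
        have h1 := (hp m hm Y hY a).1 h0
        simpa only [hi₀, sub_zero] using h1
      pos := fun m hm Y hY a h0 => by
        have h1 := ((hp m hm Y hY a).2 h0).1
        simpa only [hi₀, sub_zero] using h1 }
  -- rationality
  choose q hq using fun r => rational_of_minimal hP (fun ξ' h' => hmin h ξ' h') r
  obtain ⟨D₀, hD₀, z₀, hz₀⟩ := exists_denom q
  have hz₀R : ∀ r, (z₀ r : ℝ) = D₀ * ξ r := by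
    intro r
    rw [hq]
    have h1 := hz₀ r
    exact_mod_cast h1
  obtain ⟨D, hDdef⟩ : ∃ D : ℕ, D = D₀ * D₀ := ⟨_, rfl⟩
  obtain ⟨z, hzdef⟩ : ∃ z : Fin (Module.finrank K (W.H X)) → ℤ, ∀ r, z r = D₀ * z₀ r := ⟨_, fun r => rfl⟩
  have hD : 0 < D := by rw [hDdef]; positivity
  have hDR : (0 : ℝ) < D := by exact_mod_cast hD
  have hD1 : (1 : ℝ) ≤ D := by exact_mod_cast hD
  have hz : ∀ r, (z r : ℝ) = D * ξ r := by
    intro r
    rw [hzdef, hDdef]
    push_cast
    rw [hz₀R]; ring
  have hzR : ∀ r, (z r : ℝ) = D * (ξ r - ξ i₀) := by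
    intro r
    rw [hz, hi₀, sub_zero]
  have hsumz : ∀ {m : ℕ} (a : Fin m → Fin (Module.finrank K (W.H X))),
      ∑ s, ((z (a s) : ℤ) : ℝ) = D * ∑ s, (ξ (a s) - ξ i₀) := by
    intro m a
    rw [Finset.mul_sum]
    exact Finset.sum_congr rfl fun s _ => hzR _
  let B : NWB (W := W) (X := X) hpar n (Fin (Module.finrank K (W.H X))) :=
    { v := colB b (h : Matrix _ _ K)
      v' := rowB b' ((h⁻¹ : (Matrix _ _ K)ˣ) : Matrix _ _ K)
      ξ := fun i => (z i : ℝ)
      dual := hdual
      one := hone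
      exp := exp_col hd hspan h
      neg := fun m hm Y hY a h0 => by
        have h1 := (hp m hm Y hY a).1 h0
        rw [hsumz]
        refine ⟨mul_nonpos_of_nonneg_of_nonpos hDR.le h1.1, fun hnt => ?_⟩
        have h2 := mul_le_mul_of_nonneg_left (h1.2 hnt) hDR.le
        linarith
      pos := fun m hm Y hY a h0 => by
        rw [hsumz]
        exact mul_nonneg hDR.le ((hp m hm Y hY a).2 h0).1 }
  refine ⟨_, B, z, fun i => rfl, fun S hSA t x hx => ?_, fun φ hφ δ hδ T hT => ?_, fun T hT => ?_⟩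
  · obtain ⟨γ, hγ⟩ := S.exists_matrix b
    let hσ : (Matrix (Fin (Module.finrank K (W.H X))) (Fin (Module.finrank K (W.H X))) K)ˣ :=
      Units.map (RingHom.mapMatrix (S.σ : K →+* K)).toMonoidHom h
    let h2 := γ * hσ
    have hcol : ∀ j, colB b (h2 : Matrix _ _ K) j = S.g (colB b (h : Matrix _ _ K) j) := by
      intro j
      unfold colB
      rw [S.g_sum]
      have h3 : ∀ i, S.g ((h : Matrix _ _ K) i j • b i) =
          ∑ q, (S.σ ((h : Matrix _ _ K) i j) * (γ : Matrix _ _ K) q i) • b q := by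
        intro i
        rw [S.g_smul, hγ, Finset.smul_sum]
        exact Finset.sum_congr rfl fun q _ => smul_smul _ _ _
      simp only [h3]
      rw [Finset.sum_comm]
      refine Finset.sum_congr rfl fun q _ => ?_
      rw [← Finset.sum_smul]
      congr 1
      have h4 : (h2 : Matrix (Fin (Module.finrank K (W.H X)))
          (Fin (Module.finrank K (W.H X))) K) q j =
          ∑ i, (γ : Matrix (Fin (Module.finrank K (W.H X))) (Fin (Module.finrank K (W.H X))) K) q i *
            S.σ ((h : Matrix (Fin (Module.finrank K (W.H X)))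
              (Fin (Module.finrank K (W.H X))) K) i j) := by
        change ((γ : Matrix (Fin (Module.finrank K (W.H X))) (Fin (Module.finrank K (W.H X))) K) *
          (hσ : Matrix (Fin (Module.finrank K (W.H X))) (Fin (Module.finrank K (W.H X))) K)) q j = _
        rw [Matrix.mul_apply]
        rfl
      rw [h4]
      exact Finset.sum_congr rfl fun i _ => mul_comm _ _
    have hrow : ∀ j, rowB b' ((h2⁻¹ : (Matrix _ _ K)ˣ) : Matrix _ _ K) j =
        S.μ⁻¹ • S.g (rowB b' ((h⁻¹ : (Matrix _ _ K)ˣ) : Matrix _ _ K) j) := by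
      intro j
      refine W.ext_tr' fun w => ?_
      rw [exp_col hd hspan h2 w, Finset.sum_mul, Finset.sum_mul, map_sum, map_sum]
      refine Finset.sum_congr rfl fun i _ => ?_
      rw [smul_mul_assoc, smul_mul_assoc, map_smul, map_smul]
      congr 1
      rw [tr_col_row hd, Units.inv_mul, mul_smul_comm, map_smul, hcol, S.tr_mul, tr_col_row hd,
        Units.inv_mul, smul_eq_mul, ← mul_assoc, inv_mul_cancel₀ S.μ_ne, one_mul, Matrix.one_apply]
      split_ifs
      · rw [map_one]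
      · rw [map_zero]
    have hG2 : PosG hpar n (colB b (h2 : Matrix _ _ K))
        (rowB b' ((h2⁻¹ : (Matrix _ _ K)ˣ) : Matrix _ _ K)) ξ := by
      intro Y hY Y' hY' a a' h3 h4
      obtain ⟨Y, rfl⟩ := S.G_surj n Y
      obtain ⟨Y', rfl⟩ := S.G_surj n Y'
      have h5 : (fun s => rowB b' ((h2⁻¹ : (Matrix _ _ K)ˣ) : Matrix _ _ K) (a s)) =
          fun s => S.μ⁻¹ • S.g (rowB b' ((h⁻¹ : (Matrix _ _ K)ˣ) : Matrix _ _ K) (a s)) := by
        funext s; exact hrow _
      have h6 : (fun s => colB b (h2 : Matrix _ _ K) (a' s)) =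
          fun s => S.g (colB b (h : Matrix _ _ K) (a' s)) := by
        funext s; exact hcol _
      rw [h5, ← pureM_apply, MultilinearMap.map_smul_univ, pureM_apply, fB_smul_right, S.fB_G] at h3
      rw [h6, S.fB_G] at h4
      have h7 := hG Y ((hSA Y).1 hY) Y' ((hSA Y').1 hY') a a'
        (fun h0 => h3 (by rw [h0, map_zero, mul_zero, mul_zero]))
        (fun h0 => h4 (by rw [h0, map_zero, mul_zero]))
      refine ⟨h7.1, fun hnt => h7.2 ?_⟩
      rcases hnt with hnt | hnt
      · exact Or.inl (S.nt_of_G n hSA hnt)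
      · exact Or.inr (S.nt_of_G n hSA hnt)
    have hsame := unique_minimal2 _ _ hP ((posS_iff hpar hspan hd n h2 ξ).2 hG2) hmin le_rfl
    -- stability
    intro i hi
    have h8 : ∀ r, W.tr X (S.g (colB b (h : Matrix _ _ K) r) *
        rowB b' ((h⁻¹ : (Matrix _ _ K)ˣ) : Matrix _ _ K) i) ≠ 0 → ξ r ≤ ξ i := by
      intro r hr
      rw [← hcol, tr_col_row hd] at hr
      exact hsame.1 i r hr
    rw [B.exp x, S.g_sum, Finset.sum_mul, map_sum]
    refine Finset.sum_eq_zero fun r _ => ?_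
    rw [S.g_smul, smul_mul_assoc, map_smul, smul_eq_mul]
    by_contra h0
    have h9 : ξ r ≤ ξ i := h8 r (right_ne_zero_of_mul h0)
    have h10 : W.tr X (x * B.v' r) ≠ 0 := fun h11 => left_ne_zero_of_mul h0 (by rw [h11, map_zero])
    have h11 : t ≤ (z r : ℝ) := by
      by_contra h12
      exact h10 (hx r (not_le.1 h12))
    have h12 : (z i : ℝ) < t := hi
    have h13 : (z r : ℝ) ≤ z i := by
      rw [hzR, hzR]
      exact mul_le_mul_of_nonneg_left (by linarith) hDR.le
    linarith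
  · obtain ⟨S, hS1, hS2, hS3, hS4⟩ := hφ.exists_G hpar hn
    obtain ⟨γ, hγ⟩ := S.exists_matrix b
    have hcj := cj_fam hpar hd S hS1 hS3 (hS4 n le_rfl) γ hγ
    have hdet := det_sq hd hspan (φ := S.g) (fun x y => by rw [hS2]; exact hφ.tr_mul hn x y)
      (γ : Matrix _ _ K) hγ
    have hmain := det_relation (famZ b n) (famX b n) hP hmin γ hcj hDR (ξ i₀) z hzR hdet T hT
    have hδ' : δ = ((h⁻¹ : (Matrix _ _ K)ˣ) : Matrix _ _ K) * (γ : Matrix _ _ K) *
        (h : Matrix _ _ K) := by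
      ext i j
      have h1 : W.tr X (φ (B.v j) * B.v' i) = δ i j := by
        rw [hδ, Finset.sum_mul, map_sum, Finset.sum_eq_single i]
        · rw [smul_mul_assoc, map_smul, B.one, smul_eq_mul, mul_one]
        · intro q _ hq
          rw [smul_mul_assoc, map_smul, B.dual q i hq, smul_zero]
        · intro h; exact absurd (Finset.mem_univ _) h
      rw [← h1]
      have h2 : φ (B.v j) = colB b ((γ : Matrix _ _ K) * (h : Matrix _ _ K)) j := by
        change φ (colB b (h : Matrix _ _ K) j) = _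
        rw [← hS2]
        unfold colB
        rw [S.g_sum]
        have h3 : ∀ i, S.g ((h : Matrix _ _ K) i j • b i) =
            ∑ q, ((γ : Matrix _ _ K) q i * (h : Matrix _ _ K) i j) • b q := by
          intro i
          rw [S.g_smul, hγ, hS1, Finset.smul_sum]
          refine Finset.sum_congr rfl fun q _ => ?_
          rw [smul_smul, mul_comm]
          rfl
        simp only [h3]
        rw [Finset.sum_comm]
        refine Finset.sum_congr rfl fun q _ => ?_
        rw [← Finset.sum_smul, Matrix.mul_apply]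
      rw [h2]
      change W.tr X (colB b _ j * rowB b' ((h⁻¹ : (Matrix _ _ K)ˣ) : Matrix _ _ K) i) = _
      rw [tr_col_row hd, Matrix.mul_assoc]
    rw [hδ']
    exact hmain
  · -- the determinant class
    have hr₀ : (((∑ i, z₀ i ^ 2).toNat : ℕ) : ℝ) = D * ∑ i, B₁.ξ i ^ 2 := by
      have h1 : (((∑ i, z₀ i ^ 2).toNat : ℕ) : ℤ) = ∑ i, z₀ i ^ 2 :=
        Int.toNat_of_nonneg (Finset.sum_nonneg fun i _ => sq_nonneg _)
      have h2 : (((∑ i, z₀ i ^ 2).toNat : ℕ) : ℝ) = ((∑ i, z₀ i ^ 2 : ℤ) : ℝ) := by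
        rw [← h1]; push_cast; rfl
      rw [h2, hDdef, Finset.mul_sum]
      push_cast
      refine Finset.sum_congr rfl fun i _ => ?_
      rw [hz₀R]
      change _ = (D₀ : ℝ) * D₀ * ξ i ^ 2
      ring
    exact det_main hn hd hspan B₁ (h := h) rfl rfl hP hmin hne hD hz hr₀ hT

end T2F
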