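import Pool.Agent.W_f569db_h13.Struct

set_option autoImplicit false

/-!
# Arrays of coordinates of classes on the powers of `X`, indexed by arbitrary finite types

`b : α → H(X)` is a basis of `H(X)` with dual basis `b'`.  An array `y : (ι → α) → K` stands for the class
`∑_c y c • ⊗_{i : ι} b (c i)` on `X^ι`.  Products, reindexings and contractions of classes are simple
pointwise operations on arrays.
-/

noncomputable section

namespace T2F

open AlgebraicGeometry CategoryTheory MonoidalCategory
open scoped TensorProduct DirectSum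
open Pool.Agent.WeilH_h6 Pool.Agent.WeilH_h6.VarClass Pool.Agent.WeilH_h6.Weil H13F

universe u v w

variable {k : Type u} [Field k] {𝒱 : VarClass k} {K : Type v} [Field K]

section defs

variable (W : Weil.{u, v, w} 𝒱 K) {X : 𝒱.Obj}

/-- The pure tensor `⊗_{i : ι} v i` on `X^ι`. -/
def pureI {ι : Type} [Fintype ι] (v : ι → W.H X) : W.H (X.pow (Fintype.card ι)) :=
  W.pureT fun s => v ((Fintype.equivFin ι).symm s)

variable {α : Type} [Fintype α]

/-- The class on `X^ι` with the coordinates `y` with respect to `b`. -/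
def clsI (b : α → W.H X) {ι : Type} [Fintype ι] [DecidableEq ι] (y : (ι → α) → K) :
    W.H (X.pow (Fintype.card ι)) :=
  ∑ c : ι → α, y c • pureI W fun i => b (c i)

/-- The unsigned pairing of an array with a family of elements of `H(X)`. -/
def flatI (b : α → W.H X) {ι : Type} [Fintype ι] [DecidableEq ι] (y : (ι → α) → K)
    (v : ι → W.H X) : K :=
  ∑ c : ι → α, y c * ∏ i, W.tr X (b (c i) * v i)

/-- The rank one operator attached to two arrays. -/
def rkI (b : α → W.H X) {ι : Type} [Fintype ι] [DecidableEq ι] (y z : (ι → α) → K) :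
    Matrix (ι → α) (ι → α) K :=
  Matrix.of fun a a' => y a * flatI W b z fun s => b (a' s)

/-- The array `y` is algebraic. -/
def AlgA (b : α → W.H X) {ι : Type} [Fintype ι] [DecidableEq ι] (y : (ι → α) → K) : Prop :=
  clsI W b y ∈ W.algSpan (X.pow (Fintype.card ι))

/-- The array `y` is numerically trivial (in particular algebraic). -/
def NTA (b : α → W.H X) {ι : Type} [Fintype ι] [DecidableEq ι] (y : (ι → α) → K) : Prop :=
  W.NT (clsI W b y)

/-- The array of coordinates of a pure tensor. -/
def prA (b' : α → W.H X) {ι : Type} [Fintype ι] (x : ι → W.H X) : (ι → α) → K :=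
  fun c => ∏ i, W.tr X (x i * b' (c i))

/-- The complete contraction of an array on `S ⊕ S` (slot `inl t` with slot `inr t`). -/
def matchA (b : α → W.H X) {S : Type} [Fintype S] [DecidableEq S] (T : (S ⊕ S → α) → K) : K :=
  ∑ u : S ⊕ S → α, T u * ∏ t : S, W.tr X (b (u (Sum.inl t)) * b (u (Sum.inr t)))

/-- The alternating sum of the `⊗_x w (σ x)` over the permutations `σ` which preserve `β`. -/
def altI {P : Type} [Fintype P] [DecidableEq P] {κ : Type} [DecidableEq κ] (w : P → W.H X)
    (β : P → κ) : W.H (X.pow (Fintype.card P)) :=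
  ∑ σ : Equiv.Perm P, if ∀ x, β (σ x) = β x then
    ((Equiv.Perm.sign σ : ℤ) : K) • pureI W fun x => w (σ x) else 0

end defs

/-- The antisymmetrisation of an array over the permutations which preserve `β`. -/
def asym {α : Type} {P : Type} [Fintype P] [DecidableEq P] {κ : Type} [DecidableEq κ]
    (β : P → κ) (A : (P → α) → K) : (P → α) → K :=
  fun c => ∑ σ : Equiv.Perm P, if ∀ x, β (σ x) = β x then
    ((Equiv.Perm.sign σ : ℤ) : K) * A (fun x => c (σ x)) else 0

/-- The slots of `⊗_{c < T} ∧_{ζ i ≤ -(c+1)} h_i`. -/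
abbrev Blk {α : Type} (ζ : α → ℤ) (T : ℕ) : Type := Σ c : Fin T, {i : α // ζ i ≤ -(((c : ℕ) : ℤ) + 1)}

/-- The coordinates, with respect to `b`, of `⊗_{c < T} ∧_{ζ i ≤ -(c+1)} h_i`, where
`h_i = ∑_q h q i • b q` (see `colB`). -/
def eps {α : Type} [Fintype α] [DecidableEq α] (h : Matrix α α K) (ζ : α → ℤ) (T : ℕ) :
    (Blk ζ T → α) → K :=
  fun c => (Matrix.of fun s s' : Blk ζ T => if s.1 = s'.1 then h (c s) s'.2.1 else 0).det

section wt

variable {W : Weil.{u, v, w} 𝒱 K} [CharZero K] {X : 𝒱.Obj} {hpar : W.par X ∈ W.algHom X X} {n : ℕ}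
  {α : Type} [Fintype α]

/-- The array `y` has weight at least `w` for the filtration `B.Fil`. -/
def WtA (B : NWB (W := W) (X := X) hpar n α) (b : α → W.H X) {ι : Type} [Fintype ι] [DecidableEq ι]
    (y : (ι → α) → K) (w : ℝ) : Prop :=
  ∀ (t : ι → ℝ) (x : ι → W.H X), (∀ i, x i ∈ B.Fil (t i)) → -w < ∑ i, t i → flatI W b y x = 0

/-- The array `T` is, up to reindexing, the product of an algebraic array `C` of weight `≥ w`
(numerically trivial if `w > 0`) and of `m` copies of the array `e`. -/
def RepA (B : NWB (W := W) (X := X) hpar n α) (b : α → W.H X) {P : Type} (e : (P → α) → K)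
    {ι : Type} (T : (ι → α) → K) (m : ℕ) (w : ℝ) : Prop :=
  ∃ (Q : Type) (_ : Fintype Q) (_ : DecidableEq Q) (C : (Q → α) → K) (g : Q ⊕ (P × Fin m) ≃ ι),
    AlgA W b C ∧ (0 < w → NTA W b C) ∧ WtA B b C w ∧
      ∀ c : ι → α, T c = C (fun q => c (g (Sum.inl q))) *
        ∏ j : Fin m, e (fun s => c (g (Sum.inr (s, j))))

end wt

section fam

variable {W : Weil.{u, v, w} 𝒱 K} {X : 𝒱.Obj} {α : Type} [Fintype α]

/-- External product of the first arrays of `r₀` pairs on `X^n` with an array on `P`. -/
def bigY {b : α → W.H X} {n r₀ : ℕ} {P : Type} (e : (P → α) → K) (q : Fin r₀ → PairS W b n) :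
    ((Fin r₀ × Fin n) ⊕ P → α) → K :=
  fun c => (∏ j, (q j).1.1 fun s => c (Sum.inl (j, s))) * e fun s => c (Sum.inr s)

/-- External product of the second arrays of `r₀` pairs on `X^n` with an array on `P`. -/
def bigZ {b : α → W.H X} {n r₀ : ℕ} {P : Type} (e : (P → α) → K) (q : Fin r₀ → PairS W b n) :
    ((Fin r₀ × Fin n) ⊕ P → α) → K :=
  fun c => (∏ j, (q j).2.1 fun s => c (Sum.inl (j, s))) * e fun s => c (Sum.inr s)

/-- The index set of the family: the ordinary members `inl q` and the distinguished members `inr q`. -/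
abbrev Lam (W : Weil.{u, v, w} 𝒱 K) {X : 𝒱.Obj} (b : α → W.H X) (n r₀ : ℕ) : Type v :=
  (Fin r₀ → PairS W b n) ⊕ (Fin r₀ → famZ (W := W) b n)

/-- The first arrays of the members of the family; `o` is used for the ordinary members, `e` for the
distinguished ones. -/
def lamY {b : α → W.H X} {n r₀ : ℕ} {P : Type} (o e : (P → α) → K) :
    Lam W b n r₀ → ((Fin r₀ × Fin n) ⊕ P → α) → K
  | Sum.inl q => bigY o q
  | Sum.inr q => bigY e fun j => (q j).1

/-- The second arrays of the members of the family. -/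
def lamZ {b : α → W.H X} {n r₀ : ℕ} {P : Type} (o e : (P → α) → K) :
    Lam W b n r₀ → ((Fin r₀ × Fin n) ⊕ P → α) → K
  | Sum.inl q => bigZ o q
  | Sum.inr q => bigZ e fun j => (q j).1

/-- The family: for the slots `P`, the ordinary members are completed by the rank one operator of the
pair of arrays `(o, o')`, the distinguished ones by the pair `(e, e)`. -/
def famT {b : α → W.H X} {n r₀ : ℕ} {P : Type} [Fintype P] [DecidableEq P] (o o' e : (P → α) → K)
    (l : Lam W b n r₀) : Matrix ((Fin r₀ × Fin n) ⊕ P → α) ((Fin r₀ × Fin n) ⊕ P → α) K :=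
  rkI W b (lamY o e l) (lamZ o' e l)

end fam

end T2F
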