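import Pool.Agent.W_f569db_t2.FiltDet
import Pool.Agent.W_f569db_t2.Defs

set_option autoImplicit false

noncomputable section

namespace T2F

open AlgebraicGeometry CategoryTheory MonoidalCategory
open scoped TensorProduct DirectSum
open Pool.Agent.WeilH_h6 Pool.Agent.WeilH_h6.VarClass Pool.Agent.WeilH_h6.Weil H13F

universe u v w

variable {k : Type u} [Field k] {𝒱 : VarClass k} {K : Type v} [Field K] {W : Weil.{u, v, w} 𝒱 K}

variable [CharZero K] {X : 𝒱.Obj}

/-- Proof: reindex the sum over the permutations by `Equiv.permCongr (Fintype.equivFin P)`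
(`Equiv.Perm.sign_permCongr`), `pureI`. -/
theorem detClass_eq_altI {P : Type} [Fintype P] [DecidableEq P] (w : P → W.H X) (β : P → ℤ × ℕ) :
    detClass W (fun s => w ((Fintype.equivFin P).symm s))
      (fun s => β ((Fintype.equivFin P).symm s)) = altI W w β := by
  unfold detClass altI
  symm
  refine Fintype.sum_equiv (Equiv.permCongr (Fintype.equivFin P)) _ _ fun σ => ?_
  refine if_congr ?_ ?_ rfl
  · constructor
    · intro h s
      have h1 := h ((Fintype.equivFin P).symm s)
      simp only [Equiv.permCongr_apply, Equiv.symm_apply_apply]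
      exact h1
    · intro h x
      have h1 := h (Fintype.equivFin P x)
      simp only [Equiv.permCongr_apply, Equiv.symm_apply_apply] at h1
      exact h1
  · rw [Equiv.Perm.sign_permCongr]
    unfold pureI
    congr 2
    funext s
    simp only [Equiv.permCongr_apply, Equiv.symm_apply_apply]

/-- `altI` depends on `β` only through its fibres.  Proof: the conditions are equivalent. -/
theorem altI_congr {P κ κ' : Type} [Fintype P] [DecidableEq P] [DecidableEq κ] [DecidableEq κ']
    (w : P → W.H X) (β : P → κ) (β' : P → κ') (h : ∀ x y, β x = β y ↔ β' x = β' y) :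
    altI W w β = altI W w β' := by
  unfold altI
  refine Finset.sum_congr rfl fun σ _ => ?_
  refine if_congr ?_ rfl rfl
  exact ⟨fun h' x => (h _ _).1 (h' x), fun h' x => (h _ _).2 (h' x)⟩

/-- The classes `par (B.v' i)`, `ζ i ≤ -t`, are a basis of `F^t = B.Fil t`; here `B` has the integral
weights `ζ`.

Proof.  Put `u i = par (B.v' i)`; then `tr (u i * B.v j) = tr (B.v j * B.v' i)` (`W.tr_comm`, `W.par_par`)
is `1` if `i = j` and `0` otherwise (`B.one`, `B.dual`), which gives the linear independence.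
`u i ∈ B.Fil (-ζ i) ⊆ B.Fil t` for `ζ i ≤ -t` by `B.v'_mem hn`, `B.T_mem hn hpar`, `B.Fil_anti`.
Conversely `x = ∑ j, tr (x * B.v j) • u j` for all `x` (same traces with all `B.v j`, which generate), and
if `x ∈ B.Fil t` and `tr (x * B.v j) ≠ 0` then `t + ζ j ≤ 0` by `B.tr_end_eq_zero hn
(W.id_mem_algHom X)` and `B.v_mem`. -/
theorem basis_fil {hpar : W.par X ∈ W.algHom X X} {n : ℕ} (hn : 2 ≤ n) {α : Type} [Fintype α]
    (B : NWB (W := W) (X := X) hpar n α) {ζ : α → ℤ} (hζ : ∀ i, B.ξ i = ζ i) (t : ℤ) :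
    LinearIndependent K (fun i : {i // ζ i ≤ -t} => W.par X (B.v' i)) ∧
      Submodule.span K (Set.range fun i : {i // ζ i ≤ -t} => W.par X (B.v' i)) = B.Fil (t : ℝ) := by
  classical
  have htr : ∀ (i : α) (y : W.H X), W.tr X (W.par X (B.v' i) * y) = W.tr X (y * B.v' i) := by
    intro i y
    rw [W.tr_comm, W.par_par]
  have hone : ∀ i j, W.tr X (W.par X (B.v' i) * B.v j) = if i = j then 1 else 0 := by
    intro i j
    rw [htr]
    split_ifs with hij
    · rw [← hij]; exact B.one i
    · exact B.dual j i (fun h => hij h.symm)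
  refine ⟨?_, ?_⟩
  · rw [Fintype.linearIndependent_iff]
    intro c hc i
    have h1 : W.tr X ((∑ j : {i // ζ i ≤ -t}, c j • W.par X (B.v' j)) * B.v i) = 0 := by
      rw [hc, zero_mul, map_zero]
    rw [Finset.sum_mul, map_sum, Finset.sum_eq_single i] at h1
    · rw [smul_mul_assoc, map_smul, hone, if_pos rfl, smul_eq_mul, mul_one] at h1
      exact h1
    · intro j _ hj
      rw [smul_mul_assoc, map_smul, hone, if_neg, smul_zero]
      exact fun h => hj (Subtype.ext h)
    · intro h; exact absurd (Finset.mem_univ _) h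
  · apply le_antisymm
    · rw [Submodule.span_le]
      rintro _ ⟨i, rfl⟩
      refine B.Fil_anti ?_ (B.T_mem hn hpar (B.v'_mem hn i))
      rw [hζ]
      have h1 := i.2
      have h2 : ((ζ (i : α) : ℤ) : ℝ) ≤ ((-t : ℤ) : ℝ) := by exact_mod_cast h1
      push_cast at h2
      linarith
    · intro x hx
      have hxe : x = ∑ j, W.tr X (x * B.v j) • W.par X (B.v' j) := by
        apply W.ext_tr
        intro y
        conv_lhs => rw [B.exp y]
        rw [Finset.mul_sum, map_sum, Finset.sum_mul, map_sum]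
        refine Finset.sum_congr rfl fun j _ => ?_
        rw [mul_smul_comm, map_smul, smul_mul_assoc, map_smul, htr, smul_eq_mul, smul_eq_mul,
          mul_comm]
      rw [hxe]
      refine Submodule.sum_mem _ fun j _ => ?_
      by_cases hj : ζ j ≤ -t
      · exact Submodule.smul_mem _ _ (Submodule.subset_span ⟨⟨j, hj⟩, rfl⟩)
      · have h1 : W.tr X (x * B.v j) = 0 := by
          have h2 := B.tr_end_eq_zero hn (W.id_mem_algHom X) hx (B.v_mem j) (by
            rw [hζ]
            push Not at hj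
            have h3 : ((-t : ℤ) : ℝ) < ((ζ j : ℤ) : ℝ) := by exact_mod_cast hj
            push_cast at h3
            linarith)
          exact h2
        rw [h1, zero_smul]
        exact Submodule.zero_mem _

theorem DetConv_ext {α : Type} {ζ : α → ℤ} {T : ℕ} (x y : Blk ζ T) (h1 : x.1 = y.1)
    (h2 : x.2.1 = y.2.1) : x = y := by
  obtain ⟨c, i, hi⟩ := x
  obtain ⟨c', i', hi'⟩ := y
  simp only at h1 h2
  subst h1
  subst h2
  rfl

/-- The determinant property of the filtration from the numerically trivial alternating class.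

Proof.  `P = Blk ζ T × Fin m`, `M = card P`, `N = m`, `w s = par (B.v' x.1.2.1)`,
`β s = ((x.1.1 : ℤ) + 1, x.2)` with `x = (equivFin P).symm s`.  `detClass_eq_altI`, `altI_congr`.  For
`1 ≤ t` and `j < m`: if `t ≤ T` the fibre of `β` over `(t, j)` is in bijection with `{i // ζ i ≤ -t}`
(`c = t - 1`), compatible with the vectors: `basis_fil` (`LinearIndependent` and ranges transported by the
equivalence).  If `T < t` the fibre is empty and `F^t = B.Fil t = ⊥` by `basis_fil` (no `i` has
`ζ i ≤ -t`). -/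
theorem detNum_of_altI {hpar : W.par X ∈ W.algHom X X} {n : ℕ} (hn : 2 ≤ n) {α : Type} [Fintype α]
    [DecidableEq α] (B : NWB (W := W) (X := X) hpar n α) {ζ : α → ℤ} (hζ : ∀ i, B.ξ i = ζ i) {T : ℕ}
    (hT : ∀ i, |ζ i| ≤ T) {m : ℕ} (hm : 0 < m)
    (h : W.NT (altI W (fun x : Blk ζ T × Fin m => W.par X (B.v' x.1.2.1)) fun x => (x.1.1, x.2)))
    (FB : Filt W X) (hF : ∀ t : ℤ, FB.F t = B.Fil (t : ℝ)) : FB.DetNum := by
  obtain ⟨e, he⟩ : ∃ e : Blk ζ T × Fin m ≃ Fin (Fintype.card (Blk ζ T × Fin m)),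
      e = Fintype.equivFin (Blk ζ T × Fin m) := ⟨_, rfl⟩
  have hcls : detClass W (fun s => W.par X (B.v' (e.symm s).1.2.1))
      (fun s => ((((e.symm s).1.1 : ℕ) : ℤ) + 1, ((e.symm s).2 : ℕ))) =
      altI W (fun x : Blk ζ T × Fin m => W.par X (B.v' x.1.2.1)) fun x => (x.1.1, x.2) := by
    rw [he]
    refine (detClass_eq_altI (W := W) (X := X)
      (fun x : Blk ζ T × Fin m => W.par X (B.v' x.1.2.1))
      (fun x : Blk ζ T × Fin m => (((x.1.1 : ℕ) : ℤ) + 1, (x.2 : ℕ)))).trans ?_
    refine altI_congr _ _ _ fun x y => ?_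
    simp only [Prod.mk.injEq]
    constructor
    · rintro ⟨h1, h2⟩
      exact ⟨Fin.ext (by omega), Fin.ext h2⟩
    · rintro ⟨h1, h2⟩
      rw [h1, h2]
      exact ⟨rfl, rfl⟩
  refine ⟨m, Fintype.card (Blk ζ T × Fin m), fun s => W.par X (B.v' (e.symm s).1.2.1),
    fun s => ((((e.symm s).1.1 : ℕ) : ℤ) + 1, ((e.symm s).2 : ℕ)), hm, ?_, ?_, ?_, ?_⟩
  · intro s
    exact ⟨by simp only; omega, (e.symm s).2.2⟩
  · intro t ht j hj
    rw [hF]
    obtain ⟨hli, hsp⟩ := basis_fil hn B hζ t
    obtain ⟨f, hf⟩ : ∃ f : {s // (fun s => ((((e.symm s).1.1 : ℕ) : ℤ) + 1,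
        ((e.symm s).2 : ℕ)) : Fin (Fintype.card (Blk ζ T × Fin m)) → ℤ × ℕ) s = (t, j)} →
        {i // ζ i ≤ -t}, ∀ s, (f s : α) = (e.symm s.1).1.2.1 := by
      refine ⟨fun s => ⟨(e.symm s.1).1.2.1, ?_⟩, fun s => rfl⟩
      have h1 := (e.symm s.1).1.2.2
      have h2 : (((e.symm s.1).1.1 : ℕ) : ℤ) + 1 = t := congrArg Prod.fst s.2
      omega
    have hinj : Function.Injective f := by
      intro s s' hss
      have h1 : (e.symm s.1).1.2.1 = (e.symm s'.1).1.2.1 := by rw [← hf, ← hf, hss]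
      have h2 : (((e.symm s.1).1.1 : ℕ) : ℤ) + 1 = t := congrArg Prod.fst s.2
      have h3 : (((e.symm s'.1).1.1 : ℕ) : ℤ) + 1 = t := congrArg Prod.fst s'.2
      have h4 : ((e.symm s.1).2 : ℕ) = j := congrArg Prod.snd s.2
      have h5 : ((e.symm s'.1).2 : ℕ) = j := congrArg Prod.snd s'.2
      apply Subtype.ext
      apply e.symm.injective
      apply Prod.ext
      · exact DetConv_ext _ _ (Fin.ext (by omega)) h1
      · exact Fin.ext (by omega)
    have hsur : Function.Surjective f := by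
      intro i
      have h1 := i.2
      have h2 := abs_le.1 (hT i.1)
      have h3 : (t - 1).toNat < T := by omega
      have h4 : (((t - 1).toNat : ℕ) : ℤ) + 1 = t := by omega
      have h5 : ζ i.1 ≤ -((((⟨(t - 1).toNat, h3⟩ : Fin T) : ℕ) : ℤ) + 1) := by
        change ζ i.1 ≤ -((((t - 1).toNat : ℕ) : ℤ) + 1)
        rw [h4]
        exact h1
      refine ⟨⟨e ((⟨⟨(t - 1).toNat, h3⟩, ⟨i.1, h5⟩⟩ : Blk ζ T), (⟨j, hj⟩ : Fin m)), ?_⟩, ?_⟩
      · simp only [Equiv.symm_apply_apply]
        rw [h4]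
      · apply Subtype.ext
        rw [hf]
        change (e.symm (e ((⟨⟨(t - 1).toNat, h3⟩, ⟨i.1, h5⟩⟩ : Blk ζ T),
          (⟨j, hj⟩ : Fin m)))).1.2.1 = i.1
        rw [Equiv.symm_apply_apply]
    have hfun : (fun s : {s // (fun s => ((((e.symm s).1.1 : ℕ) : ℤ) + 1,
        ((e.symm s).2 : ℕ)) : Fin (Fintype.card (Blk ζ T × Fin m)) → ℤ × ℕ) s = (t, j)} =>
        (fun s => W.par X (B.v' (e.symm s).1.2.1) :
          Fin (Fintype.card (Blk ζ T × Fin m)) → W.H X) s) =
        (fun i : {i // ζ i ≤ -t} => W.par X (B.v' i)) ∘ f := by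
      funext s
      simp only [Function.comp_apply]
      rw [hf]
    refine ⟨?_, ?_⟩
    · rw [hfun]
      exact hli.comp f hinj
    · rw [hfun, hsur.range_comp, hsp]
  · rw [hcls]
    exact h.1
  · intro a ha
    rw [hcls]
    exact h.2 a ha

end T2F
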