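import Pool.Agent.W_f569db_t2.FiltDet
import Pool.Agent.W_f569db_h13.Struct
import Pool.Agent.W_f569db_h13.Canon

set_option autoImplicit false

noncomputable section

namespace T2F

open AlgebraicGeometry CategoryTheory MonoidalCategory
open scoped TensorProduct DirectSum
open Pool.Agent.WeilH_h6 Pool.Agent.WeilH_h6.VarClass Pool.Agent.WeilH_h6.Weil H13F

universe u v w

variable {k : Type u} [Field k] {𝒱 : VarClass k} {K : Type v} [Field K] {W : Weil.{u, v, w} 𝒱 K}

variable [CharZero K] {X : 𝒱.Obj}

omit [CharZero K] in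
private theorem DetNe_functional {V : Type*} [AddCommGroup V] [Module K V] {ι : Type*}
    {x : ι → V} (hx : LinearIndependent K x) (i : ι) :
    ∃ l : V →ₗ[K] K, ∀ j, l (x j) = Finsupp.single j (1 : K) i := by
  obtain ⟨l, hl⟩ := LinearMap.exists_extend ((Finsupp.lapply i).comp hx.repr)
  refine ⟨l, fun j => ?_⟩
  have h1 := LinearMap.congr_fun hl ⟨x j, Submodule.subset_span ⟨j, rfl⟩⟩
  rw [LinearMap.comp_apply, Submodule.subtype_apply, LinearMap.comp_apply,
    hx.repr_eq_single j _ rfl, Finsupp.lapply_apply] at h1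
  exact h1

/-- The determinant class is not zero.

Proof.  For each value `p` of `β` the vectors `w s`, `β s = p`, are linearly independent, so there are
`u s ∈ H(X)` (`β s = p`) with `tr (w s' * u s) = 1` if `s' = s` and `0` if `s' ≠ s`, `β s' = β s` (extend to a
basis, take dual functionals, and use `exists_dual X` from `W_f569db_h13/Canon.lean` (import it), or
`W.pd` surjective).  By linearity of `fB hpar M · (W.pureT u)` (`fBL`) and `fB_pureT` the pairing of
`detClass W w β` with `W.pureT u` is `∑ σ, [..] sign σ * ∏ s, tr (w (σ s) * u s)`; since `β (σ s) = β s`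
the product is `0` unless `σ = 1`, when it is `1`.  So the pairing is `1 ≠ 0`. -/
theorem detClass_ne_zero (hpar : W.par X ∈ W.algHom X X) {M : ℕ} (w : Fin M → W.H X)
    (β : Fin M → ℤ × ℕ) (h : ∀ p, LinearIndependent K (fun s : {s // β s = p} => w s)) :
    detClass W w β ≠ 0 := by
  classical
  have hex : ∀ s : Fin M, ∃ y : W.H X, ∀ s' : Fin M, β s' = β s →
      W.tr X (w s' * y) = if s' = s then 1 else 0 := by
    intro s
    obtain ⟨l, hl⟩ := DetNe_functional (h (β s)) ⟨s, rfl⟩
    obtain ⟨y, hy⟩ := exists_dual X l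
    refine ⟨y, fun s' hs' => ?_⟩
    rw [hy]
    have h1 := hl ⟨s', hs'⟩
    rw [show l (w s') = Finsupp.single (⟨s', hs'⟩ : {t // β t = β s}) (1 : K) ⟨s, rfl⟩ from h1,
      Finsupp.single_apply]
    by_cases hss : s' = s
    · subst hss
      simp
    · rw [if_neg hss, if_neg (fun h2 => hss (congrArg Subtype.val h2))]
  choose u hu using hex
  intro h0
  have h1 : fBL hpar M (detClass W w β) (W.pureT u) = 1 := by
    unfold detClass
    rw [map_sum, LinearMap.sum_apply, Finset.sum_eq_single (1 : Equiv.Perm (Fin M))]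
    · have hone : ∀ s, β ((1 : Equiv.Perm (Fin M)) s) = β s := fun s => rfl
      rw [if_pos hone, map_smul, LinearMap.smul_apply, fBL_apply, fB_pureT,
        Equiv.Perm.sign_one]
      rw [Finset.prod_eq_one]
      · simp
      · intro s _
        rw [Equiv.Perm.one_apply, hu s s rfl, if_pos rfl]
    · intro σ _ hσ
      by_cases hβ : ∀ s, β (σ s) = β s
      · rw [if_pos hβ, map_smul, LinearMap.smul_apply, fBL_apply, fB_pureT]
        obtain ⟨s, hs⟩ : ∃ s, σ s ≠ s := by
          by_contra hc
          push Not at hc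
          exact hσ (Equiv.ext hc)
        rw [Finset.prod_eq_zero (Finset.mem_univ s), smul_zero]
        rw [hu s (σ s) (hβ s), if_neg hs]
      · rw [if_neg hβ, map_zero, LinearMap.zero_apply]
    · intro hn
      exact absurd (Finset.mem_univ _) hn
  rw [h0, map_zero, LinearMap.zero_apply] at h1
  exact zero_ne_one h1

end T2F
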