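import Pool.Agent.W_f569db_t2.Defs

set_option autoImplicit false

noncomputable section

namespace T2F

open AlgebraicGeometry CategoryTheory MonoidalCategory
open scoped TensorProduct DirectSum
open Pool.Agent.WeilH_h6 Pool.Agent.WeilH_h6.VarClass Pool.Agent.WeilH_h6.Weil H13F

universe u v w

variable {k : Type u} [Field k] {𝒱 : VarClass k} {K : Type v} [Field K] {W : Weil.{u, v, w} 𝒱 K}

variable {X : 𝒱.Obj} {α : Type} [Fintype α] {b : α → W.H X}

/-- Proof: reindex the sum over `u : S ⊕ S → α` by `(q, p)`, `u = Sum.elim q p ∘ e.symm`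
(`Equiv.arrowCongr e`, `Equiv.sumArrowEquivProdArrow`). -/
theorem matchA_eq {Q P S : Type} [Fintype Q] [DecidableEq Q] [Fintype P] [DecidableEq P]
    [Fintype S] [DecidableEq S] (e : Q ⊕ P ≃ S ⊕ S) {C : (Q → α) → K} {E : (P → α) → K}
    {A : (P → α) → K} (hA : ∀ v : P → W.H X,
      flatI W b A v = ∑ q : Q → α, C q * ∏ t : S,
        W.tr X (Sum.elim (fun i => b (q i)) v (e.symm (Sum.inl t)) *
          Sum.elim (fun i => b (q i)) v (e.symm (Sum.inr t)))) {T : (S ⊕ S → α) → K}
    (hT : ∀ u, T u = C (fun q => u (e (Sum.inl q))) * E fun p => u (e (Sum.inr p))) :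
    matchA W b T = ∑ p : P → α, E p * flatI W b A fun s => b (p s) := by
  unfold matchA
  let Ψ : (Q → α) × (P → α) ≃ (S ⊕ S → α) :=
    (Equiv.sumArrowEquivProdArrow Q P α).symm.trans (Equiv.arrowCongr e (Equiv.refl α))
  rw [← Ψ.sum_comp, Fintype.sum_prod_type_right]
  refine Finset.sum_congr rfl fun p _ => ?_
  rw [hA, Finset.mul_sum]
  refine Finset.sum_congr rfl fun q _ => ?_
  have hΨ : ∀ x, Ψ (q, p) x = Sum.elim q p (e.symm x) := fun x => rfl
  have h1 : (fun i => Ψ (q, p) (e (Sum.inl i))) = q := by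
    funext i
    rw [hΨ, Equiv.symm_apply_apply]
    rfl
  have h2 : (fun i => Ψ (q, p) (e (Sum.inr i))) = p := by
    funext i
    rw [hΨ, Equiv.symm_apply_apply]
    rfl
  have h3 : ∀ x, b (Sum.elim q p x) = Sum.elim (fun i => b (q i)) (fun s => b (p s)) x := by
    rintro (x | x) <;> rfl
  rw [hT, h1, h2, mul_comm (C q), mul_assoc]
  have h4 : ∏ t : S, W.tr X (b (Ψ (q, p) (Sum.inl t)) * b (Ψ (q, p) (Sum.inr t))) =
      ∏ t : S, W.tr X
        (Sum.elim (fun i => b (q i)) (fun s => b (p s)) (e.symm (Sum.inl t)) *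
          Sum.elim (fun i => b (q i)) (fun s => b (p s)) (e.symm (Sum.inr t))) := by
    refine Finset.prod_congr rfl fun t _ => ?_
    rw [hΨ, hΨ, h3, h3]
  rw [h4]

/-- The trace invariants of the operators `rkI y z` as complete contractions.

Proof: `rkI`, `flatI`; expand the product over `k` of the sums (`Finset.prod_univ_sum`,
`Fintype.piFinset_univ`), `Finset.mul_sum`, `Finset.sum_comm`; the pair of `a : Fin (d+1) × ι → α` and
`c : Fin (d+1) → ι → α` corresponds to `u : (Fin (d+1) × ι) ⊕ (Fin (d+1) × ι) → α` with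
`u (inl (k, s)) = c k s` and `u (inr x) = a (σ x)`, i.e. `a x = u (inr (σ.symm x))` (compare the end of
the proof of `trace_fam`). -/
theorem trace_eq {ι : Type} [Fintype ι] [DecidableEq ι] (d : ℕ) (y z : Fin (d + 1) → (ι → α) → K)
    (σ : Equiv.Perm (Fin (d + 1) × ι)) :
    ∑ a : Fin (d + 1) × ι → α, ∏ j, rkI W b (y j) (z j) (fun s => a (j, s)) (fun s => a (σ (j, s))) =
      matchA W b fun u : (Fin (d + 1) × ι) ⊕ (Fin (d + 1) × ι) → α =>
        ∏ j, ((z j fun s => u (Sum.inl (j, s))) * y j fun s => u (Sum.inr (σ.symm (j, s)))) := by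
  have h1 : ∀ a : Fin (d + 1) × ι → α,
      ∏ j, rkI W b (y j) (z j) (fun s => a (j, s)) (fun s => a (σ (j, s))) =
        ∑ c : Fin (d + 1) → ι → α, ∏ j, (y j (fun s => a (j, s)) *
          (z j (c j) * ∏ s, W.tr X (b (c j s) * b (a (σ (j, s)))))) := by
    intro a
    have h2 : ∀ j, rkI W b (y j) (z j) (fun s => a (j, s)) (fun s => a (σ (j, s))) =
        ∑ c : ι → α, y j (fun s => a (j, s)) *
          (z j c * ∏ s, W.tr X (b (c s) * b (a (σ (j, s))))) := by
      intro j
      change y j (fun s => a (j, s)) *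
        ∑ c : ι → α, z j c * ∏ s, W.tr X (b (c s) * b (a (σ (j, s)))) = _
      rw [Finset.mul_sum]
    simp only [h2]
    rw [Finset.prod_univ_sum, Fintype.piFinset_univ]
  simp only [h1]
  unfold matchA
  let Ψ : (Fin (d + 1) × ι → α) × (Fin (d + 1) → ι → α) ≃
      ((Fin (d + 1) × ι) ⊕ (Fin (d + 1) × ι) → α) :=
    (((Equiv.arrowCongr σ.symm (Equiv.refl α)).prodCongr
      (Equiv.curry (Fin (d + 1)) ι α).symm).trans (Equiv.prodComm _ _)).trans
        (Equiv.sumArrowEquivProdArrow _ _ α).symm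
  rw [← Ψ.sum_comp, Fintype.sum_prod_type]
  refine Finset.sum_congr rfl fun a _ => Finset.sum_congr rfl fun c _ => ?_
  have hl : ∀ j s, Ψ (a, c) (Sum.inl (j, s)) = c j s := fun j s => rfl
  have hr : ∀ t, Ψ (a, c) (Sum.inr t) = a (σ t) := fun t => rfl
  simp only [hl, hr, Equiv.apply_symm_apply]
  rw [Fintype.prod_prod_type, ← Finset.prod_mul_distrib]
  refine Finset.prod_congr rfl fun j _ => ?_
  simp only [hl, hr]
  ring

end T2F
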