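import Pool.Agent.W_f569db_t2.FlatI

set_option autoImplicit false

noncomputable section

namespace T2F

open AlgebraicGeometry CategoryTheory MonoidalCategory
open scoped TensorProduct DirectSum
open Pool.Agent.WeilH_h6 Pool.Agent.WeilH_h6.VarClass Pool.Agent.WeilH_h6.Weil H13F

universe u v w

variable {k : Type u} [Field k] {𝒱 : VarClass k} {K : Type v} [Field K] {W : Weil.{u, v, w} 𝒱 K}

variable [CharZero K] {X : 𝒱.Obj} {hpar : W.par X ∈ W.algHom X X} {n : ℕ} {α : Type} [Fintype α]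
  (B : NWB (W := W) (X := X) hpar n α) {b : α → W.H X}

/-- Proof: by `B.exp` and the dual basis: `tr (par (B.v' j) * B.v i) = tr (B.v i * B.v' j)`
(`W.tr_comm`, `W.par_par`), so both sides have the same trace with all `B.v i`, which generate;
`W.ext_tr`-type lemma. -/
theorem exp_dual (x : W.H X) : x = ∑ j, W.tr X (x * B.v j) • W.par X (B.v' j) := by
  refine W.ext_tr fun u => ?_
  have h1 : ∀ j, W.tr X (W.par X (B.v' j) * u) = W.tr X (u * B.v' j) := by
    intro j
    rw [← W.tr_par (W.par X (B.v' j) * u), W.par_mul, W.par_par, ← W.tr_comm]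
  have h2 : W.tr X (x * u) = ∑ j, W.tr X (u * B.v' j) * W.tr X (x * B.v j) := by
    conv_lhs => rw [B.exp u]
    rw [Finset.mul_sum, map_sum]
    refine Finset.sum_congr rfl fun j _ => ?_
    rw [mul_smul_comm, map_smul, smul_eq_mul]
  rw [h2, Finset.sum_mul, map_sum]
  refine Finset.sum_congr rfl fun j _ => ?_
  rw [smul_mul_assoc, map_smul, smul_eq_mul, h1, mul_comm]

omit [CharZero K] in
theorem WtContr_key (W : Weil.{u, v, w} 𝒱 K) (X : 𝒱.Obj) (S : Type) [Fintype S]
    [DecidableEq (S ⊕ S)] (z : S ⊕ S → W.H X) (i : S ⊕ S) : ∃ (c : K) (L : W.H X →ₗ[K] K), ∀ y,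
      ∏ t : S, W.tr X (Function.update z i y (Sum.inl t) * Function.update z i y (Sum.inr t)) =
        L y * c := by
  classical
  obtain ⟨t₀, L, h1, h2⟩ : ∃ (t₀ : S) (L : W.H X →ₗ[K] K),
      (∀ y, W.tr X (Function.update z i y (Sum.inl t₀) * Function.update z i y (Sum.inr t₀)) = L y) ∧
      ∀ t, t ≠ t₀ → ∀ y, W.tr X (Function.update z i y (Sum.inl t) *
        Function.update z i y (Sum.inr t)) = W.tr X (z (Sum.inl t) * z (Sum.inr t)) := by
    rcases i with i | i
    · refine ⟨i, (W.tr X).comp (LinearMap.mulRight K (z (Sum.inr i))), ?_, ?_⟩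
      · intro y
        rw [Function.update_self, Function.update_of_ne (by simp)]
        rfl
      · intro t ht y
        rw [Function.update_of_ne (fun h => ht (Sum.inl.inj h)), Function.update_of_ne (by simp)]
    · refine ⟨i, (W.tr X).comp (LinearMap.mulLeft K (z (Sum.inl i))), ?_, ?_⟩
      · intro y
        rw [Function.update_self, Function.update_of_ne (by simp)]
        rfl
      · intro t ht y
        rw [Function.update_of_ne (by simp), Function.update_of_ne (fun h => ht (Sum.inr.inj h))]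
  refine ⟨∏ t ∈ Finset.univ.erase t₀, W.tr X (z (Sum.inl t) * z (Sum.inr t)), L, fun y => ?_⟩
  rw [← Finset.mul_prod_erase Finset.univ _ (Finset.mem_univ t₀), h1]
  congr 1
  refine Finset.prod_congr rfl fun t ht => ?_
  exact h2 t (Finset.ne_of_mem_erase ht) y

omit [CharZero K] in
/-- The product of the traces of the pairs, as a multilinear map. -/
theorem WtContr_M (W : Weil.{u, v, w} 𝒱 K) (X : 𝒱.Obj) (S : Type) [Fintype S] :
    ∃ M : MultilinearMap K (fun _ : S ⊕ S => W.H X) K,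
      ∀ z, M z = ∏ t : S, W.tr X (z (Sum.inl t) * z (Sum.inr t)) := by
  refine ⟨{ toFun := fun z => ∏ t : S, W.tr X (z (Sum.inl t) * z (Sum.inr t))
            map_update_add' := ?_
            map_update_smul' := ?_ }, fun z => rfl⟩
  · intro inst z i x y
    obtain ⟨c, L, h1⟩ := WtContr_key W X S z i
    rw [h1, h1, h1, map_add, add_mul]
  · intro inst z i a y
    obtain ⟨c, L, h1⟩ := WtContr_key W X S z i
    rw [h1, h1, map_smul, smul_eq_mul, smul_eq_mul, mul_assoc]

omit [CharZero K] in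
theorem WtContr_F (W : Weil.{u, v, w} 𝒱 K) (X : 𝒱.Obj) {Q P S : Type} [Fintype Q] [Fintype P]
    [Fintype S] (e : Q ⊕ P ≃ S ⊕ S) :
    ∃ F : MultilinearMap K (fun _ : Q => W.H X) (MultilinearMap K (fun _ : P => W.H X) K),
      ∀ u x, F u x = ∏ t : S, W.tr X (Sum.elim u x (e.symm (Sum.inl t)) *
        Sum.elim u x (e.symm (Sum.inr t))) := by
  obtain ⟨M, hM⟩ := WtContr_M W X S
  refine ⟨MultilinearMap.currySum (MultilinearMap.domDomCongr e.symm M), fun u x => ?_⟩
  rw [MultilinearMap.currySum_apply, MultilinearMap.domDomCongr_apply, hM]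
  refine Finset.prod_congr rfl fun t _ => ?_
  have h : ∀ i : Q ⊕ P, (Sum.rec u x i : W.H X) = Sum.elim u x i := by
    intro i
    rcases i with i | i <;> rfl
  rw [h, h]

/-- The weight of a contraction.

Proof.  Let `v p ∈ Fil (t p)` with `-w < ∑ t`.  Put `Φ(u) = ∏ t, tr (z (inl t) * z (inr t))` with
`z = Sum.elim u v ∘ e.symm`, multilinear in `u : Q → H(X)`.  Expanding `b i = ∑_j tr (b i * B.v j) • ṽ_j`,
`ṽ_j = par (B.v' j)` (`exp_dual`), we get `∑_q C q * Φ(b ∘ q) = ∑_{r : Q → α} flatI W b C (B.v ∘ r) * Φ(ṽ ∘ r)`.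
For each `r`: if `flatI W b C (B.v ∘ r) ≠ 0` then `∑ i, B.ξ (r i) ≤ -w` by `hC` (as `B.v_mem`).  Now
`ṽ_j ∈ Fil (-ξ j)` (`B.v'_mem hn`, `B.T_mem hn hpar`), so with `s : S ⊕ S → ℝ`,
`s = Sum.elim (-ξ ∘ r) t ∘ e.symm`, the sum of all the levels is `-∑ ξ (r i) + ∑ t > 0`; hence for some
`t₀ : S` the sum `s (inl t₀) + s (inr t₀)` is positive, and this factor is zero by
`B.tr_end_eq_zero hn (W.id_mem_algHom X)`. -/
theorem WtA.contr (hn : 2 ≤ n) {Q P S : Type} [Fintype Q] [DecidableEq Q] [Fintype P] [DecidableEq P]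
    [Fintype S] (e : Q ⊕ P ≃ S ⊕ S) {C : (Q → α) → K} {w : ℝ} (hC : WtA B b C w)
    {A : (P → α) → K} (hA : ∀ v : P → W.H X,
      flatI W b A v = ∑ q : Q → α, C q * ∏ t : S,
        W.tr X (Sum.elim (fun i => b (q i)) v (e.symm (Sum.inl t)) *
          Sum.elim (fun i => b (q i)) v (e.symm (Sum.inr t)))) : WtA B b A w := by
  intro t x hx ht
  obtain ⟨F, hF⟩ := WtContr_F W X e
  have h1 : flatI W b A x = ∑ q : Q → α, C q * F (fun i => b (q i)) x := by
    rw [hA x]
    refine Finset.sum_congr rfl fun q _ => ?_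
    rw [hF]
  have h2 : ∀ q : Q → α, F (fun i => b (q i)) x =
      ∑ r : Q → α, (∏ i, W.tr X (b (q i) * B.v (r i))) *
        F (fun i => W.par X (B.v' (r i))) x := by
    intro q
    have h3 : (fun i => b (q i)) =
        fun i => ∑ j, W.tr X (b (q i) * B.v j) • W.par X (B.v' j) := by
      funext i
      exact exp_dual B (b (q i))
    conv_lhs => rw [h3]
    rw [MultilinearMap.map_sum, MultilinearMap.sum_apply]
    refine Finset.sum_congr rfl fun r _ => ?_
    rw [MultilinearMap.map_smul_univ, MultilinearMap.smul_apply, smul_eq_mul]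
  have h4 : flatI W b A x = ∑ r : Q → α, flatI W b C (fun i => B.v (r i)) *
      F (fun i => W.par X (B.v' (r i))) x := by
    rw [h1]
    have h5 : ∀ q : Q → α, C q * F (fun i => b (q i)) x =
        ∑ r : Q → α, C q * (∏ i, W.tr X (b (q i) * B.v (r i))) *
          F (fun i => W.par X (B.v' (r i))) x := by
      intro q
      rw [h2, Finset.mul_sum]
      refine Finset.sum_congr rfl fun r _ => ?_
      rw [mul_assoc]
    rw [Finset.sum_congr rfl fun q _ => h5 q, Finset.sum_comm]
    refine Finset.sum_congr rfl fun r _ => ?_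
    unfold flatI
    rw [Finset.sum_mul]
  rw [h4]
  refine Finset.sum_eq_zero fun r _ => ?_
  by_contra h0
  have h5 : flatI W b C (fun i => B.v (r i)) ≠ 0 := left_ne_zero_of_mul h0
  have h6 : F (fun i => W.par X (B.v' (r i))) x ≠ 0 := right_ne_zero_of_mul h0
  have h7 : ∑ i, B.ξ (r i) ≤ -w := by
    by_contra h8
    exact h5 (hC (fun i => B.ξ (r i)) _ (fun i => B.v_mem (r i)) (not_le.1 h8))
  rw [hF] at h6
  have h8 : ∀ i : Q ⊕ P, Sum.elim (fun i => W.par X (B.v' (r i))) x i ∈
      B.Fil (Sum.elim (fun i => -B.ξ (r i)) t i) := by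
    intro i
    rcases i with i | i
    · exact B.T_mem hn hpar (B.v'_mem hn (r i))
    · exact hx i
  have h9 : ∀ s : S, Sum.elim (fun i => -B.ξ (r i)) t (e.symm (Sum.inl s)) +
      Sum.elim (fun i => -B.ξ (r i)) t (e.symm (Sum.inr s)) ≤ 0 := by
    intro s
    by_contra h10
    exact Finset.prod_ne_zero_iff.1 h6 s (Finset.mem_univ _)
      (B.tr_end_eq_zero hn (W.id_mem_algHom X) (h8 _) (h8 _) (not_le.1 h10))
  have h10 : ∑ i : Q ⊕ P, Sum.elim (fun i => -B.ξ (r i)) t i ≤ 0 := by
    rw [← e.symm.sum_comp, Fintype.sum_sum_type, ← Finset.sum_add_distrib]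
    exact Finset.sum_nonpos fun s _ => h9 s
  rw [Fintype.sum_sum_type] at h10
  simp only [Sum.elim_inl, Sum.elim_inr, Finset.sum_neg_distrib] at h10
  linarith

end T2F
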