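import Pool.Agent.W_f569db_t2.RepTot
import Pool.Agent.W_f569db_t2.ContrA
import Pool.Agent.W_f569db_t2.WtContr
import Pool.Agent.W_f569db_t2.MatchA

set_option autoImplicit false

noncomputable section

namespace T2F

open AlgebraicGeometry CategoryTheory MonoidalCategory
open scoped TensorProduct DirectSum
open Pool.Agent.WeilH_h6 Pool.Agent.WeilH_h6.VarClass Pool.Agent.WeilH_h6.Weil H13F

universe u v w

variable {k : Type u} [Field k] {𝒱 : VarClass k} {K : Type v} [Field K] {W : Weil.{u, v, w} 𝒱 K}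

variable [CharZero K] {X : 𝒱.Obj} {hpar : W.par X ∈ W.algHom X X} {n : ℕ} {α : Type} [Fintype α]
  [DecidableEq α] (B : NWB (W := W) (X := X) hpar n α) {b : α → W.H X}

/-- If the family `famT` is not destabilised by any weighted basis, then there is a numerically trivial
array of weight `≥ N r₀` on `P × Fin (2 N)` which is not orthogonal to `e^{⊗ 2N}`.

Proof.  By `core_K` (contrapositive) some trace invariant with a distinguished member is not `0`.  By
`trace_eq` it is `matchA W b T` with the array `T` of `rep_total`; unpack `RepA`: `T = C ⊠ e^{⊗ 2N}` up to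
the reindexing `g`.  `exists_contr` (with `e := g`) gives `A`; `C` is numerically trivial as
`0 < N * r₀`; `WtA.contr` gives the weight and `matchA_eq` gives
`matchA W b T = ∑ p, (∏ j, e (p (·, j))) * flatI W b A (b ∘ p)`. -/
theorem exists_A (hn : 2 ≤ n) (hb : ∀ x, x ∈ Submodule.span K (Set.range b)) {P : Type} [Fintype P]
    [DecidableEq P] {o o' e : (P → α) → K} (ho : AlgA W b o) (ho' : AlgA W b o')
    (hwo : WtA B b o 0) (hwo' : WtA B b o' 0) {r₀ : ℕ} (hr₀ : 0 < r₀)
    (hnp : ¬ ∃ (h : (Matrix α α K)ˣ) (ξ : α → ℝ), PosS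
      (Set.range (famT (W := W) (b := b) (n := n) (r₀ := r₀) o o' e))
      (famT (W := W) (b := b) (n := n) (r₀ := r₀) o o' e '' Set.range Sum.inr) h ξ) :
    ∃ N : ℕ, 0 < N ∧ ∃ A : (P × Fin (2 * N) → α) → K, NTA W b A ∧ WtA B b A (N * r₀) ∧
      ∑ p : P × Fin (2 * N) → α, (∏ j, e fun s => p (s, j)) * flatI W b A (fun s => b (p s)) ≠ 0 := by
  have h1 : ∃ (d : ℕ) (v : Fin (d + 1) → Lam W b n r₀), (∃ j, v j ∈ Set.range Sum.inr) ∧
      ∃ σ : Equiv.Perm (Fin (d + 1) × ((Fin r₀ × Fin n) ⊕ P)),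
      ∑ a : Fin (d + 1) × ((Fin r₀ × Fin n) ⊕ P) → α,
        ∏ j, famT (W := W) (b := b) (n := n) (r₀ := r₀) o o' e (v j) (fun s => a (j, s))
          (fun s => a (σ (j, s))) ≠ 0 := by
    by_contra hcon
    apply hnp
    refine core_K (Set.range Sum.inr) (famT (W := W) (b := b) (n := n) (r₀ := r₀) o o' e) ?_
    intro d v hv σ
    by_contra h0
    exact hcon ⟨d, v, hv, σ, h0⟩
  obtain ⟨d, v, hv, σ, hne⟩ := h1
  have hne2 := hne
  simp only [famT] at hne2
  rw [trace_eq] at hne2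
  obtain ⟨N, hN, Q, hQ, hQ', C, g, hC, hCN, hCw, hT⟩ := rep_total B ho ho' hwo hwo' v hv σ
  have hw : (0 : ℝ) < N * r₀ := mul_pos (Nat.cast_pos.2 hN) (Nat.cast_pos.2 hr₀)
  obtain ⟨A, hA, hAN, hAf⟩ := exists_contr hpar hb g hC
  refine ⟨N, hN, A, hAN (hCN hw), WtA.contr B hn g hCw hAf, ?_⟩
  rw [matchA_eq g (E := fun p => ∏ j, e (fun s => p (s, j))) hAf hT] at hne2
  exact hne2

end T2F
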