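import Pool.Agent.W_f569db_t2.Rep

set_option autoImplicit false

noncomputable section

namespace T2F

open AlgebraicGeometry CategoryTheory MonoidalCategory
open scoped TensorProduct DirectSum
open Pool.Agent.WeilH_h6 Pool.Agent.WeilH_h6.VarClass Pool.Agent.WeilH_h6.Weil H13F

universe u v w

variable {k : Type u} [Field k] {𝒱 : VarClass k} {K : Type v} [Field K] {W : Weil.{u, v, w} 𝒱 K}

variable [CharZero K] {X : 𝒱.Obj} {hpar : W.par X ∈ W.algHom X X} {n : ℕ} {α : Type} [Fintype α]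
  (B : NWB (W := W) (X := X) hpar n α) {b : α → W.H X}

/-- an array on `Fin n` whose class is algebraic -/
theorem RepFam_alg (hpar : W.par X ∈ W.algHom X X) {y : (Fin n → α) → K}
    (h : cls W b n y ∈ W.algSpan (X.pow n)) : AlgA W b y :=
  (algA_iff hpar (Equiv.refl (Fin n)) y).2 h

theorem RepFam_nt (hpar : W.par X ∈ W.algHom X X) {y : (Fin n → α) → K}
    (h : W.NT (cls W b n y)) : NTA W b y :=
  (ntA_iff hpar (Equiv.refl (Fin n)) y).2 h

/-- the reindexing of the members of the family -/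
def RepFam_g (r₀ n : ℕ) (P : Type) : (Fin r₀ × (Fin n ⊕ Fin n)) ⊕ (P ⊕ P) ≃
    ((Fin r₀ × Fin n) ⊕ P) ⊕ ((Fin r₀ × Fin n) ⊕ P) :=
  (Equiv.sumCongr (Equiv.prodSumDistrib (Fin r₀) (Fin n) (Fin n)) (Equiv.refl (P ⊕ P))).trans
    (Equiv.sumSumSumComm (Fin r₀ × Fin n) (Fin r₀ × Fin n) P P)

/-- A pair of algebraic arrays on `X^n` as an array on `Fin n ⊕ Fin n`.
Proof: `RepA.of_alg`, `AlgA.box` (by `algA_iff hpar (Equiv.refl _)` an array `y : (Fin n → α) → K` with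
`cls W b n y ∈ algSpan` is algebraic), `WtA.of_alg`, `WtA.box` (`w = 0 + 0`). -/
theorem rep_pair {P : Type} (e : (P → α) → K) (p : PairS W b n) :
    RepA B b e (fun u : Fin n ⊕ Fin n → α =>
      (p.2.1 fun s => u (Sum.inl s)) * p.1.1 fun s => u (Sum.inr s)) 0 0 := by
  have h1 : AlgA W b p.1.1 := RepFam_alg hpar p.1.2
  have h2 : AlgA W b p.2.1 := RepFam_alg hpar p.2.2
  have hc : Fintype.card (Fin n) ≤ n := (Fintype.card_fin n).le
  have h3 := WtA.box B (WtA.of_alg B hc h2) (WtA.of_alg B hc h1)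
  rw [add_zero] at h3
  exact RepA.of_alg B (AlgA.box hpar h2 h1) (fun h => absurd h (lt_irrefl _)) h3

/-- The same for a distinguished pair: numerically trivial, of weight `≥ 1`.
Proof: `NTA.box_left` or `NTA.box_right`, `WtA.of_nt` for the numerically trivial array, `WtA.of_alg` for
the other one. -/
theorem rep_pairZ {P : Type} (e : (P → α) → K) (p : famZ (W := W) b n) :
    RepA B b e (fun u : Fin n ⊕ Fin n → α =>
      (p.1.2.1 fun s => u (Sum.inl s)) * p.1.1.1 fun s => u (Sum.inr s)) 0 1 := by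
  have h1 : AlgA W b p.1.1.1 := RepFam_alg hpar p.1.1.2
  have h2 : AlgA W b p.1.2.1 := RepFam_alg hpar p.1.2.2
  have hc : Fintype.card (Fin n) ≤ n := (Fintype.card_fin n).le
  rcases p.2 with h | h
  · have hn : NTA W b p.1.1.1 := RepFam_nt hpar h
    have h3 := WtA.box B (WtA.of_alg B hc h2) (WtA.of_nt B hc hn)
    rw [zero_add] at h3
    exact RepA.of_alg B (AlgA.box hpar h2 h1) (fun _ => NTA.box_right hpar h2 hn) h3
  · have hn : NTA W b p.1.2.1 := RepFam_nt hpar h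
    have h3 := WtA.box B (WtA.of_nt B hc hn) (WtA.of_alg B hc h1)
    rw [add_zero] at h3
    exact RepA.of_alg B (AlgA.box hpar h2 h1) (fun _ => NTA.box_left hpar hn h1) h3

/-- An ordinary member.  Proof: `RepA.prod` of the `rep_pair`, `RepA.mul` with `RepA.of_alg` for
`o' ⊠ o` on `P ⊕ P` (`AlgA.box`, `WtA.box`), and `RepA.reindex` for
`(Fin r₀ × (Fin n ⊕ Fin n)) ⊕ (P ⊕ P) ≃ ((Fin r₀ × Fin n) ⊕ P) ⊕ ((Fin r₀ × Fin n) ⊕ P)`;
`Finset.prod_mul_distrib`. -/
theorem rep_inl {P : Type} [Fintype P] [DecidableEq P] {o o' e : (P → α) → K} (ho : AlgA W b o)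
    (ho' : AlgA W b o') (hwo : WtA B b o 0) (hwo' : WtA B b o' 0) {r₀ : ℕ}
    (q : Fin r₀ → PairS W b n) :
    RepA B b e (fun u : ((Fin r₀ × Fin n) ⊕ P) ⊕ ((Fin r₀ × Fin n) ⊕ P) → α =>
      (bigZ o' q fun s => u (Sum.inl s)) * bigY o q fun s => u (Sum.inr s)) 0 0 := by
  have h1 := RepA.prod B (fun _ : Fin r₀ => le_refl (0 : ℝ)) fun j : Fin r₀ => rep_pair B e (q j)
  have h3 := WtA.box B hwo' hwo
  rw [add_zero] at h3
  have h2 : RepA B b e (fun c : P ⊕ P → α => (o' fun i => c (Sum.inl i)) * o fun i => c (Sum.inr i))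
      0 0 := RepA.of_alg B (AlgA.box hpar ho' ho) (fun h => absurd h (lt_irrefl _)) h3
  have h4 := RepA.mul B (Finset.sum_nonneg fun _ _ => le_refl (0 : ℝ)) (le_refl (0 : ℝ)) h1 h2
  have h5 := RepA.reindex B (RepFam_g r₀ n P) h4
  rw [Finset.sum_const_zero, Finset.sum_const_zero, add_zero, add_zero] at h5
  have h6 : (fun u : ((Fin r₀ × Fin n) ⊕ P) ⊕ ((Fin r₀ × Fin n) ⊕ P) → α =>
      (bigZ o' q fun s => u (Sum.inl s)) * bigY o q fun s => u (Sum.inr s)) =
      fun u : ((Fin r₀ × Fin n) ⊕ P) ⊕ ((Fin r₀ × Fin n) ⊕ P) → α =>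
        (∏ j, ((q j).2.1 fun s => u (RepFam_g r₀ n P (Sum.inl (j, Sum.inl s)))) *
          (q j).1.1 fun s => u (RepFam_g r₀ n P (Sum.inl (j, Sum.inr s)))) *
        ((o' fun s => u (RepFam_g r₀ n P (Sum.inr (Sum.inl s)))) *
          o fun s => u (RepFam_g r₀ n P (Sum.inr (Sum.inr s)))) := by
    funext u
    rw [Finset.prod_mul_distrib, mul_mul_mul_comm]
    rfl
  rw [h6]
  exact h5

/-- A distinguished member.  Proof: the same with `rep_pairZ` and with `RepA.single` twice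
(`RepA.mul`) for `e ⊠ e` on `P ⊕ P`; the weights: `∑ j : Fin r₀, 1 = r₀`. -/
theorem rep_inr {P : Type} {e : (P → α) → K} {r₀ : ℕ} (q : Fin r₀ → famZ (W := W) b n) :
    RepA B b e (fun u : ((Fin r₀ × Fin n) ⊕ P) ⊕ ((Fin r₀ × Fin n) ⊕ P) → α =>
      (bigZ e (fun j => (q j).1) fun s => u (Sum.inl s)) * bigY e (fun j => (q j).1) fun s =>
        u (Sum.inr s)) 2 r₀ := by
  have h1 := RepA.prod B (fun _ : Fin r₀ => zero_le_one (α := ℝ)) fun j : Fin r₀ =>
    rep_pairZ B e (q j)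
  have h2 := RepA.mul B (le_refl (0 : ℝ)) (le_refl (0 : ℝ)) (RepA.single B (b := b) (e := e))
    (RepA.single B (b := b) (e := e))
  have h4 := RepA.mul B (Finset.sum_nonneg fun _ _ => zero_le_one (α := ℝ))
    (add_nonneg (le_refl (0 : ℝ)) (le_refl (0 : ℝ))) h1 h2
  have h5 := RepA.reindex B (RepFam_g r₀ n P) h4
  rw [Finset.sum_const_zero, Finset.sum_const, Finset.card_univ, Fintype.card_fin, nsmul_eq_mul,
    mul_one, add_zero, add_zero, zero_add] at h5
  have h6 : (fun u : ((Fin r₀ × Fin n) ⊕ P) ⊕ ((Fin r₀ × Fin n) ⊕ P) → α =>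
      (bigZ e (fun j => (q j).1) fun s => u (Sum.inl s)) * bigY e (fun j => (q j).1) fun s =>
        u (Sum.inr s)) =
      fun u : ((Fin r₀ × Fin n) ⊕ P) ⊕ ((Fin r₀ × Fin n) ⊕ P) → α =>
        (∏ j, ((q j).1.2.1 fun s => u (RepFam_g r₀ n P (Sum.inl (j, Sum.inl s)))) *
          (q j).1.1.1 fun s => u (RepFam_g r₀ n P (Sum.inl (j, Sum.inr s)))) *
        ((e fun s => u (RepFam_g r₀ n P (Sum.inr (Sum.inl s)))) *
          e fun s => u (RepFam_g r₀ n P (Sum.inr (Sum.inr s)))) := by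
    funext u
    rw [Finset.prod_mul_distrib, mul_mul_mul_comm]
    rfl
  rw [h6]
  exact h5

end T2F
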