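import Pool.Agent.W_f569db_t2.Canon3
import Pool.Agent.W_f569db_t2.DetConv
import Pool.Agent.W_f569db_t2.DetNe
import Pool.Agent.W_f569db_h13.Main2

set_option autoImplicit false

/-!
# The criterion with the determinant line
-/

noncomputable section

namespace T2F

open AlgebraicGeometry CategoryTheory MonoidalCategory
open scoped TensorProduct DirectSum
open Pool.Agent.WeilH_h6 Pool.Agent.WeilH_h6.VarClass Pool.Agent.WeilH_h6.Weil H13F

universe u v w

variable {k : Type u} [Field k] {𝒱 : VarClass k} {K : Type v} [Field K] {W : Weil.{u, v, w} 𝒱 K}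

/-- The criterion, with the determinant line. -/
theorem criterion3 [CharZero K] (X : 𝒱.Obj) (hpar : ParityAlg W X) (n : ℕ) (hn : 3 ≤ n) :
    List.TFAE [
      ∃ m ≤ n, ¬ W.HomEqNum (X.pow m),
      ∃ B : Filt W X, B.SelfDual ∧ B.AlgGe n ∧ B.SomeGt n,
      ∃ B : Filt W X, B.SelfDual ∧ B.AlgGe n ∧ B.SomeGt n ∧ B.NumGt n ∧ B.F 1 ≠ ⊥ ∧ B.Graded ∧
        B.Mult ∧ W.algSpan X ≤ B.F 0 ∧ B.AlgStable ∧ B.SymStable n ∧ B.DetTorsion n ∧ B.DetNum] := by
  have hpar' := W.isAlgEnd_iff.1 (isAlgEnd_par' hpar)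
  tfae_have 1 → 3 := by
    rintro ⟨m₀, hm₀, hD⟩
    obtain ⟨a₀, hnt, ha₀⟩ := exists_nt_of_not_homEqNum hD
    obtain ⟨r, B, ζ, hζ, hB, hdet, hcl⟩ := exists_canonical3 (W := W) (X := X) hpar' (n := n)
      (by omega) ⟨m₀, hm₀, a₀, hnt, ha₀⟩
    have hmem : ∀ (t : ℤ) x, x ∈ B.Fil (t : ℝ) ↔ ∀ i, ζ i < t → W.tr X (x * B.v' i) = 0 := by
      intro t x
      rw [NWB.mem_Fil]
      constructor
      · intro hx i hi
        exact hx i (by rw [hζ]; exact_mod_cast hi)
      · intro hx i hi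
        rw [hζ] at hi
        exact hx i (by exact_mod_cast hi)
    let FB : Filt W X :=
      { F := fun t => B.Fil (t : ℝ)
        anti := fun s t hst x hx => B.Fil_anti (by exact_mod_cast hst) hx
        top := by
          obtain ⟨t, ht⟩ := B.exists_top
          refine ⟨⌊t⌋, ?_⟩
          rw [eq_top_iff, ← ht]
          exact fun x hx => B.Fil_anti (Int.floor_le t) hx
        bot := by
          obtain ⟨t, ht⟩ := B.exists_bot
          refine ⟨⌈t⌉, ?_⟩
          rw [eq_bot_iff, ← ht]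
          exact fun x hx => B.Fil_anti (Int.le_ceil t) hx }
    have hself : FB.SelfDual := by
      intro t x
      change x ∈ B.Fil ((1 - t : ℤ) : ℝ) ↔ ∀ y ∈ B.Fil (t : ℝ), W.tr X (x * y) = 0
      rw [B.orth (by omega)]
      constructor
      · intro hx
        exact ⟨((1 - t : ℤ) : ℝ), by push_cast; linarith, hx⟩
      · rintro ⟨s, hs, hx⟩
        rw [hmem]
        intro i hi
        refine hx i ?_
        rw [hζ]
        have h1 : (ζ i : ℝ) ≤ -t := by
          have : ζ i ≤ -t := by omega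
          exact_mod_cast this
        linarith
    have hgt : ∀ m ≤ n, ∀ a : W.H (X.pow m), W.NT a → FB.Gt a := by
      intro m hm a ha t x hx ht
      refine B.tr_eq_zero (by omega) hm ha.1 (t := fun s => ((t s : ℤ) : ℝ)) hx (Or.inr ⟨ha, ?_⟩)
      have h1 : (0 : ℝ) ≤ ((∑ s, t s : ℤ) : ℝ) := by exact_mod_cast ht
      push_cast at h1
      linarith
    have hsym : FB.SymStable n := by
      intro S t x hx
      obtain ⟨S', h1, h2, h3, h4⟩ := S.exists_G hpar'
      have h5 := hB S' (h4 n le_rfl) t x hx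
      rw [h2] at h5
      exact h5
    refine ⟨FB, hself, ?_, ⟨m₀, hm₀, a₀, hnt.1, ha₀, hgt m₀ hm₀ a₀ hnt⟩, ?_, ?_, ?_, ?_, ?_, ?_, hsym,
      ?_, ?_⟩
    · intro m hm a ha t x hx ht
      refine B.tr_eq_zero (by omega) hm ha (t := fun s => ((t s : ℤ) : ℝ)) hx (Or.inl ?_)
      have h1 : (0 : ℝ) < ((∑ s, t s : ℤ) : ℝ) := by exact_mod_cast ht
      push_cast at h1
      exact h1
    · intro m hm a ha hb
      exact hgt m hm a ⟨ha, hb⟩
    · intro hbot
      change B.Fil ((1 : ℤ) : ℝ) = ⊥ at hbot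
      -- then `F^0 = H(X)`
      have h1 : ∀ x : W.H X, x ∈ B.Fil ((0 : ℤ) : ℝ) := by
        intro x
        rw [hmem]
        intro i hi
        have h2 : B.v' i ∈ B.Fil ((1 : ℤ) : ℝ) := by
          refine B.Fil_anti ?_ (B.v'_mem (by omega) i)
          rw [hζ]
          have : (1 : ℤ) ≤ -ζ i := by omega
          exact_mod_cast this
        rw [hbot, Submodule.mem_bot] at h2
        rw [h2, mul_zero, map_zero]
      apply ha₀
      refine W.ext_tr fun w => ?_
      rw [zero_mul, map_zero]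
      refine W.pure_induction (P := fun w => W.tr _ (a₀ * w) = 0) ?_ ?_ ?_ w
      · intro a b ha hb; rw [mul_add, map_add, ha, hb, add_zero]
      · intro c a ha; rw [mul_smul_comm, map_smul, ha, smul_zero]
      · intro v
        refine hgt m₀ hm₀ a₀ hnt (fun _ => 0) v (fun s => h1 _) ?_
        rw [Finset.sum_const_zero]
    · intro t
      refine graded_of_stable _ fun x hx => ?_
      obtain ⟨S, hS⟩ := exists_sym_gr (W := W) X n (c := (2 : K)) two_ne_zero
      rw [← hS]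
      exact hsym S t x hx
    · intro s t x hx y hy
      change x * y ∈ B.Fil ((s + t : ℤ) : ℝ)
      push_cast
      exact B.mul_mem hn hx hy
    · intro a ha
      change a ∈ B.Fil ((0 : ℤ) : ℝ)
      push_cast
      exact B.alg_mem (by omega) ha
    · intro φ hφ t x hx
      exact B.T_mem (by omega) (W.isAlgEnd_iff.1 hφ) hx
    · intro φ hφ
      obtain ⟨S, hS⟩ := hφ.exists_sym hpar' (by omega)
      have hst : ∀ t : ℤ, ∀ x ∈ B.Fil (t : ℝ), φ x ∈ B.Fil (t : ℝ) := by
        intro t x hx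
        have h1 := hsym S t x hx
        rw [hS] at h1
        exact h1
      refine ⟨hst, fun T hT => ?_⟩
      exact det_torsion_fil (by omega) B ζ hζ φ (hφ.tr_mul (by omega)) hst (hdet φ hφ) T hT
    · obtain ⟨T, hT⟩ : ∃ T : ℕ, ∀ i, |ζ i| ≤ T := by
        refine ⟨∑ i, (ζ i).natAbs, fun i => ?_⟩
        have h1 : (ζ i).natAbs ≤ ∑ i, (ζ i).natAbs :=
          Finset.single_le_sum (f := fun i => (ζ i).natAbs) (fun _ _ => Nat.zero_le _)
            (Finset.mem_univ i)
        rw [Int.abs_eq_natAbs]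
        exact_mod_cast h1
      obtain ⟨m, hm, hNT⟩ := hcl T hT
      exact detNum_of_altI (by omega) B hζ hT hm hNT FB fun t => rfl
  tfae_have 3 → 2 := by
    rintro ⟨B, h1, h2, h3, -⟩
    exact ⟨B, h1, h2, h3⟩
  tfae_have 2 → 1 := by
    rintro ⟨B, hs, hge, m, hm, a, ha, ha0, hgt⟩
    refine ⟨m, hm, fun hD => ha0 ?_⟩
    exact W.nt_eq_zero_of_homEqNum hD
      (B.nt_of_gt hpar' hs (hge 2 (by omega)) (hge m hm) ha hgt)
  tfae_finish

/-- If some power of the determinant line of a filtration is spanned by a numerically trivial algebraic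
class on `X^M`, then `D(X^M)` fails. -/
theorem not_homEqNum_of_detNum [CharZero K] (X : 𝒱.Obj) (hpar : ParityAlg W X) (B : Filt W X)
    (h : B.DetNum) : ∃ m, ¬ W.HomEqNum (X.pow m) := by
  have hpar' := W.isAlgEnd_iff.1 (isAlgEnd_par' hpar)
  obtain ⟨N, M, w, β, hN, hβ, hbas, halg, hnt⟩ := h
  refine ⟨M, fun hD => detClass_ne_zero hpar' w β (fun p => ?_)
    (W.nt_eq_zero_of_homEqNum hD ⟨halg, hnt⟩)⟩
  by_cases hp : 1 ≤ p.1 ∧ p.2 < N
  · exact (hbas p.1 hp.1 p.2 hp.2).1
  · have : IsEmpty {s // β s = p} := ⟨fun s => hp (by rw [← s.2]; exact hβ s.1)⟩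
    exact linearIndependent_empty_type

/-- `D` for all powers is equivalent to `D` for the determinant lines of filtrations. -/
theorem criterion3_all [CharZero K] (X : 𝒱.Obj) (hpar : ParityAlg W X) :
    (∃ m, ¬ W.HomEqNum (X.pow m)) ↔ ∃ B : Filt W X, B.F 1 ≠ ⊥ ∧ B.SelfDual ∧ B.Graded ∧ B.Mult ∧
      W.algSpan X ≤ B.F 0 ∧ B.AlgStable ∧ B.DetNum := by
  constructor
  · rintro ⟨m, hm⟩
    have h0 : ∃ m' ≤ max m 3, ¬ W.HomEqNum (X.pow m') := ⟨m, le_max_left _ _, hm⟩
    obtain ⟨B, h1, -, -, -, h5, h6, h7, h8, h9, -, -, h12⟩ :=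
      ((criterion3 X hpar (max m 3) (le_max_right _ _)).out 0 2).1 h0
    exact ⟨B, h5, h1, h6, h7, h8, h9, h12⟩
  · rintro ⟨B, -, -, -, -, -, -, h⟩
    exact not_homEqNum_of_detNum X hpar B h

end T2F
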