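import Pool.Agent.W_f569db_t2.RepFam

set_option autoImplicit false

noncomputable section

namespace T2F

open AlgebraicGeometry CategoryTheory MonoidalCategory
open scoped TensorProduct DirectSum
open Pool.Agent.WeilH_h6 Pool.Agent.WeilH_h6.VarClass Pool.Agent.WeilH_h6.Weil H13F

universe u v w

variable {k : Type u} [Field k] {𝒱 : VarClass k} {K : Type v} [Field K] {W : Weil.{u, v, w} 𝒱 K}

variable [CharZero K] {X : 𝒱.Obj} {hpar : W.par X ∈ W.algHom X X} {n : ℕ} {α : Type} [Fintype α]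
  (B : NWB (W := W) (X := X) hpar n α) {b : α → W.H X}

/-- The product array of a trace invariant with at least one distinguished member.

Proof.  `RepA.prod` for the arrays of `rep_inl` (`m = 0`, `w = 0`) and `rep_inr` (`m = 2`, `w = r₀`)
according to `v j`; then `RepA.reindex` for the equivalence
`Fin (d+1) × (ι ⊕ ι) ≃ (Fin (d+1) × ι) ⊕ (Fin (d+1) × ι)` which maps `(j, inl s)` to `inl (j, s)` and
`(j, inr s)` to `inr (σ.symm (j, s))`.  `N` is the number of `j` with `v j` distinguished: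
`∑ j, (if _ then 2 else 0) = 2 * N`, `∑ j, (if _ then r₀ else 0) = N * r₀`
(`Finset.sum_ite`, `Finset.card_filter`). -/
theorem rep_total {P : Type} [Fintype P] [DecidableEq P] {o o' e : (P → α) → K} (ho : AlgA W b o)
    (ho' : AlgA W b o') (hwo : WtA B b o 0) (hwo' : WtA B b o' 0) {r₀ : ℕ} {d : ℕ}
    (v : Fin (d + 1) → Lam W b n r₀) (hv : ∃ j, v j ∈ Set.range Sum.inr)
    (σ : Equiv.Perm (Fin (d + 1) × ((Fin r₀ × Fin n) ⊕ P))) :
    ∃ N : ℕ, 0 < N ∧ RepA B b e
      (fun u : (Fin (d + 1) × ((Fin r₀ × Fin n) ⊕ P)) ⊕ (Fin (d + 1) × ((Fin r₀ × Fin n) ⊕ P)) → α =>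
        ∏ j, ((lamZ o' e (v j) fun s => u (Sum.inl (j, s))) *
          lamY o e (v j) fun s => u (Sum.inr (σ.symm (j, s))))) (2 * N) (N * r₀) := by
  have h1 : ∀ j, RepA B b e
      (fun u : ((Fin r₀ × Fin n) ⊕ P) ⊕ ((Fin r₀ × Fin n) ⊕ P) → α =>
        (lamZ o' e (v j) fun s => u (Sum.inl s)) * lamY o e (v j) fun s => u (Sum.inr s))
      (if (v j).isRight = true then 2 else 0) (if (v j).isRight = true then (r₀ : ℝ) else 0) := by
    intro j
    rcases v j with q | q
    · exact rep_inl B ho ho' hwo hwo' q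
    · exact rep_inr B q
  have h2 : ∀ j, (0 : ℝ) ≤ (if (v j).isRight = true then (r₀ : ℝ) else 0) := by
    intro j
    split_ifs
    · exact Nat.cast_nonneg _
    · exact le_rfl
  have h3 := RepA.prod B h2 h1
  have h4 := RepA.reindex B ((Equiv.prodSumDistrib (Fin (d + 1)) ((Fin r₀ × Fin n) ⊕ P)
    ((Fin r₀ × Fin n) ⊕ P)).trans (Equiv.sumCongr (Equiv.refl _) σ.symm)) h3
  have e1 : ∑ j, (if (v j).isRight = true then 2 else 0) =
      2 * (Finset.univ.filter fun j => (v j).isRight = true).card := by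
    rw [← Finset.sum_filter, Finset.sum_const, smul_eq_mul, mul_comm]
  have e2 : ∑ j, (if (v j).isRight = true then (r₀ : ℝ) else 0) =
      ((Finset.univ.filter fun j => (v j).isRight = true).card : ℝ) * r₀ := by
    rw [← Finset.sum_filter, Finset.sum_const, nsmul_eq_mul]
  rw [e1, e2] at h4
  refine ⟨(Finset.univ.filter fun j => (v j).isRight = true).card, ?_, h4⟩
  obtain ⟨j, q, hq⟩ := hv
  refine Finset.card_pos.2 ⟨j, Finset.mem_filter.2 ⟨Finset.mem_univ _, ?_⟩⟩
  rw [← hq]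
  rfl

end T2F
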