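import Pool.Agent.W_f569db_t2.FlatI

set_option autoImplicit false

noncomputable section

namespace T2F

open AlgebraicGeometry CategoryTheory MonoidalCategory
open scoped TensorProduct DirectSum
open Pool.Agent.WeilH_h6 Pool.Agent.WeilH_h6.VarClass Pool.Agent.WeilH_h6.Weil H13F

universe u v w

variable {k : Type u} [Field k] {𝒱 : VarClass k} {K : Type v} [Field K] {W : Weil.{u, v, w} 𝒱 K}

variable [CharZero K] {X : 𝒱.Obj} {hpar : W.par X ∈ W.algHom X X} {n : ℕ} {α : Type} [Fintype α]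
  (B : NWB (W := W) (X := X) hpar n α) {b : α → W.H X}

/-- Proof: `fB_clsI` (backwards) and `B.fB_eq_zero`, with `t ∘ (equivFin ι).symm`
(`Equiv.sum_comp`). -/
theorem WtA.of_alg {ι : Type} [Fintype ι] [DecidableEq ι] (hι : Fintype.card ι ≤ n)
    {y : (ι → α) → K} (h : AlgA W b y) : WtA B b y 0 := by
  intro t x hx ht
  rw [neg_zero] at ht
  have h1 : ∑ s, t ((Fintype.equivFin ι).symm s) = ∑ i, t i :=
    Equiv.sum_comp (Fintype.equivFin ι).symm t
  rw [← fB_clsI hpar y x]
  exact B.fB_eq_zero hι h (t := fun s => t ((Fintype.equivFin ι).symm s))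
    (x := fun s => x ((Fintype.equivFin ι).symm s)) (fun s => hx _) (Or.inl (h1.symm ▸ ht))

/-- Proof: the same. -/
theorem WtA.of_nt {ι : Type} [Fintype ι] [DecidableEq ι] (hι : Fintype.card ι ≤ n)
    {y : (ι → α) → K} (h : NTA W b y) : WtA B b y 1 := by
  intro t x hx ht
  have h1 : ∑ s, t ((Fintype.equivFin ι).symm s) = ∑ i, t i :=
    Equiv.sum_comp (Fintype.equivFin ι).symm t
  rw [← fB_clsI hpar y x]
  exact B.fB_eq_zero hι h.1 (t := fun s => t ((Fintype.equivFin ι).symm s))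
    (x := fun s => x ((Fintype.equivFin ι).symm s)) (fun s => hx _)
    (Or.inr ⟨h, h1.symm ▸ ht⟩)

theorem WtA.mono {ι : Type} [Fintype ι] [DecidableEq ι] {y : (ι → α) → K} {w w' : ℝ}
    (h : WtA B b y w) (hw : w' ≤ w) : WtA B b y w' := by
  intro t x hx ht
  exact h t x hx (lt_of_le_of_lt (neg_le_neg hw) ht)

/-- Proof: `flatI_box`; if `-(w + w') < ∑ t` then `-w < ∑ i, t (inl i)` or `-w' < ∑ i, t (inr i)`
(`Fintype.sum_sum_type`). -/
theorem WtA.box {ι κ : Type} [Fintype ι] [DecidableEq ι] [Fintype κ] [DecidableEq κ]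
    {y : (ι → α) → K} {z : (κ → α) → K} {w w' : ℝ} (hy : WtA B b y w) (hz : WtA B b z w') :
    WtA B b (fun c : ι ⊕ κ → α => (y fun i => c (Sum.inl i)) * z fun i => c (Sum.inr i))
      (w + w') := by
  intro t x hx ht
  rw [Fintype.sum_sum_type] at ht
  rw [flatI_box]
  by_cases h1 : -w < ∑ i, t (Sum.inl i)
  · rw [hy (fun i => t (Sum.inl i)) (fun i => x (Sum.inl i)) (fun i => hx _) h1, zero_mul]
  · have h2 : -w' < ∑ i, t (Sum.inr i) := by
      have h3 := not_lt.1 h1
      linarith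
    rw [hz (fun i => t (Sum.inr i)) (fun i => x (Sum.inr i)) (fun i => hx _) h2, mul_zero]

/-- Proof: `flatI_reindex`, `Equiv.sum_comp`. -/
theorem WtA.reindex {ι κ : Type} [Fintype ι] [DecidableEq ι] [Fintype κ] [DecidableEq κ]
    (e : ι ≃ κ) {y : (ι → α) → K} {w : ℝ} (h : WtA B b y w) :
    WtA B b (fun c : κ → α => y fun i => c (e i)) w := by
  intro t x hx ht
  rw [flatI_reindex]
  refine h (fun i => t (e i)) (fun i => x (e i)) (fun i => hx _) ?_
  have h1 : ∑ i, t (e i) = ∑ j, t j := Equiv.sum_comp e t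
  rw [h1]
  exact ht

/-- Proof: `-0 < ∑ over the empty type = 0` is impossible. -/
theorem WtA.empty {ι : Type} [Fintype ι] [DecidableEq ι] [IsEmpty ι] :
    WtA B b (fun _ : ι → α => 1) 0 := by
  intro t x hx ht
  rw [Finset.univ_eq_empty, Finset.sum_empty, neg_zero] at ht
  exact absurd ht (lt_irrefl _)

end T2F
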