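import Pool.Agent.W_f569db_t2.BoxA
import Pool.Agent.W_f569db_t2.WtAlg

set_option autoImplicit false

noncomputable section

namespace T2F

open AlgebraicGeometry CategoryTheory MonoidalCategory
open scoped TensorProduct DirectSum
open Pool.Agent.WeilH_h6 Pool.Agent.WeilH_h6.VarClass Pool.Agent.WeilH_h6.Weil H13F

universe u v w

variable {k : Type u} [Field k] {𝒱 : VarClass k} {K : Type v} [Field K] {W : Weil.{u, v, w} 𝒱 K}

variable [CharZero K] {X : 𝒱.Obj} {hpar : W.par X ∈ W.algHom X X} {n : ℕ} {α : Type} [Fintype α]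
  (B : NWB (W := W) (X := X) hpar n α) {b : α → W.H X} {P : Type} {e : (P → α) → K}

/-- Proof: `Q = ι`, `C = T`, no factor `e` (`Equiv.sumEmpty`, `P × Fin 0` is empty). -/
theorem RepA.of_alg {ι : Type} [Fintype ι] [DecidableEq ι] {T : (ι → α) → K} {w : ℝ}
    (h : AlgA W b T) (h0 : 0 < w → NTA W b T) (hw : WtA B b T w) : RepA B b e T 0 w := by
  refine ⟨ι, inferInstance, inferInstance, T, Equiv.sumEmpty ι (P × Fin 0), h, h0, hw, fun c => ?_⟩
  rw [Fin.prod_univ_zero, mul_one]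
  rfl

/-- Proof: `Q = Empty`, `C = 1` (`AlgA.empty hpar`, `WtA.empty`), one factor `e`. -/
theorem RepA.single : RepA B b e e 1 0 := by
  refine ⟨Empty, inferInstance, inferInstance, fun _ => 1,
    (Equiv.emptySum Empty (P × Fin 1)).trans (Equiv.prodUnique P (Fin 1)), AlgA.empty hpar,
    fun h => absurd h (lt_irrefl _), WtA.empty B, fun c => ?_⟩
  rw [Fin.prod_univ_one, one_mul]
  rfl

/-- Proof: compose the equivalence with `g`. -/
theorem RepA.reindex {ι κ : Type} (g : ι ≃ κ) {T : (ι → α) → K} {m : ℕ} {w : ℝ}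
    (h : RepA B b e T m w) : RepA B b e (fun c : κ → α => T fun i => c (g i)) m w := by
  obtain ⟨Q, _, _, C, g₀, h1, h2, h3, h4⟩ := h
  exact ⟨Q, inferInstance, inferInstance, C, g₀.trans g, h1, h2, h3, fun c => h4 fun i => c (g i)⟩

/-- The reindexing in `RepA.mul`. -/
def Rep_mulEquiv {ι κ Q Q' P : Type} {m m' : ℕ} (g : Q ⊕ (P × Fin m) ≃ ι)
    (g' : Q' ⊕ (P × Fin m') ≃ κ) : (Q ⊕ Q') ⊕ (P × Fin (m + m')) ≃ ι ⊕ κ :=
  (Equiv.sumCongr (Equiv.refl (Q ⊕ Q'))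
    ((Equiv.prodCongr (Equiv.refl P) finSumFinEquiv.symm).trans
      (Equiv.prodSumDistrib P (Fin m) (Fin m')))).trans
    ((Equiv.sumSumSumComm Q Q' (P × Fin m) (P × Fin m')).trans (Equiv.sumCongr g g'))

theorem Rep_mulEquiv_inl_inl {ι κ Q Q' P : Type} {m m' : ℕ} (g : Q ⊕ (P × Fin m) ≃ ι)
    (g' : Q' ⊕ (P × Fin m') ≃ κ) (q : Q) :
    Rep_mulEquiv g g' (Sum.inl (Sum.inl q)) = Sum.inl (g (Sum.inl q)) := rfl

theorem Rep_mulEquiv_inl_inr {ι κ Q Q' P : Type} {m m' : ℕ} (g : Q ⊕ (P × Fin m) ≃ ι)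
    (g' : Q' ⊕ (P × Fin m') ≃ κ) (q : Q') :
    Rep_mulEquiv g g' (Sum.inl (Sum.inr q)) = Sum.inr (g' (Sum.inl q)) := rfl

theorem Rep_mulEquiv_castAdd {ι κ Q Q' P : Type} {m m' : ℕ} (g : Q ⊕ (P × Fin m) ≃ ι)
    (g' : Q' ⊕ (P × Fin m') ≃ κ) (x : P) (j : Fin m) :
    Rep_mulEquiv g g' (Sum.inr (x, Fin.castAdd m' j)) = Sum.inl (g (Sum.inr (x, j))) := by
  simp [Rep_mulEquiv]

theorem Rep_mulEquiv_natAdd {ι κ Q Q' P : Type} {m m' : ℕ} (g : Q ⊕ (P × Fin m) ≃ ι)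
    (g' : Q' ⊕ (P × Fin m') ≃ κ) (x : P) (j : Fin m') :
    Rep_mulEquiv g g' (Sum.inr (x, Fin.natAdd m j)) = Sum.inr (g' (Sum.inr (x, j))) := by
  simp [Rep_mulEquiv]

/-- Proof: `Q ⊕ Q'`, `C ⊠ C'` (`AlgA.box`, `WtA.box`; if `0 < w + w'` then `0 < w` or `0 < w'`, so
`NTA.box_left` or `NTA.box_right`), `P × Fin (m + m') ≃ (P × Fin m) ⊕ (P × Fin m')`
(`finSumFinEquiv`), `Fin.prod_univ_add`. -/
theorem RepA.mul {ι κ : Type} {T : (ι → α) → K} {T' : (κ → α) → K} {m m' : ℕ} {w w' : ℝ}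
    (hw : 0 ≤ w) (hw' : 0 ≤ w') (h : RepA B b e T m w) (h' : RepA B b e T' m' w') :
    RepA B b e (fun c : ι ⊕ κ → α => (T fun i => c (Sum.inl i)) * T' fun i => c (Sum.inr i))
      (m + m') (w + w') := by
  obtain ⟨Q, _, _, C, g, h1, h2, h3, h4⟩ := h
  obtain ⟨Q', _, _, C', g', h1', h2', h3', h4'⟩ := h'
  refine ⟨Q ⊕ Q', inferInstance, inferInstance,
    fun c => (C fun q => c (Sum.inl q)) * C' fun q => c (Sum.inr q), Rep_mulEquiv g g',
    AlgA.box hpar h1 h1', fun hpos => ?_, WtA.box B h3 h3', fun c => ?_⟩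
  · rcases hw.lt_or_eq with h5 | h5
    · exact NTA.box_left hpar (h2 h5) h1'
    · have h6 : 0 < w' := by linarith
      exact NTA.box_right hpar h1 (h2' h6)
  · rw [Fin.prod_univ_add]
    simp only [Rep_mulEquiv_castAdd, Rep_mulEquiv_natAdd, Rep_mulEquiv_inl_inl,
      Rep_mulEquiv_inl_inr]
    have e1 := h4 fun i => c (Sum.inl i)
    have e2 := h4' fun i => c (Sum.inr i)
    rw [e1, e2]
    exact mul_mul_mul_comm _ _ _ _

/-- The reindexing in `RepA.prod`. -/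
def Rep_succEquiv (N : ℕ) (ι : Type) : (Fin N × ι) ⊕ ι ≃ Fin (N + 1) × ι where
  toFun := Sum.elim (fun p => (p.1.castSucc, p.2)) fun i => (Fin.last N, i)
  invFun p := Fin.lastCases (motive := fun _ => (Fin N × ι) ⊕ ι) (Sum.inr p.2)
    (fun j => Sum.inl (j, p.2)) p.1
  left_inv := by
    rintro (⟨j, i⟩ | i)
    · simp
    · simp
  right_inv := by
    rintro ⟨j, i⟩
    refine Fin.lastCases ?_ (fun j => ?_) j
    · simp
    · simp

/-- Proof: induction on `N`; for `N = 0` use `RepA.of_alg` (`AlgA.empty hpar`, `WtA.empty`), for the step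
`RepA.mul` and `RepA.reindex` for `(Fin N × ι) ⊕ ι ≃ Fin (N + 1) × ι`, `Fin.prod_univ_castSucc`,
`Fin.sum_univ_castSucc`. -/
theorem RepA.prod {ι : Type} {N : ℕ} {T : Fin N → (ι → α) → K} {m : Fin N → ℕ} {w : Fin N → ℝ}
    (hw : ∀ j, 0 ≤ w j) (h : ∀ j, RepA B b e (T j) (m j) (w j)) :
    RepA B b e (fun c : Fin N × ι → α => ∏ j, T j fun i => c (j, i)) (∑ j, m j) (∑ j, w j) := by
  induction N with
  | zero =>
    classical
    let _ : Fintype (Fin 0 × ι) := Fintype.ofIsEmpty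
    rw [Fin.sum_univ_zero, Fin.sum_univ_zero]
    have h1 : (fun c : Fin 0 × ι → α => ∏ j, T j fun i => c (j, i)) = fun _ => 1 := by
      funext c
      exact Fin.prod_univ_zero _
    rw [h1]
    exact RepA.of_alg B (AlgA.empty hpar) (fun h => absurd h (lt_irrefl _)) (WtA.empty B)
  | succ N ih =>
    have h1 := ih (T := fun j => T j.castSucc) (m := fun j => m j.castSucc)
      (w := fun j => w j.castSucc) (fun j => hw _) fun j => h _
    have h2 := RepA.mul B (Finset.sum_nonneg fun j _ => hw _) (hw (Fin.last N)) h1 (h (Fin.last N))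
    have h3 := RepA.reindex B (Rep_succEquiv N ι) h2
    rw [Fin.sum_univ_castSucc, Fin.sum_univ_castSucc]
    have h4 : (fun c : Fin (N + 1) × ι → α => ∏ j, T j fun i => c (j, i)) =
        fun c : Fin (N + 1) × ι → α => (∏ j : Fin N, T j.castSucc fun i =>
          c (Rep_succEquiv N ι (Sum.inl (j, i)))) *
            T (Fin.last N) fun i => c (Rep_succEquiv N ι (Sum.inr i)) := by
      funext c
      exact Fin.prod_univ_castSucc _
    rw [h4]
    exact h3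

end T2F
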