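import Pool.Agent.W_f569db_t2.ArrCls
import Pool.Agent.W_f569db_t2.FlatI
import Pool.Agent.W_f569db_t2.DetBlk

set_option autoImplicit false

noncomputable section

namespace T2F

open AlgebraicGeometry CategoryTheory MonoidalCategory
open scoped TensorProduct DirectSum
open Pool.Agent.WeilH_h6 Pool.Agent.WeilH_h6.VarClass Pool.Agent.WeilH_h6.Weil H13F

universe u v w

variable {k : Type u} [Field k] {𝒱 : VarClass k} {K : Type v} [Field K] {W : Weil.{u, v, w} 𝒱 K}

variable [CharZero K] {X : 𝒱.Obj} {α : Type} [Fintype α] {b b' : α → W.H X}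
  {P κ : Type} [Fintype P] [DecidableEq P] [DecidableEq κ]

omit [CharZero K] in
/-- Proof: linearity of `flatI` in the array, `flatI_reindex` with `e = σ`. -/
theorem flatI_asym (β : P → κ) (A : (P → α) → K) (v : P → W.H X) :
    flatI W b (asym β A) v = ∑ σ : Equiv.Perm P, if ∀ x, β (σ x) = β x then
      ((Equiv.Perm.sign σ : ℤ) : K) * flatI W b A (fun x => v (σ x)) else 0 := by
  have h1 : flatI W b (asym β A) v = ∑ σ : Equiv.Perm P, ∑ c : P → α,
      (if ∀ x, β (σ x) = β x then ((Equiv.Perm.sign σ : ℤ) : K) * A (fun x => c (σ x)) else 0) *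
        ∏ i, W.tr X (b (c i) * v i) := by
    unfold flatI asym
    simp only [Finset.sum_mul]
    rw [Finset.sum_comm]
  rw [h1]
  refine Finset.sum_congr rfl fun σ _ => ?_
  split_ifs with h
  · rw [← flatI_reindex σ A v]
    unfold flatI
    rw [Finset.mul_sum]
    exact Finset.sum_congr rfl fun c _ => by ring
  · simp

omit [CharZero K] in
/-- Proof: `flatI_asym`, the sum over `σ` is reindexed by `σ ↦ τ * σ` (`Equiv.sum_comp` for
`Equiv.mulLeft τ`), `Equiv.Perm.sign_mul`, the sign is `±1`. -/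
theorem flatI_asym_perm (β : P → κ) (A : (P → α) → K) (v : P → W.H X) (τ : Equiv.Perm P)
    (hτ : ∀ x, β (τ x) = β x) :
    flatI W b (asym β A) (fun x => v (τ x)) =
      ((Equiv.Perm.sign τ : ℤ) : K) * flatI W b (asym β A) v := by
  rw [flatI_asym, flatI_asym, ← Equiv.sum_comp (Equiv.mulLeft τ) (fun σ : Equiv.Perm P =>
    if ∀ x, β (σ x) = β x then
      ((Equiv.Perm.sign σ : ℤ) : K) * flatI W b A (fun x => v (σ x)) else 0), Finset.mul_sum]
  refine Finset.sum_congr rfl fun σ _ => ?_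
  have hiff : (∀ x, β ((Equiv.mulLeft τ σ) x) = β x) ↔ ∀ x, β (σ x) = β x := by
    refine forall_congr' fun x => ?_
    rw [Equiv.coe_mulLeft, Equiv.Perm.mul_apply, hτ]
  by_cases h : ∀ x, β (σ x) = β x
  · rw [if_pos h, if_pos (hiff.2 h), Equiv.coe_mulLeft, Equiv.Perm.sign_mul]
    have h1 : ((Equiv.Perm.sign τ : ℤ) : K) * ((Equiv.Perm.sign τ : ℤ) : K) = 1 := by
      rw [← Int.cast_mul, ← Units.val_mul, Int.units_mul_self, Units.val_one, Int.cast_one]
    have h2 : (((Equiv.Perm.sign τ * Equiv.Perm.sign σ : ℤˣ) : ℤ) : K)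
        = ((Equiv.Perm.sign τ : ℤ) : K) * ((Equiv.Perm.sign σ : ℤ) : K) := by
      rw [Units.val_mul, Int.cast_mul]
    rw [h2, ← mul_assoc, ← mul_assoc, h1, one_mul]
    rfl
  · rw [if_neg h, if_neg (fun h' => h (hiff.1 h')), mul_zero]

/-- Proof: if `β x = β y`, `x ≠ y` and `v x = v y` then with `τ = Equiv.swap x y` we have `v ∘ τ = v` and
`flatI_asym_perm` gives `a = -a`. -/
theorem flatI_asym_zero (β : P → κ) (A : (P → α) → K) (v : P → W.H X) {x y : P} (hxy : x ≠ y)
    (hβ : β x = β y) (hv : v x = v y) : flatI W b (asym β A) v = 0 := by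
  have hτ : ∀ z, β (Equiv.swap x y z) = β z := by
    intro z
    rw [Equiv.swap_apply_def]
    split_ifs with h1 h2
    · rw [h1, hβ]
    · rw [h2, hβ]
    · rfl
  have hvτ : (fun z => v (Equiv.swap x y z)) = v := by
    funext z
    rw [Equiv.swap_apply_def]
    split_ifs with h1 h2
    · rw [h1, hv]
    · rw [h2, hv]
    · rfl
  have h1 := flatI_asym_perm (b := b) β A v (Equiv.swap x y) hτ
  rw [hvτ, Equiv.Perm.sign_swap hxy] at h1
  have h2 : ((((-1 : ℤˣ) : ℤ)) : K) = -1 := by simp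
  rw [h2, neg_one_mul] at h1
  exact self_eq_neg.1 h1

omit [CharZero K] in
/-- `altI` as the class of an array.  Proof: `clsI` is linear in the array, `clsI_prA`. -/
theorem altI_eq (hx : ∀ x, x = ∑ j, W.tr X (x * b' j) • b j) (w : P → W.H X) (β : P → κ) :
    altI W w β = clsI W b (fun c => ∑ σ : Equiv.Perm P, if ∀ x, β (σ x) = β x then
      ((Equiv.Perm.sign σ : ℤ) : K) * prA W b' (fun x => w (σ x)) c else 0) := by
  unfold altI
  have h1 : clsI W b (fun c => ∑ σ : Equiv.Perm P, if ∀ x, β (σ x) = β x then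
      ((Equiv.Perm.sign σ : ℤ) : K) * prA W b' (fun x => w (σ x)) c else 0) =
      ∑ σ : Equiv.Perm P, ∑ c : P → α, (if ∀ x, β (σ x) = β x then
      ((Equiv.Perm.sign σ : ℤ) : K) * prA W b' (fun x => w (σ x)) c else 0) •
        pureI W fun i => b (c i) := by
    unfold clsI
    simp only [Finset.sum_smul]
    rw [Finset.sum_comm]
  rw [h1]
  refine Finset.sum_congr rfl fun σ _ => ?_
  split_ifs with h
  · rw [← clsI_prA hx (fun x => w (σ x))]
    unfold clsI
    rw [Finset.smul_sum]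
    exact Finset.sum_congr rfl fun c _ => by rw [smul_smul]
  · simp

omit [CharZero K] in
/-- The pairing of the alternating array with a family.  Proof: linearity, `flatI_prA`. -/
theorem flatI_alt (hx : ∀ x, x = ∑ j, W.tr X (x * b' j) • b j) (w u : P → W.H X) (β : P → κ) :
    flatI W b (fun c => ∑ σ : Equiv.Perm P, if ∀ x, β (σ x) = β x then
      ((Equiv.Perm.sign σ : ℤ) : K) * prA W b' (fun x => w (σ x)) c else 0) u =
      ∑ σ : Equiv.Perm P, if ∀ x, β (σ x) = β x then
        ((Equiv.Perm.sign σ : ℤ) : K) * ∏ x, W.tr X (w (σ x) * u x) else 0 := by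
  have h1 : flatI W b (fun c => ∑ σ : Equiv.Perm P, if ∀ x, β (σ x) = β x then
      ((Equiv.Perm.sign σ : ℤ) : K) * prA W b' (fun x => w (σ x)) c else 0) u =
      ∑ σ : Equiv.Perm P, ∑ c : P → α, (if ∀ x, β (σ x) = β x then
      ((Equiv.Perm.sign σ : ℤ) : K) * prA W b' (fun x => w (σ x)) c else 0) *
        ∏ i, W.tr X (b (c i) * u i) := by
    unfold flatI
    simp only [Finset.sum_mul]
    rw [Finset.sum_comm]
  rw [h1]
  refine Finset.sum_congr rfl fun σ _ => ?_
  split_ifs with h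
  · rw [← flatI_prA (b := b) hx (fun x => w (σ x)) u]
    unfold flatI
    rw [Finset.mul_sum]
    exact Finset.sum_congr rfl fun c _ => by ring
  · simp

omit [CharZero K] in
/-- The antisymmetrised array and the array `eps^{⊗ m}`.

Proof.  By `flatI_asym`, and `flatI_sum` (`colB b h i = ∑ q, h q i • b q`), the left hand side is
`∑ σ, [σ preserves the blocks] sign σ * ∑ p, (∏ x, h (p x) (σ x).1.2.1) * flatI A (b ∘ p)`.  On the right
hand side use `prod_eps` and `Matrix.det_apply'` for the transposed matrix (`Matrix.det_transpose`):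
`∏ j, eps .. = ∑ σ, sign σ * ∏ x, (if β x = β (σ x) then h (p x) (σ x).1.2.1 else 0)`; exchange the
sums. -/
theorem flatI_asym_eps [DecidableEq α] (h : Matrix α α K) (ζ : α → ℤ) (T m : ℕ)
    (A : (Blk ζ T × Fin m → α) → K) :
    flatI W b (asym (fun x : Blk ζ T × Fin m => (x.1.1, x.2)) A) (fun x => colB b h x.1.2.1) =
      ∑ p : Blk ζ T × Fin m → α, (∏ j, eps h ζ T fun s => p (s, j)) *
        flatI W b A (fun s => b (p s)) := by
  rw [flatI_asym]
  have h1 : ∀ σ : Equiv.Perm (Blk ζ T × Fin m),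
      flatI W b A (fun x => colB b h (σ x).1.2.1) = ∑ p : Blk ζ T × Fin m → α,
        (∏ x, h (p x) (σ x).1.2.1) * flatI W b A (fun s => b (p s)) := by
    intro σ
    exact flatI_sum A (fun x i => h i (σ x).1.2.1) b
  have h2 : ∀ p : Blk ζ T × Fin m → α, ∏ j, eps h ζ T (fun s => p (s, j)) =
      ∑ σ : Equiv.Perm (Blk ζ T × Fin m),
        if ∀ x, ((σ x).1.1, (σ x).2) = (x.1.1, x.2) then
          ((Equiv.Perm.sign σ : ℤ) : K) * ∏ x, h (p x) (σ x).1.2.1 else 0 := by
    intro p
    rw [prod_eps, ← Matrix.det_transpose, Matrix.det_apply']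
    refine Finset.sum_congr rfl fun σ _ => ?_
    simp only [Matrix.transpose_apply, Matrix.of_apply]
    rw [Finset.prod_ite_zero]
    by_cases hσ : ∀ x : Blk ζ T × Fin m, ((σ x).1.1, (σ x).2) = (x.1.1, x.2)
    · rw [if_pos hσ, if_pos (fun x _ => (hσ x).symm)]
    · rw [if_neg hσ, if_neg (fun h' => hσ fun x => (h' x (Finset.mem_univ x)).symm), mul_zero]
  simp only [h1, h2, Finset.sum_mul]
  rw [Finset.sum_comm]
  refine Finset.sum_congr rfl fun σ _ => ?_
  by_cases hσ : ∀ x : Blk ζ T × Fin m, ((σ x).1.1, (σ x).2) = (x.1.1, x.2)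
  · simp only [if_pos hσ, Finset.mul_sum]
    exact Finset.sum_congr rfl fun p _ => by ring
  · simp only [if_neg hσ, zero_mul, Finset.sum_const_zero]

end T2F
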