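import Pool.Agent.W_f569db_t2.Defs

set_option autoImplicit false

noncomputable section

namespace T2F

open AlgebraicGeometry CategoryTheory MonoidalCategory
open scoped TensorProduct DirectSum
open Pool.Agent.WeilH_h6 Pool.Agent.WeilH_h6.VarClass Pool.Agent.WeilH_h6.Weil H13F

universe u v w

variable {k : Type u} [Field k] {𝒱 : VarClass k} {K : Type v} [Field K] {W : Weil.{u, v, w} 𝒱 K}

variable {X : 𝒱.Obj} {α : Type} [Fintype α] [DecidableEq α] {b b' : α → W.H X}

/-- The matrix coefficients of the rank one operator in the basis `h`.  Proof: exactly the proof of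
`H13F.cj_rk` (file `W_f569db_h13/WBasis.lean`), with `Fin n` replaced by `ι` and `flat` by `flatI`. -/
theorem cj_rkI (hd : ∀ i j, W.tr X (b i * b' j) = if i = j then 1 else 0) {ι : Type} [Fintype ι]
    [DecidableEq ι] (h : (Matrix α α K)ˣ) (y z : (ι → α) → K) (a a' : ι → α) :
    H69.cj h⁻¹ (rkI W b y z) a a' =
      flatI W b y (fun s => rowB b' ((h⁻¹ : (Matrix α α K)ˣ) : Matrix α α K) (a s)) *
        flatI W b z (fun s => colB b (h : Matrix α α K) (a' s)) := by
  classical
  have h1 : flatI W b y (fun s => rowB b' ((h⁻¹ : (Matrix α α K)ˣ) : Matrix α α K) (a s)) =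
      ∑ p, (∏ s, ((h⁻¹ : (Matrix α α K)ˣ) : Matrix α α K) (a s) (p s)) * y p := by
    unfold flatI
    refine Finset.sum_congr rfl fun c _ => ?_
    rw [mul_comm]
    congr 1
    refine Finset.prod_congr rfl fun s _ => ?_
    unfold rowB
    rw [Finset.mul_sum, map_sum, Finset.sum_eq_single (c s)]
    · rw [mul_smul_comm, map_smul, hd, if_pos rfl, smul_eq_mul, mul_one]
    · intro i _ hi
      rw [mul_smul_comm, map_smul, hd, if_neg (Ne.symm hi), smul_zero]
    · intro h; exact absurd (Finset.mem_univ _) h
  have h2 : flatI W b z (fun s => colB b (h : Matrix α α K) (a' s)) =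
      ∑ q : ι → α, flatI W b z (fun s => b (q s)) * ∏ s, (h : Matrix α α K) (q s) (a' s) := by
    unfold flatI
    have h3 : ∀ c : ι → α, ∏ s, W.tr X (b (c s) * colB b (h : Matrix α α K) (a' s)) =
        ∑ q : ι → α, ∏ s, ((h : Matrix α α K) (q s) (a' s) * W.tr X (b (c s) * b (q s))) := by
      intro c
      have h4 := Finset.prod_univ_sum (fun _ : ι => (Finset.univ : Finset α))
        (fun s i => (h : Matrix α α K) i (a' s) * W.tr X (b (c s) * b i))
      simp only [Fintype.piFinset_univ] at h4
      rw [← h4]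
      refine Finset.prod_congr rfl fun s _ => ?_
      unfold colB
      rw [Finset.mul_sum, map_sum]
      refine Finset.sum_congr rfl fun i _ => ?_
      rw [mul_smul_comm, map_smul, smul_eq_mul]
    simp only [h3, Finset.sum_mul, Finset.mul_sum]
    rw [Finset.sum_comm]
    refine Finset.sum_congr rfl fun q _ => Finset.sum_congr rfl fun c _ => ?_
    rw [Finset.prod_mul_distrib]; ring
  rw [h1, h2, H69.cj_entry, inv_inv, Finset.sum_mul_sum, Finset.sum_comm]
  refine Finset.sum_congr rfl fun p _ => Finset.sum_congr rfl fun q _ => ?_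
  unfold rkI
  rw [Matrix.of_apply]
  ring

end T2F
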