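import Pool.Agent.W_f569db_t2.CjRk
import Pool.Agent.W_f569db_t2.FlatI
import Pool.Agent.W_f569db_t2.BoxA
import Pool.Agent.W_f569db_h13.Canon

set_option autoImplicit false

noncomputable section

namespace T2F

open AlgebraicGeometry CategoryTheory MonoidalCategory
open scoped TensorProduct DirectSum
open Pool.Agent.WeilH_h6 Pool.Agent.WeilH_h6.VarClass Pool.Agent.WeilH_h6.Weil H13F

universe u v w

variable {k : Type u} [Field k] {𝒱 : VarClass k} {K : Type v} [Field K] {W : Weil.{u, v, w} 𝒱 K}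

variable [CharZero K] {X : 𝒱.Obj} {α : Type} [Fintype α] [DecidableEq α] {b b' : α → W.H X} {n r₀ : ℕ}
  {P : Type} [Fintype P] [DecidableEq P]

/-- The coefficients of the ordinary members.  Proof: `cj_rkI`, `flatI_box`, `flatI_prod`. -/
theorem cj_inl (hd : ∀ i j, W.tr X (b i * b' j) = if i = j then 1 else 0) (g : (Matrix α α K)ˣ)
    (o o' e : (P → α) → K) (q : Fin r₀ → PairS W b n) (A A' : (Fin r₀ × Fin n) ⊕ P → α) :
    H69.cj g⁻¹ (famT o o' e (Sum.inl q)) A A' =
      ((∏ j, flatI W b (q j).1.1 fun s =>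
          rowB b' ((g⁻¹ : (Matrix α α K)ˣ) : Matrix α α K) (A (Sum.inl (j, s)))) *
        flatI W b o fun s => rowB b' ((g⁻¹ : (Matrix α α K)ˣ) : Matrix α α K) (A (Sum.inr s))) *
      ((∏ j, flatI W b (q j).2.1 fun s => colB b (g : Matrix α α K) (A' (Sum.inl (j, s)))) *
        flatI W b o' fun s => colB b (g : Matrix α α K) (A' (Sum.inr s))) := by
  unfold famT
  rw [cj_rkI hd]
  congr 1
  · change flatI W b (fun c : (Fin r₀ × Fin n) ⊕ P → α =>
      ((fun c' : Fin r₀ × Fin n → α => ∏ j, (q j).1.1 fun s => c' (j, s))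
        fun i => c (Sum.inl i)) * o fun s => c (Sum.inr s)) _ = _
    rw [flatI_box (fun c' : Fin r₀ × Fin n → α => ∏ j, (q j).1.1 fun s => c' (j, s)) o,
      flatI_prod (fun j => (q j).1.1)]
  · change flatI W b (fun c : (Fin r₀ × Fin n) ⊕ P → α =>
      ((fun c' : Fin r₀ × Fin n → α => ∏ j, (q j).2.1 fun s => c' (j, s))
        fun i => c (Sum.inl i)) * o' fun s => c (Sum.inr s)) _ = _
    rw [flatI_box (fun c' : Fin r₀ × Fin n → α => ∏ j, (q j).2.1 fun s => c' (j, s)) o',
      flatI_prod (fun j => (q j).2.1)]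

/-- The coefficients of the distinguished members.  Proof: the same. -/
theorem cj_inr (hd : ∀ i j, W.tr X (b i * b' j) = if i = j then 1 else 0) (g : (Matrix α α K)ˣ)
    (o o' e : (P → α) → K) (q : Fin r₀ → famZ (W := W) b n) (A A' : (Fin r₀ × Fin n) ⊕ P → α) :
    H69.cj g⁻¹ (famT o o' e (Sum.inr q)) A A' =
      ((∏ j, flatI W b (q j).1.1.1 fun s =>
          rowB b' ((g⁻¹ : (Matrix α α K)ˣ) : Matrix α α K) (A (Sum.inl (j, s)))) *
        flatI W b e fun s => rowB b' ((g⁻¹ : (Matrix α α K)ˣ) : Matrix α α K) (A (Sum.inr s))) *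
      ((∏ j, flatI W b (q j).1.2.1 fun s => colB b (g : Matrix α α K) (A' (Sum.inl (j, s)))) *
        flatI W b e fun s => colB b (g : Matrix α α K) (A' (Sum.inr s))) := by
  unfold famT
  rw [cj_rkI hd]
  congr 1
  · change flatI W b (fun c : (Fin r₀ × Fin n) ⊕ P → α =>
      ((fun c' : Fin r₀ × Fin n → α => ∏ j, (q j).1.1.1 fun s => c' (j, s))
        fun i => c (Sum.inl i)) * e fun s => c (Sum.inr s)) _ = _
    rw [flatI_box (fun c' : Fin r₀ × Fin n → α => ∏ j, (q j).1.1.1 fun s => c' (j, s)) e,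
      flatI_prod (fun j => (q j).1.1.1)]
  · change flatI W b (fun c : (Fin r₀ × Fin n) ⊕ P → α =>
      ((fun c' : Fin r₀ × Fin n → α => ∏ j, (q j).1.2.1 fun s => c' (j, s))
        fun i => c (Sum.inl i)) * e fun s => c (Sum.inr s)) _ = _
    rw [flatI_box (fun c' : Fin r₀ × Fin n → α => ∏ j, (q j).1.2.1 fun s => c' (j, s)) e,
      flatI_prod (fun j => (q j).1.2.1)]

/-- For arrays on `Fin n` the pairings `flat` and `flatI` agree.  Proof: `rfl`, or `unfold`. -/
theorem flatI_fin (y : (Fin n → α) → K) (v : Fin n → W.H X) : flatI W b y v = flat W b y v := by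
  rfl

omit [CharZero K] in
/-- The expansion in the basis `b`. -/
theorem Coef_hx (hd : ∀ i j, W.tr X (b i * b' j) = if i = j then 1 else 0)
    (hb : ∀ x, x ∈ Submodule.span K (Set.range b)) (x : W.H X) :
    x = ∑ j, W.tr X (x * b' j) • b j := by
  have h := exp_col hd hb (1 : (Matrix α α K)ˣ) x
  have h1 : ∀ i, rowB b' (((1 : (Matrix α α K)ˣ)⁻¹ : (Matrix α α K)ˣ) : Matrix α α K) i = b' i := by
    intro i
    rw [inv_one, Units.val_one]
    unfold rowB
    rw [Finset.sum_eq_single i]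
    · rw [Matrix.one_apply_eq, one_smul]
    · intro j _ hj
      rw [Matrix.one_apply_ne (Ne.symm hj), zero_smul]
    · intro hh
      exact absurd (Finset.mem_univ _) hh
  have h2 : ∀ i, colB b ((1 : (Matrix α α K)ˣ) : Matrix α α K) i = b i := by
    intro i
    rw [Units.val_one]
    unfold colB
    rw [Finset.sum_eq_single i]
    · rw [Matrix.one_apply_eq, one_smul]
    · intro j _ hj
      rw [Matrix.one_apply_ne hj, zero_smul]
    · intro hh
      exact absurd (Finset.mem_univ _) hh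
  simp only [h1, h2] at h
  exact h

/-- The array of a pure tensor of algebraic classes, on `Fin n`. -/
theorem Coef_alg (hpar : W.par X ∈ W.algHom X X)
    (hd : ∀ i j, W.tr X (b i * b' j) = if i = j then 1 else 0)
    (hb : ∀ x, x ∈ Submodule.span K (Set.range b)) {x : W.H X} (hx : x ∈ W.algSpan X) :
    cls W b n (prA W b' fun _ : Fin n => x) ∈ W.algSpan (X.pow n) :=
  (algA_iff hpar (Equiv.refl (Fin n)) (prA W b' fun _ : Fin n => x)).1
    (AlgA.prA (Coef_hx hd hb) fun _ => hx)

/-- The ordinary members have weights `≥ 0` at level `n`.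

Proof.  As `tr (1 * pt) = 1` there is `i₀` with `tr (1 * v'_{i₀}) ≠ 0` and `tr (pt * v_{i₀}) ≠ 0`, where
`v = colB b g`, `v' = rowB b' g⁻¹` (`exp_col hd hb g`, as in the proof of `exists_normal'`).
Put `o = prA W b' (fun _ => 1)`, `o' = prA W b' (fun _ => pt)`, and let `q : Fin r₀ → PairS W b n` be `p` at
`j = 0` and the pair of arrays of `1^n`, `pt^n` (`prA` on `Fin n`; they are algebraic: `clsI_prA`-type
argument, `pureT_alg`) at `j ≠ 0`.  The word `A` is `a` on `{0} × Fin n` and `i₀` elsewhere, `A'` is `a'` on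
`{0} × Fin n` and `i₀` elsewhere.  By `cj_inl`, `flatI_prA`, `flatI_fin` and `cj_rk hd` the coefficient
of `famT (inl q)` at `(A, A')` is not zero, and `wt η' A A' = wt η' a a'`. -/
theorem pos_level (hpar : W.par X ∈ W.algHom X X)
    (hd : ∀ i j, W.tr X (b i * b' j) = if i = j then 1 else 0)
    (hb : ∀ x, x ∈ Submodule.span K (Set.range b)) {pt : W.H X} (hpt : pt ∈ W.algSpan X)
    (hpt1 : W.tr X pt = 1) (hr₀ : 0 < r₀) {e : (P → α) → K} {g : (Matrix α α K)ˣ} {η' : α → ℝ}
    (hP : PosS (Set.range (famT (W := W) (b := b) (n := n) (r₀ := r₀) (prA W b' fun _ => 1)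
        (prA W b' fun _ => pt) e))
      (famT (W := W) (b := b) (n := n) (r₀ := r₀) (prA W b' fun _ => 1) (prA W b' fun _ => pt) e ''
        Set.range Sum.inr) g η') (p : PairS W b n) (a a' : Fin n → α)
    (h : H69.cj g⁻¹ (famX b n p) a a' ≠ 0) : 0 ≤ wt η' a a' := by
  classical
  have hx := Coef_hx hd hb
  obtain ⟨i₀, hi₀⟩ : ∃ i, W.tr X (1 * rowB b' ((g⁻¹ : (Matrix α α K)ˣ) : Matrix α α K) i) *
      W.tr X (pt * colB b (g : Matrix α α K) i) ≠ 0 := by
    by_contra hcon
    push Not at hcon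
    have h2 : W.tr X (pt * 1) = 0 := by
      rw [exp_col hd hb g 1, Finset.mul_sum, map_sum]
      refine Finset.sum_eq_zero fun i _ => ?_
      rw [mul_smul_comm, map_smul, smul_eq_mul]
      exact hcon i
    rw [mul_one, hpt1] at h2
    exact one_ne_zero h2
  have hA : W.tr X (1 * rowB b' ((g⁻¹ : (Matrix α α K)ˣ) : Matrix α α K) i₀) ≠ 0 :=
    left_ne_zero_of_mul hi₀
  have hB : W.tr X (pt * colB b (g : Matrix α α K) i₀) ≠ 0 := right_ne_zero_of_mul hi₀
  have h1 : flat W b p.1.1 (fun s => rowB b' ((g⁻¹ : (Matrix α α K)ˣ) : Matrix α α K) (a s)) ≠ 0 ∧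
      flat W b p.2.1 (fun s => colB b (g : Matrix α α K) (a' s)) ≠ 0 := by
    unfold famX at h
    rw [cj_rk hd] at h
    exact ⟨left_ne_zero_of_mul h, right_ne_zero_of_mul h⟩
  have h1a : (1 : W.H X) ∈ W.algSpan X := W.one_mem_algSpan X
  let q1 : PairS W b n := (⟨prA W b' fun _ : Fin n => (1 : W.H X), Coef_alg hpar hd hb h1a⟩,
    ⟨prA W b' fun _ : Fin n => pt, Coef_alg hpar hd hb hpt⟩)
  let z : Fin r₀ := ⟨0, hr₀⟩
  let q : Fin r₀ → PairS W b n := fun j => if j = z then p else q1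
  let A : (Fin r₀ × Fin n) ⊕ P → α :=
    Sum.elim (fun x => if x.1 = z then a x.2 else i₀) fun _ => i₀
  let A' : (Fin r₀ × Fin n) ⊕ P → α :=
    Sum.elim (fun x => if x.1 = z then a' x.2 else i₀) fun _ => i₀
  have hc : H69.cj g⁻¹ (famT (prA W b' fun _ => 1) (prA W b' fun _ => pt) e (Sum.inl q)) A A' ≠ 0 := by
    rw [cj_inl hd]
    refine mul_ne_zero (mul_ne_zero ?_ ?_) (mul_ne_zero ?_ ?_)
    · refine Finset.prod_ne_zero_iff.2 fun j _ => ?_
      by_cases hj : j = z
      · have e1 : q j = p := if_pos hj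
        have e2 : (fun s : Fin n => rowB b' ((g⁻¹ : (Matrix α α K)ˣ) : Matrix α α K)
            (A (Sum.inl (j, s)))) =
            fun s => rowB b' ((g⁻¹ : (Matrix α α K)ˣ) : Matrix α α K) (a s) := by
          funext s
          have : A (Sum.inl (j, s)) = a s := if_pos hj
          rw [this]
        rw [e1, e2, flatI_fin]
        exact h1.1
      · have e1 : q j = q1 := if_neg hj
        have e2 : (fun s : Fin n => rowB b' ((g⁻¹ : (Matrix α α K)ˣ) : Matrix α α K)
            (A (Sum.inl (j, s)))) =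
            fun s => rowB b' ((g⁻¹ : (Matrix α α K)ˣ) : Matrix α α K) i₀ := by
          funext s
          have : A (Sum.inl (j, s)) = i₀ := if_neg hj
          rw [this]
        rw [e1, e2]
        change flatI W b (prA W b' fun _ : Fin n => (1 : W.H X)) _ ≠ 0
        rw [flatI_prA hx]
        exact Finset.prod_ne_zero_iff.2 fun _ _ => hA
    · rw [flatI_prA hx]
      exact Finset.prod_ne_zero_iff.2 fun _ _ => hA
    · refine Finset.prod_ne_zero_iff.2 fun j _ => ?_
      by_cases hj : j = z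
      · have e1 : q j = p := if_pos hj
        have e2 : (fun s : Fin n => colB b (g : Matrix α α K) (A' (Sum.inl (j, s)))) =
            fun s => colB b (g : Matrix α α K) (a' s) := by
          funext s
          have : A' (Sum.inl (j, s)) = a' s := if_pos hj
          rw [this]
        rw [e1, e2, flatI_fin]
        exact h1.2
      · have e1 : q j = q1 := if_neg hj
        have e2 : (fun s : Fin n => colB b (g : Matrix α α K) (A' (Sum.inl (j, s)))) =
            fun s => colB b (g : Matrix α α K) i₀ := by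
          funext s
          have : A' (Sum.inl (j, s)) = i₀ := if_neg hj
          rw [this]
        rw [e1, e2]
        change flatI W b (prA W b' fun _ : Fin n => pt) _ ≠ 0
        rw [flatI_prA hx]
        exact Finset.prod_ne_zero_iff.2 fun _ _ => hB
    · rw [flatI_prA hx]
      exact Finset.prod_ne_zero_iff.2 fun _ _ => hB
  have h2 := hP.1 _ ⟨Sum.inl q, rfl⟩ A A' hc
  have h3 : wt η' A A' = wt η' a a' := by
    unfold wt
    rw [Fintype.sum_sum_type, Fintype.sum_sum_type, Fintype.sum_prod_type, Fintype.sum_prod_type]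
    have e0 : ∀ (f : Fin n → α), ∑ j : Fin r₀, ∑ s : Fin n,
        η' (if j = z then f s else i₀) =
        ∑ s, η' (f s) + ∑ j ∈ Finset.univ.erase z, ∑ _s : Fin n, η' i₀ := by
      intro f
      rw [← Finset.add_sum_erase _ _ (Finset.mem_univ z)]
      refine congrArg₂ (fun x y => x + y) ?_ ?_
      · refine Finset.sum_congr rfl fun s _ => ?_
        rw [if_pos rfl]
      · refine Finset.sum_congr rfl fun j hj => Finset.sum_congr rfl fun s _ => ?_
        rw [if_neg (Finset.ne_of_mem_erase hj)]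
    change (∑ j : Fin r₀, ∑ s : Fin n, η' (if j = z then a s else i₀)) + (∑ _s : P, η' i₀) -
      ((∑ j : Fin r₀, ∑ s : Fin n, η' (if j = z then a' s else i₀)) + (∑ _s : P, η' i₀)) = _
    rw [e0, e0]
    ring
  rwa [h3] at h2

/-- The distinguished members.

Proof.  Take `q : Fin r₀ → famZ b n` constant equal to `p`, `A = a` on each `{j} × Fin n` and `c` on `P`,
`A' = a'` on each `{j} × Fin n` and `c'` on `P`.  By `cj_inr`, `flatI_fin` and `cj_rk hd` the coefficient is
not zero (a power of the coefficient `h` times the two pairings of `e`), so by `hP.2` the weight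
`r₀ * wt η' a a' + (∑ s, η' (c s) - ∑ s, η' (c' s))` is `≥ 1` (`Fintype.sum_sum_type`,
`Fintype.sum_prod_type`). -/
theorem pos_dist (hd : ∀ i j, W.tr X (b i * b' j) = if i = j then 1 else 0)
    {o o' e : (P → α) → K} {g : (Matrix α α K)ˣ} {η' : α → ℝ}
    (hP : PosS (Set.range (famT (W := W) (b := b) (n := n) (r₀ := r₀) o o' e))
      (famT (W := W) (b := b) (n := n) (r₀ := r₀) o o' e '' Set.range Sum.inr) g η')
    (p : famZ (W := W) b n) (a a' : Fin n → α) (h : H69.cj g⁻¹ (famX b n p.1) a a' ≠ 0)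
    (c c' : P → α)
    (hc : flatI W b e (fun s => rowB b' ((g⁻¹ : (Matrix α α K)ˣ) : Matrix α α K) (c s)) ≠ 0)
    (hc' : flatI W b e (fun s => colB b (g : Matrix α α K) (c' s)) ≠ 0) :
    1 ≤ r₀ * wt η' a a' + (∑ s, η' (c s) - ∑ s, η' (c' s)) := by
  have h1 : flat W b p.1.1.1
      (fun s => rowB b' ((g⁻¹ : (Matrix α α K)ˣ) : Matrix α α K) (a s)) ≠ 0 ∧
      flat W b p.1.2.1 (fun s => colB b (g : Matrix α α K) (a' s)) ≠ 0 := by
    unfold famX at h
    rw [cj_rk hd] at h
    exact ⟨left_ne_zero_of_mul h, right_ne_zero_of_mul h⟩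
  let q : Fin r₀ → famZ (W := W) b n := fun _ => p
  let A : (Fin r₀ × Fin n) ⊕ P → α := Sum.elim (fun x => a x.2) c
  let A' : (Fin r₀ × Fin n) ⊕ P → α := Sum.elim (fun x => a' x.2) c'
  have hcoef : H69.cj g⁻¹ (famT o o' e (Sum.inr q)) A A' ≠ 0 := by
    rw [cj_inr hd]
    refine mul_ne_zero (mul_ne_zero ?_ hc) (mul_ne_zero ?_ hc')
    · exact Finset.prod_ne_zero_iff.2 fun j _ => h1.1
    · exact Finset.prod_ne_zero_iff.2 fun j _ => h1.2
  have h2 := hP.2 _ ⟨Sum.inr q, ⟨q, rfl⟩, rfl⟩ A A' hcoef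
  have h3 : wt η' A A' = r₀ * wt η' a a' + (∑ s, η' (c s) - ∑ s, η' (c' s)) := by
    unfold wt
    rw [Fintype.sum_sum_type, Fintype.sum_sum_type, Fintype.sum_prod_type, Fintype.sum_prod_type]
    change (∑ _j : Fin r₀, ∑ s : Fin n, η' (a s)) + (∑ s : P, η' (c s)) -
      ((∑ _j : Fin r₀, ∑ s : Fin n, η' (a' s)) + (∑ s : P, η' (c' s))) = _
    rw [Finset.sum_const, Finset.sum_const, Finset.card_univ, Fintype.card_fin, nsmul_eq_mul,
      nsmul_eq_mul]
    ring
  rwa [h3] at h2

end T2F
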