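import Pool.Agent.W_f569db_h69.Bruhat

/-!
# Opposite flags: a nonzero entry of small weight

`(g, ξ)` and `(h, ξ')` weighted bases, `(k, η)`, `(k, η')` the same filtrations in a common basis.
The exterior product of the vectors `g i`, `ξ i ≤ c`, has, in the basis `h`, a nonzero coordinate of
`ξ'`-weight at most `∑_{η i ≤ c} η' i`; dually for the coordinate functionals.
-/

set_option linter.unusedSectionVars false

namespace T2F

open H69 Matrix Finset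

variable {α : Type*} [Fintype α] [DecidableEq α] {F : Type*} [Field F] [CharZero F]

/-- Weak form of the Laplace expansion along several columns. -/
theorem exists_minors {I J : Type*} [Fintype I] [Fintype J] [DecidableEq I] [DecidableEq J]
    (Q : Matrix (I ⊕ J) (I ⊕ J) F) (hQ : Q.det ≠ 0) :
    ∃ σ : Equiv.Perm (I ⊕ J), (Q.submatrix (fun i => σ (Sum.inl i)) Sum.inl).det ≠ 0 ∧
      (Q.submatrix (fun j => σ (Sum.inr j)) Sum.inr).det ≠ 0 := by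
  by_contra hcon
  push Not at hcon
  have key : ∑ τ : Equiv.Perm I × Equiv.Perm J, Q.det = 0 := by
    have h1 : ∀ τ : Equiv.Perm I × Equiv.Perm J, Q.det =
        ∑ σ : Equiv.Perm (I ⊕ J), ((Equiv.Perm.sign σ : ℤ) : F) *
          ((((Equiv.Perm.sign τ.1 : ℤ) : F) * ∏ i, Q (σ (Sum.inl (τ.1 i))) (Sum.inl i)) *
          (((Equiv.Perm.sign τ.2 : ℤ) : F) * ∏ j, Q (σ (Sum.inr (τ.2 j))) (Sum.inr j))) := by
      intro τ
      rw [Matrix.det_apply', ← Equiv.sum_comp (Equiv.mulRight (Equiv.Perm.sumCongr τ.1 τ.2))]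
      apply Finset.sum_congr rfl
      intro σ _
      rw [Equiv.coe_mulRight, Equiv.Perm.sign_mul, Equiv.Perm.sign_sumCongr,
        Fintype.prod_sum_type]
      simp only [Equiv.Perm.coe_mul, Function.comp_apply, Equiv.Perm.sumCongr_apply, Sum.map_inl,
        Sum.map_inr, Units.val_mul, Int.cast_mul]
      ring
    rw [Finset.sum_congr rfl fun τ _ => h1 τ, Finset.sum_comm]
    apply Finset.sum_eq_zero
    intro σ _
    rw [← Finset.mul_sum, Fintype.sum_prod_type]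
    have h2 : ∑ τ₁ : Equiv.Perm I, ∑ τ₂ : Equiv.Perm J,
        ((((Equiv.Perm.sign τ₁ : ℤ) : F) * ∏ i, Q (σ (Sum.inl (τ₁ i))) (Sum.inl i)) *
          (((Equiv.Perm.sign τ₂ : ℤ) : F) * ∏ j, Q (σ (Sum.inr (τ₂ j))) (Sum.inr j))) =
        (Q.submatrix (fun i => σ (Sum.inl i)) Sum.inl).det *
          (Q.submatrix (fun j => σ (Sum.inr j)) Sum.inr).det := by
      rw [Matrix.det_apply', Matrix.det_apply', Finset.sum_mul_sum]
      rfl
    rw [h2]
    by_cases h3 : (Q.submatrix (fun i => σ (Sum.inl i)) Sum.inl).det = 0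
    · rw [h3, zero_mul, mul_zero]
    · rw [hcon σ h3, mul_zero, mul_zero]
  rw [Finset.sum_const, nsmul_eq_mul] at key
  rcases mul_eq_zero.1 key with h | h
  · have h4 : (0 : ℕ) < (Finset.univ : Finset (Equiv.Perm I × Equiv.Perm J)).card :=
      Finset.card_pos.2 ⟨1, Finset.mem_univ _⟩
    rw [Nat.cast_eq_zero] at h
    omega
  · exact hQ h

/-- `det M ≠ 0` gives a permutation of nonzero entries. -/
theorem exists_perm_ne {J : Type*} [Fintype J] [DecidableEq J] (A : Matrix J J F) (hA : A.det ≠ 0) :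
    ∃ π : Equiv.Perm J, ∀ j, A (π j) j ≠ 0 := by
  rw [Matrix.det_apply] at hA
  obtain ⟨σ, -, hσ⟩ := Finset.exists_ne_zero_of_sum_ne_zero hA
  refine ⟨σ, fun j h0 => ?_⟩
  apply hσ
  have h1 : ∏ i, A (σ i) i = 0 :=
    Finset.prod_eq_zero (f := fun i => A (σ i) i) (Finset.mem_univ j) h0
  rw [h1, smul_zero]

theorem unit_det_ne (M : (Matrix α α F)ˣ) : (M : Matrix α α F).det ≠ 0 := by
  have h1 : (M : Matrix α α F).det * ((M⁻¹ : (Matrix α α F)ˣ) : Matrix α α F).det = 1 := by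
    rw [← Matrix.det_mul, Units.mul_inv, Matrix.det_one]
  exact left_ne_zero_of_mul (h1 ▸ one_ne_zero)

/-- The exterior product of the `g i` with `ξ i ≤ c` has a nonzero coordinate of `ξ'`-weight at most
`∑_{η i ≤ c} η' i`. -/
theorem comp (g h k : (Matrix α α F)ˣ) (ξ ξ' η η' : α → ℝ) (h1 : Same k η g ξ)
    (h2 : Same k η' h ξ') (c : ℝ) :
    ∃ a : {i // ξ i ≤ c} → α,
      (Matrix.of fun i j : {i // ξ i ≤ c} =>
        ((h⁻¹ * g : (Matrix α α F)ˣ) : Matrix α α F) (a i) j).det ≠ 0 ∧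
      ∑ i, ξ' (a i) ≤ ∑ i : {i // η i ≤ c}, η' i := by
  classical
  set M : Matrix α α F := ((h⁻¹ * g : (Matrix α α F)ˣ) : Matrix α α F) with hM
  let I := {i // ξ i ≤ c}
  let J := {i // ¬ ξ i ≤ c}
  let e : I ⊕ J ≃ α := Equiv.sumCompl (fun i => ξ i ≤ c)
  have hQ : (M.submatrix e e).det ≠ 0 := by
    rw [Matrix.det_submatrix_equiv_self]
    exact unit_det_ne _
  obtain ⟨σ, hσ1, hσ2⟩ := exists_minors _ hQ
  refine ⟨fun i => e (σ (Sum.inl i)), ?_, ?_⟩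
  · convert hσ1 using 2
    ext i j
    simp [e, I, J]
  obtain ⟨τ, hτ⟩ := h1.exists_perm
  obtain ⟨τ', hτ'⟩ := h2.exists_perm
  let ε : J ≃ {q // ¬ η q ≤ c} := Equiv.subtypeEquiv τ (fun r => by rw [hτ r])
  let A : Matrix J J F := Matrix.of fun j q =>
    ((h⁻¹ * k : (Matrix α α F)ˣ) : Matrix α α F) (e (σ (Sum.inr j))) (ε q)
  let B : Matrix J J F := Matrix.of fun q j =>
    ((k⁻¹ * g : (Matrix α α F)ˣ) : Matrix α α F) (ε q) j
  have hAB : (M.submatrix e e).submatrix (fun j => σ (Sum.inr j)) Sum.inr = A * B := by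
    ext j l
    have h3 : M = ((h⁻¹ * k : (Matrix α α F)ˣ) : Matrix α α F) *
        ((k⁻¹ * g : (Matrix α α F)ˣ) : Matrix α α F) := by
      rw [hM, ← Units.val_mul, mul_assoc, mul_inv_cancel_left]
    rw [Matrix.submatrix_apply, Matrix.submatrix_apply, h3, Matrix.mul_apply, Matrix.mul_apply]
    have h4 : e (Sum.inr l) = (l : α) := rfl
    rw [h4]
    have h5 : ∑ q : J, A j q * B q l = ∑ q : {q // ¬ η q ≤ c},
        ((h⁻¹ * k : (Matrix α α F)ˣ) : Matrix α α F) (e (σ (Sum.inr j))) q *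
          ((k⁻¹ * g : (Matrix α α F)ˣ) : Matrix α α F) q l := by
      rw [← Equiv.sum_comp ε]
      rfl
    rw [h5, ← Fintype.sum_subtype_add_sum_subtype (fun q => η q ≤ c)]
    rw [Finset.sum_eq_zero, zero_add]
    intro q _
    by_cases h6 : ((k⁻¹ * g : (Matrix α α F)ˣ) : Matrix α α F) q l = 0
    · rw [h6, mul_zero]
    · exact absurd ((h1.1 q l h6).trans q.2) l.2
  have hA : A.det ≠ 0 := by
    have h3 := hσ2
    rw [hAB, Matrix.det_mul] at h3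
    exact left_ne_zero_of_mul h3
  obtain ⟨π, hπ⟩ := exists_perm_ne A hA
  have h3 : ∑ j : J, η' (ε j) ≤ ∑ j : J, ξ' (e (σ (Sum.inr (π j)))) :=
    Finset.sum_le_sum fun j _ => h2.2 _ _ (hπ j)
  rw [Equiv.sum_comp π (fun j => ξ' (e (σ (Sum.inr j)))),
    Equiv.sum_comp ε (fun q => η' q)] at h3
  have h4 : ∑ r, ξ' r = ∑ i : I, ξ' (e (σ (Sum.inl i))) + ∑ j : J, ξ' (e (σ (Sum.inr j))) := by
    rw [← Equiv.sum_comp (σ.trans e), Fintype.sum_sum_type]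
    rfl
  have h5 : ∑ r, η' r = ∑ q : {q // η q ≤ c}, η' q + ∑ q : {q // ¬ η q ≤ c}, η' q :=
    (Fintype.sum_subtype_add_sum_subtype (fun q => η q ≤ c) η').symm
  have h6 : ∑ r, ξ' r = ∑ r, η' r := by
    simp only [hτ']
    exact Equiv.sum_comp τ' η'
  linarith

/-- The transposed inverse. -/
def dual (g : (Matrix α α F)ˣ) : (Matrix α α F)ˣ where
  val := ((g⁻¹ : (Matrix α α F)ˣ) : Matrix α α F)ᵀ
  inv := (g : Matrix α α F)ᵀ
  val_inv := by rw [← Matrix.transpose_mul, Units.mul_inv, Matrix.transpose_one]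
  inv_val := by rw [← Matrix.transpose_mul, Units.inv_mul, Matrix.transpose_one]

theorem dual_inv_mul (g h : (Matrix α α F)ˣ) :
    (((dual h)⁻¹ * dual g : (Matrix α α F)ˣ) : Matrix α α F) =
      ((g⁻¹ * h : (Matrix α α F)ˣ) : Matrix α α F)ᵀ := by
  rw [Units.val_mul, Units.val_mul, Matrix.transpose_mul]
  rfl

theorem same_dual {k g : (Matrix α α F)ˣ} {η ξ : α → ℝ} (h : Same k η g ξ) :
    Same (dual k) (fun r => -η r) (T2F.dual g) (fun r => -ξ r) := by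
  refine ⟨?_, ?_⟩
  · intro q r hqr
    rw [dual_inv_mul, Matrix.transpose_apply] at hqr
    exact neg_le_neg (h.2 r q hqr)
  · intro q r hqr
    rw [dual_inv_mul, Matrix.transpose_apply] at hqr
    exact neg_le_neg (h.1 r q hqr)

/-- The dual statement, for the coordinate functionals `g^j`, `c ≤ ξ j`. -/
theorem comp' (g h k : (Matrix α α F)ˣ) (ξ ξ' η η' : α → ℝ) (h1 : Same k η g ξ)
    (h2 : Same k η' h ξ') (c : ℝ) :
    ∃ b : {j // c ≤ ξ j} → α,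
      (Matrix.of fun i j : {j // c ≤ ξ j} =>
        ((g⁻¹ * h : (Matrix α α F)ˣ) : Matrix α α F) i (b j)).det ≠ 0 ∧
      ∑ j : {j // c ≤ η j}, η' j ≤ ∑ j, ξ' (b j) := by
  obtain ⟨a, ha, hs⟩ := comp (dual g) (dual h) (dual k) (fun r => -ξ r) (fun r => -ξ' r)
    (fun r => -η r) (fun r => -η' r) (same_dual h1) (same_dual h2) (-c)
  let ε : {j // c ≤ ξ j} ≃ {j // -ξ j ≤ -c} :=
    Equiv.subtypeEquivRight (fun j => by rw [neg_le_neg_iff])
  let ε' : {j // c ≤ η j} ≃ {j // -η j ≤ -c} :=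
    Equiv.subtypeEquivRight (fun j => by rw [neg_le_neg_iff])
  refine ⟨fun j => a (ε j), ?_, ?_⟩
  · rw [← Matrix.det_submatrix_equiv_self ε, ← Matrix.det_transpose] at ha
    convert ha using 2
    ext i j
    rw [Matrix.of_apply, Matrix.transpose_apply, Matrix.submatrix_apply, Matrix.of_apply,
      dual_inv_mul, Matrix.transpose_apply]
    rfl
  · rw [Finset.sum_neg_distrib, Finset.sum_neg_distrib, neg_le_neg_iff, ← Equiv.sum_comp ε,
      ← Equiv.sum_comp ε'] at hs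
    exact hs

/-- counting the thresholds: `∑_{t < T} [x ≤ -(t+1)] - [t+1 ≤ x] = -x` for an integer `|x| ≤ T` -/
theorem sum_thr (T : ℕ) (z : ℤ) (hz : |z| ≤ T) :
    ∑ t : Fin T, ((if (z : ℝ) ≤ -((t : ℕ) + 1 : ℝ) then (1 : ℝ) else 0) -
      (if ((t : ℕ) + 1 : ℝ) ≤ (z : ℝ) then (1 : ℝ) else 0)) = -(z : ℝ) := by
  rw [Finset.sum_sub_distrib, Fin.sum_univ_eq_sum_range
    (fun t => if (z : ℝ) ≤ -((t : ℝ) + 1) then (1 : ℝ) else 0) T,
    Fin.sum_univ_eq_sum_range (fun t => if ((t : ℝ) + 1) ≤ (z : ℝ) then (1 : ℝ) else 0) T,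
    ← Finset.sum_filter, ← Finset.sum_filter, Finset.sum_const, Finset.sum_const]
  have h1 : (Finset.range T).filter (fun t : ℕ => (z : ℝ) ≤ -((t : ℝ) + 1)) =
      Finset.range (-z).toNat := by
    ext t
    rw [Finset.mem_filter, Finset.mem_range, Finset.mem_range]
    have h2 : ((z : ℝ) ≤ -((t : ℝ) + 1)) ↔ z ≤ -((t : ℤ) + 1) := by
      rw [← @Int.cast_le ℝ]
      push_cast
      rfl
    rw [h2]
    rw [abs_le] at hz
    omega
  have h2 : (Finset.range T).filter (fun t : ℕ => ((t : ℝ) + 1) ≤ (z : ℝ)) =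
      Finset.range z.toNat := by
    ext t
    rw [Finset.mem_filter, Finset.mem_range, Finset.mem_range]
    have h2 : (((t : ℝ) + 1) ≤ (z : ℝ)) ↔ ((t : ℤ) + 1) ≤ z := by
      rw [← @Int.cast_le ℝ]
      push_cast
      rfl
    rw [h2]
    rw [abs_le] at hz
    omega
  rw [h1, h2, Finset.card_range, Finset.card_range, nsmul_eq_mul, nsmul_eq_mul, mul_one, mul_one]
  have h3 : (((-z).toNat : ℤ) : ℝ) - ((z.toNat : ℤ) : ℝ) = -(z : ℝ) := by
    rw [← Int.cast_sub, ← Int.cast_neg]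
    congr 1
    omega
  exact_mod_cast h3

/-- `(g, ξ)`, `(h, ξ')` weighted bases, `(k, η)`, `(k, η')` the same filtrations in a common basis,
`D ξ` integral and bounded by `T`.  The decomposable tensor
`⨂_t ⋀_{D ξ i ≤ -(t+1)} g_i ⊗ ⨂_t ⋀_{t+1 ≤ D ξ j} g^j` has, in the basis `h`, a nonzero coordinate of
`ξ'`-weight at most `- D ∑ η η'`. -/
theorem exists_entry (g h k : (Matrix α α F)ˣ) (ξ ξ' η η' : α → ℝ) (h1 : Same k η g ξ)
    (h2 : Same k η' h ξ') (D : ℝ) (T : ℕ) (hD : 0 < D)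
    (hT : ∀ r, ∃ z : ℤ, D * ξ r = z ∧ |z| ≤ T) :
    ∃ (a : ∀ t : Fin T, {i // D * ξ i ≤ -((t : ℕ) + 1 : ℝ)} → α)
      (b : ∀ t : Fin T, {j // ((t : ℕ) + 1 : ℝ) ≤ D * ξ j} → α),
      (∀ t : Fin T, (Matrix.of fun i j : {i // D * ξ i ≤ -((t : ℕ) + 1 : ℝ)} =>
        ((h⁻¹ * g : (Matrix α α F)ˣ) : Matrix α α F) (a t i) j).det ≠ 0) ∧
      (∀ t : Fin T, (Matrix.of fun i j : {j // ((t : ℕ) + 1 : ℝ) ≤ D * ξ j} =>
        ((g⁻¹ * h : (Matrix α α F)ˣ) : Matrix α α F) i (b t j)).det ≠ 0) ∧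
      ∑ t, ∑ i, ξ' (a t i) - ∑ t, ∑ j, ξ' (b t j) ≤ -(D * ∑ r, η r * η' r) := by
  classical
  have hiff1 : ∀ (x c : ℝ), D * x ≤ c ↔ x ≤ c / D := fun x c => by
    rw [le_div_iff₀ hD, mul_comm]
  have hiff2 : ∀ (x c : ℝ), c ≤ D * x ↔ c / D ≤ x := fun x c => by
    rw [div_le_iff₀ hD, mul_comm]
  have ha : ∀ t : Fin T, ∃ a : {i // D * ξ i ≤ -((t : ℕ) + 1 : ℝ)} → α,
      (Matrix.of fun i j : {i // D * ξ i ≤ -((t : ℕ) + 1 : ℝ)} =>
        ((h⁻¹ * g : (Matrix α α F)ˣ) : Matrix α α F) (a i) j).det ≠ 0 ∧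
      ∑ i, ξ' (a i) ≤ ∑ i : {i // D * η i ≤ -((t : ℕ) + 1 : ℝ)}, η' i := by
    intro t
    obtain ⟨a, ha, hs⟩ := comp g h k ξ ξ' η η' h1 h2 (-((t : ℕ) + 1 : ℝ) / D)
    let ε : {i // D * ξ i ≤ -((t : ℕ) + 1 : ℝ)} ≃ {i // ξ i ≤ -((t : ℕ) + 1 : ℝ) / D} :=
      Equiv.subtypeEquivRight (fun j => hiff1 _ _)
    let ε' : {i // D * η i ≤ -((t : ℕ) + 1 : ℝ)} ≃ {i // η i ≤ -((t : ℕ) + 1 : ℝ) / D} :=
      Equiv.subtypeEquivRight (fun j => hiff1 _ _)
    refine ⟨fun i => a (ε i), ?_, ?_⟩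
    · rw [← Matrix.det_submatrix_equiv_self ε] at ha
      exact ha
    · rw [← Equiv.sum_comp ε, ← Equiv.sum_comp ε'] at hs
      exact hs
  have hb : ∀ t : Fin T, ∃ b : {j // ((t : ℕ) + 1 : ℝ) ≤ D * ξ j} → α,
      (Matrix.of fun i j : {j // ((t : ℕ) + 1 : ℝ) ≤ D * ξ j} =>
        ((g⁻¹ * h : (Matrix α α F)ˣ) : Matrix α α F) i (b j)).det ≠ 0 ∧
      ∑ j : {j // ((t : ℕ) + 1 : ℝ) ≤ D * η j}, η' j ≤ ∑ j, ξ' (b j) := by
    intro t
    obtain ⟨b, hb, hs⟩ := comp' g h k ξ ξ' η η' h1 h2 (((t : ℕ) + 1 : ℝ) / D)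
    let ε : {j // ((t : ℕ) + 1 : ℝ) ≤ D * ξ j} ≃ {j // ((t : ℕ) + 1 : ℝ) / D ≤ ξ j} :=
      Equiv.subtypeEquivRight (fun j => hiff2 _ _)
    let ε' : {j // ((t : ℕ) + 1 : ℝ) ≤ D * η j} ≃ {j // ((t : ℕ) + 1 : ℝ) / D ≤ η j} :=
      Equiv.subtypeEquivRight (fun j => hiff2 _ _)
    refine ⟨fun i => b (ε i), ?_, ?_⟩
    · rw [← Matrix.det_submatrix_equiv_self ε] at hb
      exact hb
    · rw [← Equiv.sum_comp ε, ← Equiv.sum_comp ε'] at hs
      exact hs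
  choose a ha1 ha2 using ha
  choose b hb1 hb2 using hb
  refine ⟨a, b, ha1, hb1, ?_⟩
  obtain ⟨τ, hτ⟩ := h1.symm.exists_perm
  have hT' : ∀ r, ∃ z : ℤ, D * η r = z ∧ |z| ≤ T := fun r => by rw [hτ r]; exact hT _
  have h3 : ∑ t, ∑ i, ξ' (a t i) ≤
      ∑ t : Fin T, ∑ i : {i // D * η i ≤ -((t : ℕ) + 1 : ℝ)}, η' i :=
    Finset.sum_le_sum fun t _ => ha2 t
  have h4 : ∑ t : Fin T, ∑ j : {j // ((t : ℕ) + 1 : ℝ) ≤ D * η j}, η' j ≤
      ∑ t, ∑ j, ξ' (b t j) :=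
    Finset.sum_le_sum fun t _ => hb2 t
  have h5 : ∀ p : α → Prop, ∀ [DecidablePred p], ∑ i : {i // p i}, η' i =
      ∑ i, (if p i then (1 : ℝ) else 0) * η' i := by
    intro p _
    rw [← Finset.sum_subtype (Finset.univ.filter p) (fun x => by simp) η', Finset.sum_filter]
    simp only [ite_mul, one_mul, zero_mul]
  have h6 : ∑ t : Fin T, ∑ i : {i // D * η i ≤ -((t : ℕ) + 1 : ℝ)}, η' i -
      ∑ t : Fin T, ∑ j : {j // ((t : ℕ) + 1 : ℝ) ≤ D * η j}, η' j =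
      -(D * ∑ r, η r * η' r) := by
    simp only [h5]
    rw [← Finset.sum_sub_distrib]
    simp only [← Finset.sum_sub_distrib, ← sub_mul]
    rw [Finset.sum_comm]
    simp only [← Finset.sum_mul]
    rw [Finset.mul_sum, ← Finset.sum_neg_distrib]
    apply Finset.sum_congr rfl
    intro r _
    obtain ⟨z, hz, hzT⟩ := hT' r
    rw [hz, sum_thr T z hzT, ← hz]
    ring
  linarith

end T2F
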