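import Pool.Agent.W_f569db_h13.FiltDefs

set_option autoImplicit false

/-!
# The determinant line of a filtration
-/

noncomputable section

namespace H13F

open Pool.Agent.WeilH_h6 Pool.Agent.WeilH_h6.VarClass

universe u v w

variable {k : Type u} [Field k] {𝒱 : VarClass k} {K : Type v} [Field K]

/-- The class `∑_σ sign(σ) · q_1^* w_{σ(1)} ⋯ q_M^* w_{σ(M)}` on `X^M`, where `σ` runs through the
permutations of `{1, …, M}` with `β ∘ σ = β`.  Under the Künneth isomorphism `H(X^M) = H(X)^{⊗ M}` it is the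
tensor product, over the values `p` of `β`, of the wedge products `∧_{β(s) = p} w_s`. -/
def detClass (W : Weil.{u, v, w} 𝒱 K) {X : 𝒱.Obj} {M : ℕ} (w : Fin M → W.H X) (β : Fin M → ℤ × ℕ) :
    W.H (X.pow M) :=
  ∑ σ : Equiv.Perm (Fin M), if ∀ s, β (σ s) = β s then
    ((Equiv.Perm.sign σ : ℤ) : K) • W.pureT fun s => w (σ s) else 0

/-- The family of the `w_s`, `β(s) = p`, is a basis of `U`. -/
def IsBasisOf {W : Weil.{u, v, w} 𝒱 K} {X : 𝒱.Obj} {M : ℕ} (w : Fin M → W.H X) (β : Fin M → ℤ × ℕ)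
    (p : ℤ × ℕ) (U : Submodule K (W.H X)) : Prop :=
  LinearIndependent K (fun s : {s // β s = p} => w s) ∧
    Submodule.span K (Set.range fun s : {s // β s = p} => w s) = U

/-- For some `N ≥ 1` the line `⨂_{t ≥ 1} det(F^t)^{⊗ N}` in `H(X)^{⊗ M} = H(X^M)` is spanned by a class in
the `K`-span of the algebraic classes which is numerically trivial. -/
def Filt.DetNum {W : Weil.{u, v, w} 𝒱 K} {X : 𝒱.Obj} (B : Filt W X) : Prop :=
  ∃ (N M : ℕ) (w : Fin M → W.H X) (β : Fin M → ℤ × ℕ), 0 < N ∧ (∀ s, 1 ≤ (β s).1 ∧ (β s).2 < N) ∧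
    (∀ t : ℤ, 1 ≤ t → ∀ j < N, IsBasisOf w β (t, j) (B.F t)) ∧
    detClass W w β ∈ W.algSpan (X.pow M) ∧
    ∀ a ∈ W.algSpan (X.pow M), W.deg (detClass W w β * a) = 0

end H13F
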