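import Pool.Agent.W_f569db_h13.Kempf2

/-!
# The first order condition against a second weighted basis
-/

set_option linter.unusedSectionVars false

namespace T2F

open H69 H13F Matrix Finset

variable {α : Type*} [Fintype α] [DecidableEq α] {F : Type*} [Field F]
  {ι : Type*} [Fintype ι] [DecidableEq ι]

theorem wt_comb (t : ℝ) (ξ ξ' : α → ℝ) (a b : ι → α) :
    wt (fun r => (1 - t) * ξ r + t * ξ' r) a b = (1 - t) * wt ξ a b + t * wt ξ' a b := by
  unfold wt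
  simp only [Finset.sum_add_distrib, ← Finset.mul_sum]
  ring

theorem wt_smul (t : ℝ) (ξ : α → ℝ) (a b : ι → α) :
    wt (fun r => t * ξ r) a b = t * wt ξ a b := by
  unfold wt
  simp only [← Finset.mul_sum]
  ring

theorem posS_comb {A N : Set (Matrix (ι → α) (ι → α) F)} {g : (Matrix α α F)ˣ} {ξ ξ' : α → ℝ}
    (h : PosS A N g ξ) (h' : PosS A N g ξ') {t : ℝ} (h0 : 0 ≤ t) (h1 : t ≤ 1) :
    PosS A N g (fun r => (1 - t) * ξ r + t * ξ' r) := by
  refine ⟨fun x hx a b hab => ?_, fun x hx a b hab => ?_⟩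
  · rw [wt_comb]
    have h2 := h.1 x hx a b hab
    have h3 := h'.1 x hx a b hab
    have h4 : 0 ≤ 1 - t := by linarith
    positivity
  · rw [wt_comb]
    have h2 := h.2 x hx a b hab
    have h3 := h'.2 x hx a b hab
    have h4 : 0 ≤ 1 - t := by linarith
    nlinarith

/-- a minimal point of a star shaped set: first order condition -/
theorem first_order_real {β : Type*} [Fintype β] (x y : β → ℝ)
    (h : ∀ t : ℝ, 0 ≤ t → t ≤ 1 → ∑ r, x r ^ 2 ≤ ∑ r, ((1 - t) * x r + t * y r) ^ 2) :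
    ∑ r, x r ^ 2 ≤ ∑ r, x r * y r := by
  by_contra hcon
  rw [not_le] at hcon
  set P := ∑ r, x r ^ 2 with hP
  set Q := ∑ r, x r * y r with hQ
  set R := ∑ r, y r ^ 2 with hR
  have hexp : ∀ t : ℝ, ∑ r, ((1 - t) * x r + t * y r) ^ 2 =
      (1 - t) ^ 2 * P + 2 * t * (1 - t) * Q + t ^ 2 * R := by
    intro t
    rw [hP, hQ, hR, Finset.mul_sum, Finset.mul_sum, Finset.mul_sum, ← Finset.sum_add_distrib,
      ← Finset.sum_add_distrib]
    apply Finset.sum_congr rfl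
    intro r _
    ring
  have hP0 : 0 ≤ P := Finset.sum_nonneg fun r _ => sq_nonneg _
  have hR0 : 0 ≤ R := Finset.sum_nonneg fun r _ => sq_nonneg _
  -- S = P - 2 Q + R = |x - y|^2 ≥ 0
  have hS : 0 ≤ P - 2 * Q + R := by
    have h2 : P - 2 * Q + R = ∑ r, (x r - y r) ^ 2 := by
      rw [hP, hQ, hR, Finset.mul_sum, ← Finset.sum_sub_distrib, ← Finset.sum_add_distrib]
      apply Finset.sum_congr rfl
      intro r _
      ring
    rw [h2]
    exact Finset.sum_nonneg fun r _ => sq_nonneg _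
  have hd : 0 < P - Q := by linarith
  -- choose t = min 1 ((P - Q) / (P - 2 Q + R + 1))
  set S := P - 2 * Q + R with hSdef
  have hS1 : 0 < S + 1 := by linarith
  set t := min 1 ((P - Q) / (S + 1)) with ht
  have ht0 : 0 < t := lt_min one_pos (div_pos hd hS1)
  have ht1 : t ≤ 1 := min_le_left _ _
  have ht2 : t * (S + 1) ≤ P - Q := by
    have h3 : t ≤ (P - Q) / (S + 1) := min_le_right _ _
    rwa [le_div_iff₀ hS1] at h3
  have h4 := h t ht0.le ht1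
  rw [hexp t] at h4
  -- P ≤ P - 2 t (P - Q) + t^2 S
  have h5 : (1 - t) ^ 2 * P + 2 * t * (1 - t) * Q + t ^ 2 * R = P - 2 * t * (P - Q) + t ^ 2 * S := by
    rw [hSdef]; ring
  rw [h5] at h4
  have h6 : 2 * (P - Q) ≤ t * S := by
    have h7 : 0 ≤ t * (t * S - 2 * (P - Q)) := by nlinarith
    have h8 : 0 ≤ t * S - 2 * (P - Q) := nonneg_of_mul_nonneg_right h7 ht0
    linarith
  have h9 : t * S ≤ P - Q := by nlinarith
  linarith

/-- `(g, ξ)` of minimal norm among the weighted bases with weights `≥ 0` on `A` and `≥ 1` on `N`;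
`(h, ξ')` with weights `≥ 0` on `A` and `≥ s > 0` on `N`.  In a common basis
`∑ η η' ≥ s ∑ ξ²`. -/
theorem inner_ge {A N : Set (Matrix (ι → α) (ι → α) F)} {g : (Matrix α α F)ˣ} {ξ : α → ℝ}
    (hg : PosS A N g ξ)
    (hm : ∀ (g' : (Matrix α α F)ˣ) (ξ' : α → ℝ), PosS A N g' ξ' → ∑ r, ξ r ^ 2 ≤ ∑ r, ξ' r ^ 2)
    {h : (Matrix α α F)ˣ} {ξ' : α → ℝ} {s : ℝ} (hs : 0 < s)
    (hA : ∀ x ∈ A, ∀ a b, cj h⁻¹ x a b ≠ 0 → 0 ≤ wt ξ' a b)
    (hN : ∀ x ∈ N, ∀ a b, cj h⁻¹ x a b ≠ 0 → s ≤ wt ξ' a b) :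
    ∃ (k : (Matrix α α F)ˣ) (η η' : α → ℝ), Same k η g ξ ∧ Same k η' h ξ' ∧
      s * ∑ r, ξ r ^ 2 ≤ ∑ r, η r * η' r := by
  obtain ⟨k, -, η, η', h1, h2⟩ := common_basis (c0 α) (mem_BG_c0 g) (mem_BG_c0 h) ξ ξ'
  refine ⟨k, η, η', h1, h2, ?_⟩
  have p1 : PosS A N k η := hg.of_same h1.symm
  have p2 : PosS A N k (fun r => s⁻¹ * η' r) := by
    refine ⟨fun x hx a b hab => ?_, fun x hx a b hab => ?_⟩
    · have h3 := wt_of_same (hA x hx) h2.symm a b hab
      rw [wt_smul]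
      exact mul_nonneg (inv_nonneg.2 hs.le) h3
    · have h3 := wt_of_same (hN x hx) h2.symm a b hab
      rw [wt_smul]
      calc (1 : ℝ) = s⁻¹ * s := by rw [inv_mul_cancel₀ hs.ne']
        _ ≤ _ := mul_le_mul_of_nonneg_left h3 (inv_nonneg.2 hs.le)
  have e1 : ∑ r, η r ^ 2 = ∑ r, ξ r ^ 2 := by
    obtain ⟨τ, hτ⟩ := h1.symm.exists_perm
    simp only [hτ]
    exact Equiv.sum_comp τ (fun r => ξ r ^ 2)
  have h5 := first_order_real η (fun r => s⁻¹ * η' r) (fun t h0 h1 => by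
    rw [e1]
    exact hm k _ (posS_comb p1 p2 h0 h1))
  rw [e1] at h5
  have h6 : ∑ r, η r * (s⁻¹ * η' r) = s⁻¹ * ∑ r, η r * η' r := by
    rw [Finset.mul_sum]
    apply Finset.sum_congr rfl
    intro r _
    ring
  rw [h6] at h5
  calc s * ∑ r, ξ r ^ 2 ≤ s * (s⁻¹ * ∑ r, η r * η' r) := mul_le_mul_of_nonneg_left h5 hs.le
    _ = ∑ r, η r * η' r := by rw [← mul_assoc, mul_inv_cancel₀ hs.ne', one_mul]

end T2F
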