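import Pool.Agent.W_f569db_t2.Defs

set_option autoImplicit false

noncomputable section

namespace T2F

open AlgebraicGeometry CategoryTheory MonoidalCategory
open scoped TensorProduct DirectSum
open Pool.Agent.WeilH_h6 Pool.Agent.WeilH_h6.VarClass Pool.Agent.WeilH_h6.Weil H13F

universe u v w

variable {k : Type u} [Field k] {𝒱 : VarClass k} {K : Type v} [Field K] {W : Weil.{u, v, w} 𝒱 K}

variable [CharZero K] {X : 𝒱.Obj}

theorem NtFB_tr_par (x y : W.H X) : W.tr X (W.par X x * y) = W.tr X (x * W.par X y) := by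
  rw [← W.tr_par (W.par X x * y), W.par_mul, W.par_par]

theorem NtFB_tr_parPr (i : Fin 2) (x y : W.H X) :
    W.tr X (parPr W X i x * y) = W.tr X (x * parPr W X i y) := by
  unfold parPr
  simp only [LinearMap.smul_apply, LinearMap.add_apply, LinearMap.id_apply, smul_mul_assoc,
    mul_smul_comm, add_mul, mul_add, map_smul, map_add, NtFB_tr_par]

/-- Decomposition of a pure tensor. -/
theorem NtFB_pure {n : ℕ} (v : Fin n → W.H X) :
    (∑ π : Fin n → Fin 2, W.pureT fun s => parPr W X (π s) (v s)) = W.pureT v := by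
  have h2 : v = fun s => ∑ i : Fin 2, parPr W X i (v s) := by
    funext s; rw [parPr_add]
  conv_rhs => rw [h2, ← pureM_apply, MultilinearMap.map_sum]
  simp only [pureM_apply]

/-- The projectors on the parts of given parities are self-adjoint for the unsigned form.

Proof: for pure tensors (`pure_induction₂`): `powMap_pureT`, `fB_pureT`, and
`tr (parPr i u * v) = tr (u * parPr i v)` (from `W.tr_par`: `tr (par u * v) = tr (u * par v)` since
`par (par u * v) = u * par v`). -/
theorem fB_powPr (hpar : W.par X ∈ W.algHom X X) {n : ℕ} (π : Fin n → Fin 2) (a b : W.H (X.pow n)) :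
    fB hpar n (W.powMap n (fun s => parPr W X (π s)) a) b =
      fB hpar n a (W.powMap n (fun s => parPr W X (π s)) b) := by
  refine pure_induction₂ (W := W) (X := X)
    (P := fun a b => fB hpar n (W.powMap n (fun s => parPr W X (π s)) a) b =
      fB hpar n a (W.powMap n (fun s => parPr W X (π s)) b)) ?_ ?_ ?_ ?_ ?_ a b
  · intro a a' b h h'
    rw [map_add, fB_add_left, fB_add_left, h, h']
  · intro a b b' h h'
    rw [map_add, fB_add_right, fB_add_right, h, h']
  · intro c a b h
    rw [map_smul, fB_smul_left, fB_smul_left, h]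
  · intro c a b h
    rw [map_smul, fB_smul_right, fB_smul_right, h]
  · intro u v
    rw [powMap_pureT, powMap_pureT, fB_pureT, fB_pureT]
    exact Finset.prod_congr rfl fun s _ => NtFB_tr_parPr _ _ _

/-- The sum of the projectors is the identity.  Proof: on pure tensors (`pure_induction`),
`MultilinearMap.map_sum`, `parPr_add`. -/
theorem sum_powPr {n : ℕ} (a : W.H (X.pow n)) :
    ∑ π : Fin n → Fin 2, W.powMap n (fun s => parPr W X (π s)) a = a := by
  refine W.pure_induction
    (P := fun a => ∑ π : Fin n → Fin 2, W.powMap n (fun s => parPr W X (π s)) a = a) ?_ ?_ ?_ a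
  · intro a b ha hb
    simp only [map_add, Finset.sum_add_distrib]
    rw [ha, hb]
  · intro c a ha
    simp only [map_smul]
    rw [← Finset.smul_sum, ha]
  · intro v
    simp only [powMap_pureT]
    exact NtFB_pure v

/-- Comparison of the form `tr (a * b)` with the unsigned form, on the parts of given parities.

Proof: by linearity in `b` (`W.pure_induction`), from `tr_mul_pureT` and `powMap_pureT`,
`par_parPr`. -/
theorem tr_mul_powPr (hpar : W.par X ∈ W.algHom X X) {n : ℕ} (π : Fin n → Fin 2) :
    ∃ ε : K, ε ≠ 0 ∧ ∀ a b : W.H (X.pow n),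
      W.tr (X.pow n) (a * W.powMap n (fun s => parPr W X (π s)) b) =
        ε * fB hpar n a (W.powMap n (fun s => parPr W X (π s)) b) := by
  obtain ⟨ε, hε, h⟩ := tr_mul_pureT hpar π
  refine ⟨ε, hε, fun a b => ?_⟩
  refine W.pure_induction (P := fun b => W.tr (X.pow n)
      (a * W.powMap n (fun s => parPr W X (π s)) b) =
        ε * fB hpar n a (W.powMap n (fun s => parPr W X (π s)) b)) ?_ ?_ ?_ b
  · intro b b' hb hb'
    rw [map_add, mul_add, map_add, fB_add_right, hb, hb', mul_add]
  · intro c b hb
    rw [map_smul, mul_smul_comm, map_smul, fB_smul_right, hb, smul_eq_mul]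
    ring
  · intro v
    rw [powMap_pureT]
    exact h a _ fun s => par_parPr W (π s) (v s)

/-- The right version of `fB_nt`.  Proof: `b = ∑ π, Pr_π b`, `fB a (Pr_π b) = ε⁻¹ tr (a * Pr_π b)`,
`Pr_π b` is numerically trivial (`NT.algHom`, `powMap_mem_algHom`, `parPr_mem`), `a` is central
(`W.central`). -/
theorem fB_nt_right (hpar : W.par X ∈ W.algHom X X) {n : ℕ} {a b : W.H (X.pow n)}
    (ha : a ∈ W.algSpan _) (hb : W.NT b) : fB hpar n a b = 0 := by
  have h1 : fB hpar n a b =
      ∑ π : Fin n → Fin 2, fB hpar n a (W.powMap n (fun s => parPr W X (π s)) b) := by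
    have h2 : fBL hpar n a b = fBL hpar n a
        (∑ π : Fin n → Fin 2, W.powMap n (fun s => parPr W X (π s)) b) := by rw [sum_powPr]
    rw [map_sum] at h2
    exact h2
  rw [h1]
  refine Finset.sum_eq_zero fun π _ => ?_
  obtain ⟨ε, hε, h⟩ := tr_mul_powPr hpar π
  have h3 : W.NT (W.powMap n (fun s => parPr W X (π s)) b) :=
    hb.algHom W (W.powMap_mem_algHom fun s => parPr_mem W hpar (π s))
  have h4 := h a b
  rw [W.central ha, h3.2 a ha] at h4
  exact (mul_eq_zero.1 h4.symm).resolve_left hε

/-- An algebraic class which is orthogonal, for the unsigned form, to all algebraic classes is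
numerically trivial.

Proof: `tr (a * b) = ∑ π, tr (a * Pr_π b) = ∑ π, ε_π * fB a (Pr_π b) = 0`, as `Pr_π b` is algebraic
(`W.algHom_apply_mem`). -/
theorem nt_of_fB (hpar : W.par X ∈ W.algHom X X) {n : ℕ} {a : W.H (X.pow n)}
    (ha : a ∈ W.algSpan _) (h : ∀ b ∈ W.algSpan (X.pow n), fB hpar n a b = 0) : W.NT a := by
  refine ⟨ha, fun b hb => ?_⟩
  have h1 : W.tr (X.pow n) (a * b) =
      ∑ π : Fin n → Fin 2, W.tr (X.pow n) (a * W.powMap n (fun s => parPr W X (π s)) b) := by
    conv_lhs => rw [← sum_powPr b, Finset.mul_sum, map_sum]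
  rw [h1]
  refine Finset.sum_eq_zero fun π _ => ?_
  obtain ⟨ε, -, h2⟩ := tr_mul_powPr hpar π
  rw [h2 a b, h _ (W.algHom_apply_mem (W.powMap_mem_algHom fun s => parPr_mem W hpar (π s)) hb),
    mul_zero]

end T2F
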